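import Mathlib

/-!
# A Gabber-Galil type inequality on `ZMod m × ZMod m`
-/

open Finset

namespace Pool.Agent.Lib.P325f1f.GabberGalil

variable {m : ℕ} [NeZero m]

theorem vma_add {x y : ZMod m} (hx : 4 * |x.valMinAbs| < m) (hy : 4 * |y.valMinAbs| < m) :
    (x + y).valMinAbs = x.valMinAbs + y.valMinAbs := by
  rw [ZMod.valMinAbs_spec]
  refine ⟨by push_cast [ZMod.coe_valMinAbs]; rfl, ?_, ?_⟩
  · have h1 := neg_abs_le x.valMinAbs
    have h2 := neg_abs_le y.valMinAbs
    linarith
  · have h1 := le_abs_self x.valMinAbs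
    have h2 := le_abs_self y.valMinAbs
    linarith

theorem vma_sub {x y : ZMod m} (hx : 4 * |x.valMinAbs| < m) (hy : 4 * |y.valMinAbs| < m) :
    (y - x).valMinAbs = y.valMinAbs - x.valMinAbs := by
  rw [ZMod.valMinAbs_spec]
  refine ⟨by push_cast [ZMod.coe_valMinAbs]; rfl, ?_, ?_⟩
  · have h1 := le_abs_self x.valMinAbs
    have h2 := neg_abs_le y.valMinAbs
    linarith
  · have h1 := neg_abs_le x.valMinAbs
    have h2 := le_abs_self y.valMinAbs
    linarith

/-- The map `(x, y) ↦ (x, x + y)`. -/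
def beta (m : ℕ) : ZMod m × ZMod m ≃ ZMod m × ZMod m where
  toFun η := (η.1, η.1 + η.2)
  invFun η := (η.1, η.2 - η.1)
  left_inv η := by simp
  right_inv η := by simp

/-- The map `(x, y) ↦ (x + y, y)`. -/
def alpha (m : ℕ) : ZMod m × ZMod m ≃ ZMod m × ZMod m where
  toFun η := (η.1 + η.2, η.2)
  invFun η := (η.1 - η.2, η.2)
  left_inv η := by simp
  right_inv η := by simp

/-- Moving a set by a map that hardly changes `g`. -/
theorem move (g : ZMod m × ZMod m → ℝ) (D : ℝ)
    (σ : ZMod m × ZMod m ≃ ZMod m × ZMod m) (hσ : ∑ η, (g η - g (σ η)) ^ 2 ≤ D)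
    (Y Z : Finset (ZMod m × ZMod m)) (hYZ : ∀ η ∈ Y, σ η ∈ Z) :
    ∑ η ∈ Y, g η ^ 2 ≤ ∑ η ∈ Z, g η ^ 2 + 2 * Real.sqrt (D * ∑ η, g η ^ 2) := by
  have hD : 0 ≤ D := le_trans (Finset.sum_nonneg (fun η _ => sq_nonneg _)) hσ
  have h1 : ∑ η ∈ Y, (g η ^ 2 - g (σ η) ^ 2) ≤
      ∑ η, |g η - g (σ η)| * |g η + g (σ η)| := by
    calc ∑ η ∈ Y, (g η ^ 2 - g (σ η) ^ 2) ≤ ∑ η ∈ Y, |g η - g (σ η)| * |g η + g (σ η)| := by
          apply Finset.sum_le_sum
          intro η _
          rw [← abs_mul]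
          have : g η ^ 2 - g (σ η) ^ 2 = (g η - g (σ η)) * (g η + g (σ η)) := by ring
          rw [this]
          exact le_abs_self _
      _ ≤ _ := Finset.sum_le_sum_of_subset_of_nonneg (Finset.subset_univ _)
          (fun η _ _ => by positivity)
  have h2 : (∑ η, |g η - g (σ η)| * |g η + g (σ η)|) ^ 2 ≤
      (∑ η, |g η - g (σ η)| ^ 2) * ∑ η, |g η + g (σ η)| ^ 2 :=
    Finset.sum_mul_sq_le_sq_mul_sq _ _ _
  have h3 : ∑ η, |g η + g (σ η)| ^ 2 ≤ 4 * ∑ η, g η ^ 2 := by
    have e : ∑ η, g (σ η) ^ 2 = ∑ η, g η ^ 2 := Equiv.sum_comp σ (fun η => g η ^ 2)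
    calc ∑ η, |g η + g (σ η)| ^ 2 ≤ ∑ η, (2 * g η ^ 2 + 2 * g (σ η) ^ 2) := by
          apply Finset.sum_le_sum
          intro η _
          rw [sq_abs]
          nlinarith [sq_nonneg (g η - g (σ η))]
      _ = 4 * ∑ η, g η ^ 2 := by
          rw [Finset.sum_add_distrib, ← Finset.mul_sum, ← Finset.mul_sum, e]; ring
  have h4 : ∑ η, |g η - g (σ η)| ^ 2 ≤ D := by
    simpa only [sq_abs] using hσ
  have h5 : (∑ η, |g η - g (σ η)| * |g η + g (σ η)|) ^ 2 ≤ D * (4 * ∑ η, g η ^ 2) := by
    refine le_trans h2 ?_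
    apply mul_le_mul h4 h3
    · exact Finset.sum_nonneg (fun η _ => by positivity)
    · exact hD
  have h6 : ∑ η, |g η - g (σ η)| * |g η + g (σ η)| ≤ 2 * Real.sqrt (D * ∑ η, g η ^ 2) := by
    have h7 : 2 * Real.sqrt (D * ∑ η, g η ^ 2) = Real.sqrt (D * (4 * ∑ η, g η ^ 2)) := by
      have : D * (4 * ∑ η, g η ^ 2) = 2 ^ 2 * (D * ∑ η, g η ^ 2) := by ring
      rw [this, Real.sqrt_mul (by norm_num : (0:ℝ) ≤ 2 ^ 2) (D * ∑ η, g η ^ 2),
        Real.sqrt_sq (by norm_num)]
    rw [h7]
    exact Real.le_sqrt_of_sq_le h5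
  have h8 : ∑ η ∈ Y, g (σ η) ^ 2 ≤ ∑ η ∈ Z, g η ^ 2 := by
    calc ∑ η ∈ Y, g (σ η) ^ 2 = ∑ ζ ∈ Y.map σ.toEmbedding, g ζ ^ 2 := by
          rw [Finset.sum_map]; rfl
      _ ≤ _ := by
          apply Finset.sum_le_sum_of_subset_of_nonneg
          · intro ζ hζ
            rw [Finset.mem_map] at hζ
            obtain ⟨η, hη, rfl⟩ := hζ
            exact hYZ η hη
          · intro ζ _ _; positivity
  rw [Finset.sum_sub_distrib] at h1
  linarith

/-- **Gabber-Galil type inequality.** -/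
theorem main (c : ZMod m → ℝ) (hc0 : ∀ x, 0 ≤ c x)
    (hc : ∀ x : ZMod m, (m : ℤ) ≤ 4 * |x.valMinAbs| → 2 ≤ c x)
    (g : ZMod m × ZMod m → ℝ) (hg0 : g 0 = 0) :
    ∑ η, g η ^ 2 ≤ 200 * (∑ η, (c η.1 + c η.2) * g η ^ 2 + ∑ η, (g η - g (beta m η)) ^ 2
      + ∑ η, (g η - g (alpha m η)) ^ 2) := by
  classical
  set M := ∑ η, g η ^ 2 with hM
  set D := ∑ η, (c η.1 + c η.2) * g η ^ 2 + ∑ η, (g η - g (beta m η)) ^ 2
      + ∑ η, (g η - g (alpha m η)) ^ 2 with hD
  have hD1 : 0 ≤ ∑ η : ZMod m × ZMod m, (c η.1 + c η.2) * g η ^ 2 :=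
    Finset.sum_nonneg (fun η _ => mul_nonneg (add_nonneg (hc0 _) (hc0 _)) (sq_nonneg _))
  have hD2 : 0 ≤ ∑ η, (g η - g (beta m η)) ^ 2 := Finset.sum_nonneg (fun η _ => sq_nonneg _)
  have hD3 : 0 ≤ ∑ η, (g η - g (alpha m η)) ^ 2 := Finset.sum_nonneg (fun η _ => sq_nonneg _)
  have hMn : 0 ≤ M := Finset.sum_nonneg (fun η _ => sq_nonneg _)
  have hDn : 0 ≤ D := by rw [hD]; positivity
  have hβ : ∑ η, (g η - g (beta m η)) ^ 2 ≤ D := by rw [hD]; linarith
  have hα : ∑ η, (g η - g (alpha m η)) ^ 2 ≤ D := by rw [hD]; linarith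
  have hβ' : ∑ η, (g η - g ((beta m).symm η)) ^ 2 ≤ D := by
    rw [← Equiv.sum_comp (beta m)]
    simp only [Equiv.symm_apply_apply]
    calc ∑ i, (g (beta m i) - g i) ^ 2 = ∑ η, (g η - g (beta m η)) ^ 2 :=
          Finset.sum_congr rfl (fun η _ => by ring)
      _ ≤ D := hβ
  have hα' : ∑ η, (g η - g ((alpha m).symm η)) ^ 2 ≤ D := by
    rw [← Equiv.sum_comp (alpha m)]
    simp only [Equiv.symm_apply_apply]
    calc ∑ i, (g (alpha m i) - g i) ^ 2 = ∑ η, (g η - g (alpha m η)) ^ 2 :=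
          Finset.sum_congr rfl (fun η _ => by ring)
      _ ≤ D := hα
  set e := 2 * Real.sqrt (D * M) + D / 2 with he
  let box : ZMod m × ZMod m → Prop := fun η =>
    4 * |η.1.valMinAbs| < m ∧ 4 * |η.2.valMinAbs| < m
  -- mass outside the box
  have hout : ∑ η with ¬ box η, g η ^ 2 ≤ D / 2 := by
    have h1 : ∑ η with ¬ box η, 2 * g η ^ 2 ≤ ∑ η : ZMod m × ZMod m,
        (c η.1 + c η.2) * g η ^ 2 := by
      calc ∑ η with ¬ box η, 2 * g η ^ 2 ≤ ∑ η with ¬ box η, (c η.1 + c η.2) * g η ^ 2 := by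
            apply Finset.sum_le_sum
            intro η hη
            rw [Finset.mem_filter] at hη
            have hη2 := hη.2
            simp only [box, not_and_or, not_lt] at hη2
            apply mul_le_mul_of_nonneg_right _ (sq_nonneg _)
            rcases hη2 with h | h
            · have := hc _ h
              have := hc0 η.2
              linarith
            · have := hc _ h
              have := hc0 η.1
              linarith
        _ ≤ _ := Finset.sum_le_sum_of_subset_of_nonneg (Finset.filter_subset _ _)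
            (fun η _ _ => mul_nonneg (add_nonneg (hc0 _) (hc0 _)) (sq_nonneg _))
    rw [← Finset.mul_sum] at h1
    have : ∑ η : ZMod m × ZMod m, (c η.1 + c η.2) * g η ^ 2 ≤ D := by rw [hD]; linarith
    linarith
  -- combined step
  have step : ∀ (σ : ZMod m × ZMod m ≃ ZMod m × ZMod m),
      ∑ η, (g η - g (σ η)) ^ 2 ≤ D → ∀ (Y Z : ZMod m × ZMod m → Prop)
      [DecidablePred Y] [DecidablePred Z], (∀ η, Y η → box η → Z (σ η)) →
      ∑ η with Y η, g η ^ 2 ≤ ∑ η with Z η, g η ^ 2 + e := by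
    intro σ hσ Y Z _ _ hYZ
    have h1 := move g D σ hσ (Finset.univ.filter (fun η => Y η ∧ box η))
      (Finset.univ.filter (fun η => Z η)) (by
        intro η hη
        simp only [Finset.mem_filter, Finset.mem_univ, true_and] at hη ⊢
        exact hYZ η hη.1 hη.2)
    have h2 : ∑ η with Y η, g η ^ 2 ≤ ∑ η with (Y η ∧ box η), g η ^ 2
        + ∑ η with ¬ box η, g η ^ 2 := by
      rw [← Finset.sum_filter_add_sum_filter_not (Finset.univ.filter (fun η => Y η)) box]
      rw [Finset.filter_filter, Finset.filter_filter]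
      apply add_le_add le_rfl
      apply Finset.sum_le_sum_of_subset_of_nonneg
      · intro η hη
        simp only [Finset.mem_filter, Finset.mem_univ, true_and] at hη ⊢
        exact hη.2
      · intro η _ _; positivity
    rw [he]
    linarith
  let A : ZMod m × ZMod m → ℤ := fun η => η.1.valMinAbs
  let B : ZMod m × ZMod m → ℤ := fun η => η.2.valMinAbs
  have hβ1 : ∀ η, A (beta m η) = A η := fun η => rfl
  have hβ2 : ∀ η, box η → B (beta m η) = A η + B η := fun η hη => vma_add hη.1 hη.2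
  have hα1 : ∀ η, box η → A (alpha m η) = A η + B η := fun η hη => vma_add hη.1 hη.2
  have hα2 : ∀ η, B (alpha m η) = B η := fun η => rfl
  have hβ'1 : ∀ η, A ((beta m).symm η) = A η := fun η => rfl
  have hβ'2 : ∀ η, box η → B ((beta m).symm η) = B η - A η := fun η hη => vma_sub hη.1 hη.2
  have hα'1 : ∀ η, box η → A ((alpha m).symm η) = A η - B η := fun η hη => vma_sub hη.2 hη.1
  have hα'2 : ∀ η, B ((alpha m).symm η) = B η := fun η => rfl
  -- the closed quadrants
  have s1 := step (beta m) hβ (fun η => 0 ≤ A η * B η)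
    (fun η => 0 ≤ A η * B η ∧ |A η| ≤ |B η|) (by
      intro η h hb
      rw [hβ1, hβ2 η hb]
      constructor
      · nlinarith [mul_self_nonneg (A η)]
      · rw [← sq_le_sq]; nlinarith [mul_self_nonneg (B η)])
  have s2 := step (alpha m) hα (fun η => 0 ≤ A η * B η)
    (fun η => 0 ≤ A η * B η ∧ |B η| ≤ |A η|) (by
      intro η h hb
      rw [hα1 η hb, hα2]
      constructor
      · nlinarith [mul_self_nonneg (B η)]
      · rw [← sq_le_sq]; nlinarith [mul_self_nonneg (A η)])
  have s3 : ∑ η with (0 ≤ A η * B η ∧ |A η| ≤ |B η|), g η ^ 2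
      + ∑ η with (0 ≤ A η * B η ∧ |B η| ≤ |A η|), g η ^ 2
      = ∑ η with 0 ≤ A η * B η, g η ^ 2 + ∑ η with A η = B η, g η ^ 2 := by
    rw [← Finset.sum_union_inter]
    congr 1
    · apply Finset.sum_congr _ (fun _ _ => rfl)
      ext η
      simp only [Finset.mem_union, Finset.mem_filter, Finset.mem_univ, true_and]
      constructor
      · rintro (h | h) <;> exact h.1
      · intro h
        rcases le_total |A η| |B η| with h' | h'
        · exact Or.inl ⟨h, h'⟩
        · exact Or.inr ⟨h, h'⟩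
    · apply Finset.sum_congr _ (fun _ _ => rfl)
      ext η
      simp only [Finset.mem_inter, Finset.mem_filter, Finset.mem_univ, true_and]
      constructor
      · rintro ⟨⟨h, h1⟩, _, h2⟩
        rcases abs_eq_abs.1 (le_antisymm h1 h2) with h3 | h3
        · exact h3
        · rw [h3] at h
          have : B η = 0 := by nlinarith [mul_self_nonneg (B η)]
          rw [h3, this]; simp
      · intro h
        rw [h]
        exact ⟨⟨mul_self_nonneg _, le_rfl⟩, mul_self_nonneg _, le_rfl⟩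
  have s4 : ∑ η with A η = B η, g η ^ 2 = ∑ η with (A η = B η ∧ A η ≠ 0), g η ^ 2 := by
    symm
    apply Finset.sum_subset
    · intro η hη
      simp only [Finset.mem_filter, Finset.mem_univ, true_and] at hη ⊢
      exact hη.1
    · intro η hη hη'
      simp only [Finset.mem_filter, Finset.mem_univ, true_and, not_and, not_not] at hη hη'
      have h1 := hη' hη
      have h2 : B η = 0 := by rw [← hη]; exact h1
      have h3 : η = 0 := by
        have e1 : η.1 = 0 := (ZMod.valMinAbs_eq_zero _).1 h1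
        have e2 : η.2 = 0 := (ZMod.valMinAbs_eq_zero _).1 h2
        exact Prod.ext e1 e2
      rw [h3, hg0]; ring
  have s5 := step (beta m) hβ (fun η => A η = B η ∧ A η ≠ 0)
    (fun η => B η = 2 * A η ∧ A η ≠ 0) (by
      intro η h hb
      rw [hβ1, hβ2 η hb]
      exact ⟨by rw [← h.1]; ring, h.2⟩)
  have s6 := step (alpha m) hα (fun η => A η = B η ∧ A η ≠ 0)
    (fun η => A η = 2 * B η ∧ B η ≠ 0) (by
      intro η h hb
      rw [hα1 η hb, hα2]
      exact ⟨by rw [h.1]; ring, by rw [← h.1]; exact h.2⟩)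
  have s7 : ∑ η with (A η = B η ∧ A η ≠ 0), g η ^ 2 + ∑ η with (B η = 2 * A η ∧ A η ≠ 0), g η ^ 2
      + ∑ η with (A η = 2 * B η ∧ B η ≠ 0), g η ^ 2 ≤ ∑ η with 0 ≤ A η * B η, g η ^ 2 := by
    rw [← Finset.sum_union, ← Finset.sum_union]
    · apply Finset.sum_le_sum_of_subset_of_nonneg
      · intro η hη
        simp only [Finset.mem_union, Finset.mem_filter, Finset.mem_univ, true_and] at hη ⊢
        rcases hη with (h | h) | h
        · rw [h.1]; exact mul_self_nonneg _
        · rw [h.1]; nlinarith [mul_self_nonneg (A η)]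
        · rw [h.1]; nlinarith [mul_self_nonneg (B η)]
      · intro η _ _; positivity
    · rw [Finset.disjoint_left]
      intro η hη hη'
      simp only [Finset.mem_union, Finset.mem_filter, Finset.mem_univ, true_and] at hη hη'
      rcases hη with h | h
      · apply hη'.2; have := h.1; have := hη'.1; omega
      · apply hη'.2; have := h.1; have := hη'.1; omega
    · rw [Finset.disjoint_left]
      intro η hη hη'
      simp only [Finset.mem_filter, Finset.mem_univ, true_and] at hη hη'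
      apply hη.2; have := hη.1; have := hη'.1; omega
  -- the open quadrants
  have s8 := step (beta m).symm hβ' (fun η => A η * B η < 0)
    (fun η => A η * B η < 0 ∧ |A η| < |B η|) (by
      intro η h hb
      rw [hβ'1, hβ'2 η hb]
      constructor
      · nlinarith [mul_self_nonneg (A η)]
      · rw [← sq_lt_sq]; nlinarith [mul_self_nonneg (B η)])
  have s9 := step (alpha m).symm hα' (fun η => A η * B η < 0)
    (fun η => A η * B η < 0 ∧ |B η| < |A η|) (by
      intro η h hb
      rw [hα'1 η hb, hα'2]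
      constructor
      · nlinarith [mul_self_nonneg (B η)]
      · rw [← sq_lt_sq]; nlinarith [mul_self_nonneg (A η)])
  have s10 : ∑ η with (A η * B η < 0 ∧ |A η| < |B η|), g η ^ 2
      + ∑ η with (A η * B η < 0 ∧ |B η| < |A η|), g η ^ 2 ≤ ∑ η with A η * B η < 0, g η ^ 2 := by
    rw [← Finset.sum_union]
    · apply Finset.sum_le_sum_of_subset_of_nonneg
      · intro η hη
        simp only [Finset.mem_union, Finset.mem_filter, Finset.mem_univ, true_and] at hη ⊢
        rcases hη with h | h <;> exact h.1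
      · intro η _ _; positivity
    · rw [Finset.disjoint_left]
      intro η hη hη'
      simp only [Finset.mem_filter, Finset.mem_univ, true_and] at hη hη'
      exact absurd hη.2 (not_lt.2 hη'.2.le)
  have s11 : M = ∑ η with 0 ≤ A η * B η, g η ^ 2 + ∑ η with A η * B η < 0, g η ^ 2 := by
    rw [hM, ← Finset.sum_filter_add_sum_filter_not Finset.univ (fun η => 0 ≤ A η * B η)]
    simp only [not_le]
  have hfin : M ≤ 12 * Real.sqrt (D * M) + 3 * D := by
    rw [s4] at s3
    linarith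
  by_contra hcon
  push Not at hcon
  have hMpos : 0 < M := lt_of_le_of_lt (by positivity) hcon
  have hsq : Real.sqrt (D * M) < M / 14 := by
    rw [Real.sqrt_lt' (by positivity)]
    nlinarith
  linarith

end Pool.Agent.Lib.P325f1f.GabberGalil
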