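import Mathlib
import Pool.Agent.Lib.P325f1f.GabberGalil

/-!
# The relative spectral gap of the affine group over `ZMod m`
-/

open Finset Matrix

namespace Pool.Agent.Lib.P325f1f.Fourier

variable {m : ℕ} [NeZero m]

/-- The Fourier coefficient of `f` at `ξ`. -/
noncomputable def hat (f : (Fin 2 → ZMod m) → ℝ) (ξ : Fin 2 → ZMod m) : ℂ :=
  ∑ w, (f w : ℂ) * ZMod.stdAddChar (ξ ⬝ᵥ w)

theorem norm_char (x : ZMod m) : ‖(ZMod.stdAddChar x : ℂ)‖ = 1 := by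
  rw [ZMod.stdAddChar_apply]; exact Circle.norm_coe _

theorem conj_char (x : ZMod m) :
    (starRingEnd ℂ) (ZMod.stdAddChar x) = ZMod.stdAddChar (-x) := by
  rw [AddChar.map_neg_eq_inv, ← RCLike.inv_eq_conj] 
  exact norm_char x

theorem sum_char (d : Fin 2 → ZMod m) :
    ∑ ξ : Fin 2 → ZMod m, (ZMod.stdAddChar (ξ ⬝ᵥ d) : ℂ) = if d = 0 then (m : ℂ) ^ 2 else 0 := by
  classical
  have h1 : ∀ ξ : Fin 2 → ZMod m, (ZMod.stdAddChar (ξ ⬝ᵥ d) : ℂ)
      = ∏ i, ZMod.stdAddChar (ξ i * d i) := by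
    intro ξ
    simp only [dotProduct, Fin.sum_univ_two, Fin.prod_univ_two, AddChar.map_add_eq_mul]
  simp_rw [h1]
  have h2 := (Finset.prod_univ_sum (fun _ : Fin 2 => (Finset.univ : Finset (ZMod m)))
    (fun i x => (ZMod.stdAddChar (x * d i) : ℂ))).symm
  rw [Fintype.piFinset_univ] at h2
  rw [h2]
  simp_rw [AddChar.sum_mulShift _ (ZMod.isPrimitive_stdAddChar m)]
  rw [Fin.prod_univ_two]
  by_cases h : d = 0
  · subst h
    simp [ZMod.card, sq]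
  · rw [if_neg h]
    have : d 0 ≠ 0 ∨ d 1 ≠ 0 := by
      by_contra hcon
      push Not at hcon
      apply h
      ext i
      fin_cases i
      · exact hcon.1
      · exact hcon.2
    rcases this with h' | h'
    · rw [if_neg h']; simp
    · rw [if_neg h']; simp

theorem parseval (f : (Fin 2 → ZMod m) → ℝ) :
    ∑ ξ, ‖hat f ξ‖ ^ 2 = (m : ℝ) ^ 2 * ∑ w, f w ^ 2 := by
  classical
  have h : ((∑ ξ, ‖hat f ξ‖ ^ 2 : ℝ) : ℂ) = (((m : ℝ) ^ 2 * ∑ w, f w ^ 2 : ℝ) : ℂ) := by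
    push_cast
    have h1 : ∀ ξ : Fin 2 → ZMod m, (‖hat f ξ‖ : ℂ) ^ 2
        = ∑ w, ∑ w', (f w : ℂ) * (f w' : ℂ) * ZMod.stdAddChar (ξ ⬝ᵥ (w - w')) := by
      intro ξ
      rw [← Complex.mul_conj', hat, map_sum, Finset.sum_mul_sum]
      apply Finset.sum_congr rfl
      intro w _
      apply Finset.sum_congr rfl
      intro w' _
      rw [map_mul, conj_char, Complex.conj_ofReal, dotProduct_sub, sub_eq_add_neg,
        AddChar.map_add_eq_mul]
      ring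
    simp_rw [h1]
    rw [Finset.sum_comm]
    have h2 : ∀ w : Fin 2 → ZMod m, ∑ ξ : Fin 2 → ZMod m, ∑ w', (f w : ℂ) * (f w' : ℂ) *
        ZMod.stdAddChar (ξ ⬝ᵥ (w - w')) = (m : ℂ) ^ 2 * (f w : ℂ) ^ 2 := by
      intro w
      rw [Finset.sum_comm]
      have h3 : ∀ w' : Fin 2 → ZMod m, ∑ ξ : Fin 2 → ZMod m, (f w : ℂ) * (f w' : ℂ) *
          ZMod.stdAddChar (ξ ⬝ᵥ (w - w')) = if w = w' then (f w : ℂ) * (f w' : ℂ) * (m : ℂ) ^ 2
            else 0 := by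
        intro w'
        rw [← Finset.mul_sum, sum_char]
        by_cases h : w = w'
        · subst h; simp
        · rw [if_neg (sub_ne_zero.2 h), if_neg h, mul_zero]
      simp_rw [h3]
      rw [Finset.sum_ite_eq]
      simp
      ring
    simp_rw [h2]
    rw [Finset.mul_sum]
  exact_mod_cast h

theorem hat_sub (f f' : (Fin 2 → ZMod m) → ℝ) (ξ : Fin 2 → ZMod m) :
    hat (fun w => f w - f' w) ξ = hat f ξ - hat f' ξ := by
  simp only [hat]
  rw [← Finset.sum_sub_distrib]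
  apply Finset.sum_congr rfl
  intro w _
  push_cast
  ring

theorem hat_translate (f : (Fin 2 → ZMod m) → ℝ) (a ξ : Fin 2 → ZMod m) :
    hat (fun w => f (w + a)) ξ = ZMod.stdAddChar (-(ξ ⬝ᵥ a)) * hat f ξ := by
  simp only [hat]
  rw [← Equiv.sum_comp (Equiv.addRight a) (fun w => (f w : ℂ) * ZMod.stdAddChar (ξ ⬝ᵥ w)),
    Finset.mul_sum]
  apply Finset.sum_congr rfl
  intro w _
  simp only [Equiv.coe_addRight, dotProduct_add, AddChar.map_add_eq_mul]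
  have : (ZMod.stdAddChar (-(ξ ⬝ᵥ a)) : ℂ) * ZMod.stdAddChar (ξ ⬝ᵥ a) = 1 := by
    rw [← AddChar.map_add_eq_mul, neg_add_cancel, AddChar.map_zero_eq_one]
  linear_combination (-(f (w + a) : ℂ) * ZMod.stdAddChar (ξ ⬝ᵥ w)) * this

/-- The potential `c x = |1 - χ(-x)|^2`. -/
noncomputable def pot (x : ZMod m) : ℝ := ‖(1 : ℂ) - ZMod.stdAddChar (-x)‖ ^ 2

theorem pot_nonneg (x : ZMod m) : 0 ≤ pot x := by unfold pot; positivity

theorem two_le_pot (x : ZMod m) (hx : (m : ℤ) ≤ 4 * |x.valMinAbs|) : 2 ≤ pot x := by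
  have hm : (0 : ℝ) < m := by exact_mod_cast Nat.pos_of_ne_zero (NeZero.ne m)
  set a := x.valMinAbs with ha
  have hxa : (x : ZMod m) = ((a : ℤ) : ZMod m) := (ZMod.coe_valMinAbs x).symm
  have h1 : (ZMod.stdAddChar (-x) : ℂ) = Complex.exp ((-(2 * Real.pi * a / m) : ℝ) * Complex.I) := by
    rw [hxa, ← Int.cast_neg, ZMod.stdAddChar_coe]
    congr 1
    push_cast
    ring
  have h2 : pot x = 2 - 2 * Real.cos (2 * Real.pi * a / m) := by
    unfold pot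
    rw [h1, Complex.exp_mul_I, ← Complex.normSq_eq_norm_sq, Complex.normSq_apply]
    simp only [Complex.sub_re, Complex.one_re, Complex.add_re, Complex.mul_re, Complex.I_re,
      Complex.I_im, Complex.sub_im, Complex.one_im, Complex.add_im, Complex.mul_im, mul_zero,
      mul_one, ← Complex.ofReal_cos, ← Complex.ofReal_sin, Complex.ofReal_re, Complex.ofReal_im,
      Real.cos_neg, Real.sin_neg]
    ring_nf
    have := Real.sin_sq_add_cos_sq (Real.pi * a * (m : ℝ)⁻¹ * 2)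
    nlinarith
  have h3 : Real.cos (2 * Real.pi * a / m) ≤ 0 := by
    rw [← Real.cos_abs]
    have hpi := Real.pi_pos
    have e1 : |2 * Real.pi * (a : ℝ) / m| = 2 * Real.pi * |(a : ℝ)| / m := by
      rw [abs_div, abs_mul, abs_of_pos (by positivity : (0 : ℝ) < 2 * Real.pi), abs_of_pos hm]
    have e2 : (m : ℝ) ≤ 4 * |(a : ℝ)| := by exact_mod_cast hx
    have e3 : 2 * |(a : ℝ)| ≤ m := by
      have := ZMod.valMinAbs_mem_Ioc x
      rw [← ha] at this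
      have h4 : 2 * |a| ≤ (m : ℤ) := by
        rcases abs_cases a with ⟨h, _⟩ | ⟨h, _⟩ <;> rw [h] <;> have := this.1 <;>
          have := ‹a * 2 ∈ Set.Ioc (-(m:ℤ)) m›.2 <;> linarith
      exact_mod_cast h4
    rw [e1]
    apply Real.cos_nonpos_of_pi_div_two_le_of_le
    · rw [div_le_div_iff₀ (by norm_num) hm]; nlinarith
    · have : 2 * Real.pi * |(a : ℝ)| / m ≤ Real.pi := by
        rw [div_le_iff₀ hm]; nlinarith
      linarith
  rw [h2]; linarith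

/-- The matrix `(1 1; 0 1)`. -/
def E12 (m : ℕ) : SpecialLinearGroup (Fin 2) (ZMod m) :=
  ⟨!![1, 1; 0, 1], by simp [Matrix.det_fin_two]⟩

/-- The matrix `(1 0; 1 1)`. -/
def E21 (m : ℕ) : SpecialLinearGroup (Fin 2) (ZMod m) :=
  ⟨!![1, 0; 1, 1], by simp [Matrix.det_fin_two]⟩

omit [NeZero m] in
theorem coe_inv_mul (A : SpecialLinearGroup (Fin 2) (ZMod m)) :
    ((A⁻¹ : SpecialLinearGroup (Fin 2) (ZMod m)) : Matrix (Fin 2) (Fin 2) (ZMod m)) *
      (A : Matrix (Fin 2) (Fin 2) (ZMod m)) = 1 :=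
  congrArg (fun B : SpecialLinearGroup (Fin 2) (ZMod m) =>
    (B : Matrix (Fin 2) (Fin 2) (ZMod m))) (inv_mul_cancel A)

omit [NeZero m] in
theorem coe_mul_inv (A : SpecialLinearGroup (Fin 2) (ZMod m)) :
    (A : Matrix (Fin 2) (Fin 2) (ZMod m)) *
    ((A⁻¹ : SpecialLinearGroup (Fin 2) (ZMod m)) : Matrix (Fin 2) (Fin 2) (ZMod m)) = 1 :=
  congrArg (fun B : SpecialLinearGroup (Fin 2) (ZMod m) =>
    (B : Matrix (Fin 2) (Fin 2) (ZMod m))) (mul_inv_cancel A)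

omit [NeZero m] in
theorem coe_mul_mul_inv (A B : SpecialLinearGroup (Fin 2) (ZMod m)) :
    (B : Matrix (Fin 2) (Fin 2) (ZMod m)) *
    (((A * B)⁻¹ : SpecialLinearGroup (Fin 2) (ZMod m)) : Matrix (Fin 2) (Fin 2) (ZMod m)) =
    ((A⁻¹ : SpecialLinearGroup (Fin 2) (ZMod m)) : Matrix (Fin 2) (Fin 2) (ZMod m)) :=
  congrArg (fun B : SpecialLinearGroup (Fin 2) (ZMod m) =>
    (B : Matrix (Fin 2) (Fin 2) (ZMod m))) (show B * (A * B)⁻¹ = A⁻¹ by group)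

/-- Right multiplication of row vectors. -/
def vecMulEquiv (A : SpecialLinearGroup (Fin 2) (ZMod m)) :
    (Fin 2 → ZMod m) ≃ (Fin 2 → ZMod m) where
  toFun η := η ᵥ* ((A⁻¹ : SpecialLinearGroup (Fin 2) (ZMod m)) : Matrix (Fin 2) (Fin 2) (ZMod m))
  invFun ξ := ξ ᵥ* (A : Matrix (Fin 2) (Fin 2) (ZMod m))
  left_inv η := by
    show (η ᵥ* ((A⁻¹ : SpecialLinearGroup (Fin 2) (ZMod m)) : Matrix (Fin 2) (Fin 2) (ZMod m)))
      ᵥ* (A : Matrix (Fin 2) (Fin 2) (ZMod m)) = η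
    rw [Matrix.vecMul_vecMul, coe_inv_mul, Matrix.vecMul_one]
  right_inv ξ := by
    show (ξ ᵥ* (A : Matrix (Fin 2) (Fin 2) (ZMod m))) ᵥ*
      ((A⁻¹ : SpecialLinearGroup (Fin 2) (ZMod m)) : Matrix (Fin 2) (Fin 2) (ZMod m)) = ξ
    rw [Matrix.vecMul_vecMul, coe_mul_inv, Matrix.vecMul_one]

omit [NeZero m] in
theorem vecMul_dot (A : SpecialLinearGroup (Fin 2) (ZMod m)) (η : Fin 2 → ZMod m) (i : Fin 2) :
    (vecMulEquiv A η) ⬝ᵥ ((A : Matrix (Fin 2) (Fin 2) (ZMod m)) *ᵥ (Pi.single i 1)) = η i := by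
  rw [Matrix.dotProduct_mulVec]
  have : (vecMulEquiv A η) ᵥ* (A : Matrix (Fin 2) (Fin 2) (ZMod m)) = η := (vecMulEquiv A).left_inv η
  rw [this]
  simp

/-- Minkowski's inequality in the form used below. -/
theorem minkowski {S : Type*} [Fintype S] (u v : S → ℂ) :
    (Real.sqrt (∑ A, ‖u A‖ ^ 2) - Real.sqrt (∑ A, ‖v A‖ ^ 2)) ^ 2 ≤ ∑ A, ‖u A - v A‖ ^ 2 := by
  have h := abs_norm_sub_norm_le (WithLp.toLp 2 u : EuclideanSpace ℂ S) (WithLp.toLp 2 v)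
  rw [EuclideanSpace.norm_eq, EuclideanSpace.norm_eq, EuclideanSpace.norm_eq] at h
  have h2 : 0 ≤ ∑ A, ‖u A - v A‖ ^ 2 := Finset.sum_nonneg (fun _ _ => by positivity)
  have h3 := sq_le_sq' (by
    have := neg_abs_le (Real.sqrt (∑ A, ‖u A‖ ^ 2) - Real.sqrt (∑ A, ‖v A‖ ^ 2))
    exact le_trans (neg_le_neg h) this) (le_trans (le_abs_self _) h)
  refine le_trans h3 ?_
  have e : Real.sqrt (∑ A, ‖(WithLp.toLp 2 u - WithLp.toLp 2 v : EuclideanSpace ℂ S) A‖ ^ 2) ^ 2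
      = ∑ A, ‖u A - v A‖ ^ 2 := Real.sq_sqrt h2
  rw [e]

/-- **Relative spectral gap.** -/
theorem gap (ψ : (Fin 2 → ZMod m) → SpecialLinearGroup (Fin 2) (ZMod m) → ℝ)
    (h0 : ∀ A, ∑ w, ψ w A = 0) :
    ∑ A, ∑ w, ψ w A ^ 2 ≤ 200 * (∑ A, ∑ w, (ψ w A - ψ (w + (A : Matrix (Fin 2) (Fin 2) (ZMod m)) *ᵥ Pi.single 0 1) A) ^ 2
      + ∑ A, ∑ w, (ψ w A - ψ (w + (A : Matrix (Fin 2) (Fin 2) (ZMod m)) *ᵥ Pi.single 1 1) A) ^ 2
      + ∑ A, ∑ w, (ψ w A - ψ w (A * E12 m)) ^ 2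
      + ∑ A, ∑ w, (ψ w A - ψ w (A * E21 m)) ^ 2) := by
  classical
  have hm : (0 : ℝ) < (m : ℝ) ^ 2 := by
    have : 0 < m := Nat.pos_of_ne_zero (NeZero.ne m)
    positivity
  set H : (Fin 2 → ZMod m) → SpecialLinearGroup (Fin 2) (ZMod m) → ℂ :=
    fun ξ A => hat (fun w => ψ w A) ξ with hH
  set G : (Fin 2 → ZMod m) → ℝ := fun η => Real.sqrt (∑ A, ‖H (vecMulEquiv A η) A‖ ^ 2) with hG
  have hGsq : ∀ η, G η ^ 2 = ∑ A, ‖H (vecMulEquiv A η) A‖ ^ 2 := by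
    intro η
    rw [hG]
    exact Real.sq_sqrt (Finset.sum_nonneg (fun _ _ => by positivity))
  let P : ZMod m × ZMod m ≃ (Fin 2 → ZMod m) := (finTwoArrowEquiv (ZMod m)).symm
  have hP0 : ∀ p : ZMod m × ZMod m, P p 0 = p.1 := fun p => rfl
  have hP1 : ∀ p : ZMod m × ZMod m, P p 1 = p.2 := fun p => rfl
  -- total mass
  have G1 : ∑ p, G (P p) ^ 2 = (m : ℝ) ^ 2 * ∑ A, ∑ w, ψ w A ^ 2 := by
    rw [Equiv.sum_comp P (fun η => G η ^ 2)]
    simp_rw [hGsq]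
    rw [Finset.sum_comm, Finset.mul_sum]
    apply Finset.sum_congr rfl
    intro A _
    rw [Equiv.sum_comp (vecMulEquiv A) (fun ξ => ‖H ξ A‖ ^ 2), hH]
    exact parseval (fun w => ψ w A)
  -- translations
  have G2 : ∀ i : Fin 2, (m : ℝ) ^ 2 * ∑ A : SpecialLinearGroup (Fin 2) (ZMod m), ∑ w,
      (ψ w A - ψ (w + (A : Matrix (Fin 2) (Fin 2) (ZMod m)) *ᵥ Pi.single i 1) A) ^ 2 = ∑ η, pot (η i) * G η ^ 2 := by
    intro i
    simp_rw [hGsq, Finset.mul_sum]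
    rw [Finset.sum_comm (s := Finset.univ (α := Fin 2 → ZMod m))]
    apply Finset.sum_congr rfl
    intro A _
    rw [← Finset.mul_sum, ← parseval (fun w => ψ w A - ψ (w + (A : Matrix (Fin 2) (Fin 2) (ZMod m)) *ᵥ Pi.single i 1) A)]
    rw [← Equiv.sum_comp (vecMulEquiv A)]
    apply Finset.sum_congr rfl
    intro η _
    rw [hat_sub (fun w => ψ w A) (fun w => ψ (w + (A : Matrix (Fin 2) (Fin 2) (ZMod m)) *ᵥ Pi.single i 1) A),
      hat_translate (fun w => ψ w A), vecMul_dot]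
    have : hat (fun w => ψ w A) (vecMulEquiv A η) - ZMod.stdAddChar (-(η i)) *
        hat (fun w => ψ w A) (vecMulEquiv A η) = (1 - ZMod.stdAddChar (-(η i))) *
        H (vecMulEquiv A η) A := by
      rw [hH]; ring
    rw [this, norm_mul, mul_pow]
    rfl
  -- linear moves
  have G3 : ∀ B : SpecialLinearGroup (Fin 2) (ZMod m),
      ∑ η, (G η - G (η ᵥ* (B : Matrix (Fin 2) (Fin 2) (ZMod m)))) ^ 2 ≤ (m : ℝ) ^ 2 * ∑ A, ∑ w, (ψ w A - ψ w (A * B)) ^ 2 := by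
    intro B
    have e1 : ∀ A, (m : ℝ) ^ 2 * ∑ w, (ψ w A - ψ w (A * B)) ^ 2
        = ∑ η, ‖H (vecMulEquiv A η) A - H (vecMulEquiv A η) (A * B)‖ ^ 2 := by
      intro A
      rw [← parseval (fun w => ψ w A - ψ w (A * B)), ← Equiv.sum_comp (vecMulEquiv A)]
      apply Finset.sum_congr rfl
      intro η _
      rw [hat_sub (fun w => ψ w A) (fun w => ψ w (A * B))]
    rw [Finset.mul_sum]
    simp_rw [e1]
    rw [Finset.sum_comm]
    apply Finset.sum_le_sum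
    intro η _
    have e2 : G (η ᵥ* (B : Matrix (Fin 2) (Fin 2) (ZMod m))) = Real.sqrt (∑ A, ‖H (vecMulEquiv A η) (A * B)‖ ^ 2) := by
      rw [hG]
      simp only
      congr 1
      rw [← Equiv.sum_comp (Equiv.mulRight B)]
      apply Finset.sum_congr rfl
      intro A _
      have : vecMulEquiv ((Equiv.mulRight B) A) (η ᵥ* (B : Matrix (Fin 2) (Fin 2) (ZMod m))) = vecMulEquiv A η := by
        show (η ᵥ* (B : Matrix (Fin 2) (Fin 2) (ZMod m))) ᵥ*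
          (((A * B)⁻¹ : SpecialLinearGroup (Fin 2) (ZMod m)) : Matrix (Fin 2) (Fin 2) (ZMod m))
          = η ᵥ* ((A⁻¹ : SpecialLinearGroup (Fin 2) (ZMod m)) : Matrix (Fin 2) (Fin 2) (ZMod m))
        rw [Matrix.vecMul_vecMul, coe_mul_mul_inv]
      rw [this]
      rfl
    rw [e2]
    exact minkowski _ _
  have hg0 : G (P 0) = 0 := by
    have : ∀ A, H (vecMulEquiv A (P 0)) A = 0 := by
      intro A
      have e : vecMulEquiv A (P 0) = 0 := by
        have : (P 0 : Fin 2 → ZMod m) = 0 := by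
          ext i; fin_cases i <;> rfl
        rw [this]
        simp [vecMulEquiv]
      rw [e, hH]
      simp only [hat, zero_dotProduct, AddChar.map_zero_eq_one, mul_one]
      have := h0 A
      exact_mod_cast this
    rw [hG]
    simp only
    simp [this]
  have key := GabberGalil.main (m := m) pot pot_nonneg two_le_pot (fun p => G (P p)) hg0
  rw [G1] at key
  have k1 : ∑ η : ZMod m × ZMod m, (pot η.1 + pot η.2) * G (P η) ^ 2
      = (m : ℝ) ^ 2 * ∑ A : SpecialLinearGroup (Fin 2) (ZMod m), ∑ w,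
      (ψ w A - ψ (w + (A : Matrix (Fin 2) (Fin 2) (ZMod m)) *ᵥ Pi.single 0 1) A) ^ 2 + (m : ℝ) ^ 2 *
      ∑ A : SpecialLinearGroup (Fin 2) (ZMod m), ∑ w,
      (ψ w A - ψ (w + (A : Matrix (Fin 2) (Fin 2) (ZMod m)) *ᵥ Pi.single 1 1) A) ^ 2 := by
    rw [G2 0, G2 1, ← Equiv.sum_comp P, ← Equiv.sum_comp P, ← Finset.sum_add_distrib]
    apply Finset.sum_congr rfl
    intro p _
    rw [hP0, hP1]; ring
  have k2 : ∑ η : ZMod m × ZMod m, (G (P η) - G (P (GabberGalil.beta m η))) ^ 2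
      ≤ (m : ℝ) ^ 2 * ∑ A, ∑ w, (ψ w A - ψ w (A * E12 m)) ^ 2 := by
    refine le_trans (le_of_eq ?_) (G3 (E12 m))
    rw [← Equiv.sum_comp P]
    apply Finset.sum_congr rfl
    intro p _
    have : P (GabberGalil.beta m p) = P p ᵥ* (E12 m : Matrix (Fin 2) (Fin 2) (ZMod m)) := by
      ext i
      fin_cases i
      · simp [E12, Matrix.vecMul, dotProduct, Fin.sum_univ_two, hP0, hP1, GabberGalil.beta]
      · simp [E12, Matrix.vecMul, dotProduct, Fin.sum_univ_two, hP0, hP1, GabberGalil.beta]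
    rw [this]
  have k3 : ∑ η : ZMod m × ZMod m, (G (P η) - G (P (GabberGalil.alpha m η))) ^ 2
      ≤ (m : ℝ) ^ 2 * ∑ A, ∑ w, (ψ w A - ψ w (A * E21 m)) ^ 2 := by
    refine le_trans (le_of_eq ?_) (G3 (E21 m))
    rw [← Equiv.sum_comp P]
    apply Finset.sum_congr rfl
    intro p _
    have : P (GabberGalil.alpha m p) = P p ᵥ* (E21 m : Matrix (Fin 2) (Fin 2) (ZMod m)) := by
      ext i
      fin_cases i
      · simp [E21, Matrix.vecMul, dotProduct, Fin.sum_univ_two, hP0, hP1, GabberGalil.alpha]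
      · simp [E21, Matrix.vecMul, dotProduct, Fin.sum_univ_two, hP0, hP1, GabberGalil.alpha]
    rw [this]
  rw [k1] at key
  have : (m : ℝ) ^ 2 * ∑ A, ∑ w, ψ w A ^ 2 ≤ (m : ℝ) ^ 2 *
      (200 * (∑ A, ∑ w, (ψ w A - ψ (w + (A : Matrix (Fin 2) (Fin 2) (ZMod m)) *ᵥ Pi.single 0 1) A) ^ 2
      + ∑ A, ∑ w, (ψ w A - ψ (w + (A : Matrix (Fin 2) (Fin 2) (ZMod m)) *ᵥ Pi.single 1 1) A) ^ 2
      + ∑ A, ∑ w, (ψ w A - ψ w (A * E12 m)) ^ 2
      + ∑ A, ∑ w, (ψ w A - ψ w (A * E21 m)) ^ 2)) := by linarith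
  exact le_of_mul_le_mul_left this hm

end Pool.Agent.Lib.P325f1f.Fourier
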