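import Mathlib
import Pool.Agent.Lib.P325f1f.Fourier

/-!
# Boundedly many constraint types suffice for linear unique games

Every linear unique game over `(ZMod m)^2` is turned into a unique game with the same label set, of
almost the same value, all of whose constraint permutations come from a list of `5 ^ k` affine maps
that depends only on `m` and `k`; the loss in the value is `(1 - 1/10000)^k`, for every `m`.
-/

open Finset Matrix

namespace Pool.Agent.Lib.P325f1f.BoundedTypes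

/-- A bipartite unique game with sides `U`, `W`, label set `Ω` and edges indexed by `ι`: the edge `e`
joins `src e` to `dst e` and carries the constraint permutation `perm e`. -/
structure Game (U W Ω ι : Type) where
  /-- the left end of an edge -/
  src : ι → U
  /-- the right end of an edge -/
  dst : ι → W
  /-- the constraint permutation of an edge -/
  perm : ι → Equiv.Perm Ω

/-- The fraction of edges `e` that the labeling `(x, y)` satisfies: `perm e (x (src e)) = y (dst e)`. -/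
noncomputable def Game.satFrac {U W Ω ι : Type} [Fintype ι] (G : Game U W Ω ι)
    (x : U → Ω) (y : W → Ω) : ℝ := by
  classical
  exact ((Finset.univ.filter (fun e => G.perm e (x (G.src e)) = y (G.dst e))).card : ℝ) /
    (Fintype.card ι : ℝ)

/-- The value of a unique game: the supremum over all labelings of the fraction of satisfied
edges. -/
noncomputable def Game.value {U W Ω ι : Type} [Fintype ι] (G : Game U W Ω ι) : ℝ :=
  ⨆ p : (U → Ω) × (W → Ω), G.satFrac p.1 p.2

/-- The affine map `y ↦ A y + v` of `(ZMod m)^2`, with `A` in `SL_2(ZMod m)`. -/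
structure Aff (m : ℕ) where
  /-- the translation part -/
  v : Fin 2 → ZMod m
  /-- the linear part -/
  A : SpecialLinearGroup (Fin 2) (ZMod m)

namespace Aff

variable {m : ℕ}

theorem ext' {g h : Aff m} (h1 : g.v = h.v) (h2 : g.A = h.A) : g = h := by
  cases g; cases h; simp_all

/-- Composition of affine maps. -/
instance : Mul (Aff m) :=
  ⟨fun g h => ⟨g.v + (g.A : Matrix (Fin 2) (Fin 2) (ZMod m)) *ᵥ h.v, g.A * h.A⟩⟩

/-- The identity map. -/
instance : One (Aff m) := ⟨⟨0, 1⟩⟩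

/-- The inverse map. -/
instance : Inv (Aff m) :=
  ⟨fun g => ⟨-(((g.A⁻¹ : SpecialLinearGroup (Fin 2) (ZMod m)) :
    Matrix (Fin 2) (Fin 2) (ZMod m)) *ᵥ g.v), g.A⁻¹⟩⟩

theorem mul_v (g h : Aff m) :
    (g * h).v = g.v + (g.A : Matrix (Fin 2) (Fin 2) (ZMod m)) *ᵥ h.v := rfl
theorem mul_A (g h : Aff m) : (g * h).A = g.A * h.A := rfl
theorem one_v : (1 : Aff m).v = 0 := rfl
theorem one_A : (1 : Aff m).A = 1 := rfl

theorem coe_mul_mulVec (A B : SpecialLinearGroup (Fin 2) (ZMod m)) (x : Fin 2 → ZMod m) :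
    ((A * B : SpecialLinearGroup (Fin 2) (ZMod m)) : Matrix (Fin 2) (Fin 2) (ZMod m)) *ᵥ x =
    (A : Matrix (Fin 2) (Fin 2) (ZMod m)) *ᵥ ((B : Matrix (Fin 2) (Fin 2) (ZMod m)) *ᵥ x) :=
  (Matrix.mulVec_mulVec x _ _).symm

theorem coe_one_mulVec (x : Fin 2 → ZMod m) :
    ((1 : SpecialLinearGroup (Fin 2) (ZMod m)) : Matrix (Fin 2) (Fin 2) (ZMod m)) *ᵥ x = x :=
  Matrix.one_mulVec x

/-- The group of affine maps with linear part in `SL_2(ZMod m)`, under composition. -/
instance : Group (Aff m) :=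
  Group.ofLeftAxioms
    (by
      intro a b c
      apply ext'
      · rw [mul_v, mul_v, mul_A, mul_v, mul_v, coe_mul_mulVec, Matrix.mulVec_add, add_assoc]
      · exact mul_assoc _ _ _)
    (by
      intro a
      apply ext'
      · rw [mul_v, one_v, one_A, coe_one_mulVec, zero_add]
      · exact one_mul _)
    (by
      intro a
      apply ext'
      · rw [mul_v]; exact neg_add_cancel _
      · exact inv_mul_cancel _)

/-- The action of `Aff m` on `(ZMod m)^2`: `⟨v, A⟩ • y = A y + v`. -/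
instance : MulAction (Aff m) (Fin 2 → ZMod m) where
  smul g y := (g.A : Matrix (Fin 2) (Fin 2) (ZMod m)) *ᵥ y + g.v
  one_smul y := by
    show ((1 : Aff m).A : Matrix (Fin 2) (Fin 2) (ZMod m)) *ᵥ y + (1 : Aff m).v = y
    rw [one_v, one_A, coe_one_mulVec, add_zero]
  mul_smul g h y := by
    show ((g * h).A : Matrix (Fin 2) (Fin 2) (ZMod m)) *ᵥ y + (g * h).v =
      (g.A : Matrix (Fin 2) (Fin 2) (ZMod m)) *ᵥ ((h.A : Matrix (Fin 2) (Fin 2) (ZMod m)) *ᵥ y
        + h.v) + g.v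
    rw [mul_v, mul_A, coe_mul_mulVec, Matrix.mulVec_add]
    abel

theorem smul_def (g : Aff m) (y : Fin 2 → ZMod m) :
    g • y = (g.A : Matrix (Fin 2) (Fin 2) (ZMod m)) *ᵥ y + g.v := rfl

/-- `Aff m` as a set of pairs. -/
def equivProd (m : ℕ) :
    Aff m ≃ (Fin 2 → ZMod m) × SpecialLinearGroup (Fin 2) (ZMod m) where
  toFun g := (g.v, g.A)
  invFun p := ⟨p.1, p.2⟩
  left_inv _ := rfl
  right_inv _ := rfl

instance [NeZero m] : Fintype (Aff m) := Fintype.ofEquiv _ (equivProd m).symm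

/-- The translation by `c`. -/
def tr (c : Fin 2 → ZMod m) : Aff m := ⟨c, 1⟩

/-- The five generators: the identity, the two unit translations and the two elementary linear
maps `(y₀, y₁) ↦ (y₀ + y₁, y₁)` and `(y₀, y₁) ↦ (y₀, y₀ + y₁)`. -/
def gens (m : ℕ) : Fin 5 → Aff m :=
  ![1, tr (Pi.single 0 1), tr (Pi.single 1 1),
    ⟨0, ⟨!![1, 1; 0, 1], by simp [Matrix.det_fin_two]⟩⟩,
    ⟨0, ⟨!![1, 0; 1, 1], by simp [Matrix.det_fin_two]⟩⟩]

/-- The product of the generators spelled by a word of length `k`. -/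
def word (m : ℕ) {k : ℕ} (w : Fin k → Fin 5) : Aff m := (List.ofFn (fun i => gens m (w i))).prod

end Aff

/-- The linear unique game over `(ZMod m)^2` with the constraints `y (dst e) = c e + x (src e)`. -/
def linGame {U W ι : Type} {m : ℕ} (src : ι → U) (dst : ι → W) (c : ι → Fin 2 → ZMod m) :
    Game U W (Fin 2 → ZMod m) ι where
  src := src
  dst := dst
  perm e := Equiv.addLeft (c e)

/-- The frame game: its vertices are pairs (old vertex, affine map); every edge `e` of the linear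
game, affine map `g` and word `w` of length `k` give an edge from `(src e, g)` to
`(dst e, τ g s)`, where `τ` is the translation by `c e` and `s` is the affine map spelled by `w`,
with the constraint permutation `s⁻¹`. -/
def frameGame {U W ι : Type} {m : ℕ} (k : ℕ) (src : ι → U) (dst : ι → W)
    (c : ι → Fin 2 → ZMod m) :
    Game (U × Aff m) (W × Aff m) (Fin 2 → ZMod m) (ι × Aff m × (Fin k → Fin 5)) where
  src e := (src e.1, e.2.1)
  dst e := (dst e.1, Aff.tr (c e.1) * e.2.1 * Aff.word m e.2.2)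
  perm e := MulAction.toPerm (Aff.word m e.2.2)⁻¹

namespace Proof

variable {m : ℕ} [NeZero m]

open Aff

/-- The sum over one generator step. -/
noncomputable def U (ψ : Aff m → ℝ) : Aff m → ℝ := fun g => ∑ j : Fin 5, ψ (g * gens m j)

omit [NeZero m] in
theorem word_cons {k : ℕ} (j : Fin 5) (w : Fin k → Fin 5) :
    word m (Fin.cons j w : Fin (k + 1) → Fin 5) = gens m j * word m w := by
  simp [word, List.ofFn_succ]

omit [NeZero m] in
theorem sum_word (k : ℕ) (ψ : Aff m → ℝ) (g : Aff m) :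
    ∑ w : Fin k → Fin 5, ψ (g * word m w) = (U^[k] ψ) g := by
  induction k generalizing ψ g with
  | zero => simp [word]
  | succ k ih =>
    rw [Function.iterate_succ', Function.comp]
    show _ = ∑ j : Fin 5, (U^[k] ψ) (g * gens m j)
    simp_rw [← ih]
    rw [← Fintype.sum_equiv (Fin.consEquiv (fun _ : Fin (k + 1) => Fin 5))
      (fun p : Fin 5 × (Fin k → Fin 5) => ψ (g * gens m p.1 * word m p.2)) _ (by
        intro p
        show _ = ψ (g * word m (Fin.cons p.1 p.2 : Fin (k + 1) → Fin 5))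
        rw [word_cons, mul_assoc])]
    rw [Fintype.sum_prod_type]

theorem sum_aff (F : Aff m → ℝ) :
    ∑ g : Aff m, F g = ∑ A : SpecialLinearGroup (Fin 2) (ZMod m), ∑ v : Fin 2 → ZMod m,
      F ⟨v, A⟩ := by
  rw [Fintype.sum_equiv (equivProd m) F (fun p => F ⟨p.1, p.2⟩) (fun g => rfl),
    Fintype.sum_prod_type, Finset.sum_comm]

theorem sum_mul_right (F : Aff m → ℝ) (h : Aff m) : ∑ g, F (g * h) = ∑ g, F g :=
  Fintype.sum_equiv (Equiv.mulRight h) _ _ (fun _ => rfl)

theorem sum_mul_left (F : Aff m → ℝ) (h : Aff m) : ∑ g, F (h * g) = ∑ g, F g :=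
  Fintype.sum_equiv (Equiv.mulLeft h) _ _ (fun _ => rfl)

/-- Vanishing average over translations. -/
def ZeroAvg (ψ : Aff m → ℝ) : Prop := ∀ A, ∑ v, ψ ⟨v, A⟩ = 0

theorem ZeroAvg.right {ψ : Aff m → ℝ} (h : ZeroAvg ψ) (s : Aff m) :
    ZeroAvg (fun g => ψ (g * s)) := by
  intro A
  have : ∑ v : Fin 2 → ZMod m, ψ ((⟨v, A⟩ : Aff m) * s) = ∑ v, ψ ⟨v, A * s.A⟩ :=
    Fintype.sum_equiv (Equiv.addRight ((A : Matrix (Fin 2) (Fin 2) (ZMod m)) *ᵥ s.v)) _ _
      (fun v => rfl)
  rw [this]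
  exact h _

theorem ZeroAvg.U {ψ : Aff m → ℝ} (h : ZeroAvg ψ) : ZeroAvg (U ψ) := by
  intro A
  unfold Proof.U
  rw [Finset.sum_comm]
  exact Finset.sum_eq_zero (fun j _ => (h.right (gens m j)) A)

theorem gap {ψ : Aff m → ℝ} (h : ZeroAvg ψ) :
    ∑ g, ψ g ^ 2 ≤ 200 * ∑ j : Fin 5, ∑ g, (ψ g - ψ (g * gens m j)) ^ 2 := by
  have key := Pool.Agent.Lib.P325f1f.Fourier.gap (fun w A => ψ ⟨w, A⟩) h
  rw [sum_aff]
  refine le_trans key ?_
  apply mul_le_mul_of_nonneg_left _ (by norm_num)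
  rw [Fin.sum_univ_five]
  have h0 : 0 ≤ ∑ g, (ψ g - ψ (g * gens m 0)) ^ 2 := Finset.sum_nonneg (fun _ _ => sq_nonneg _)
  have e : ∀ (s : Aff m) (v : Fin 2 → ZMod m) (A : SpecialLinearGroup (Fin 2) (ZMod m)),
      (⟨v, A⟩ : Aff m) * s = ⟨v + (A : Matrix (Fin 2) (Fin 2) (ZMod m)) *ᵥ s.v, A * s.A⟩ :=
    fun _ _ _ => rfl
  have h1 : ∑ g, (ψ g - ψ (g * gens m 1)) ^ 2 = ∑ A : SpecialLinearGroup (Fin 2) (ZMod m),
      ∑ w, (ψ ⟨w, A⟩ - ψ ⟨w + (A : Matrix (Fin 2) (Fin 2) (ZMod m)) *ᵥ Pi.single 0 1, A⟩) ^ 2 := by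
    rw [sum_aff]
    apply Finset.sum_congr rfl; intro A _
    apply Finset.sum_congr rfl; intro v _
    rw [e]
    have : A * (gens m 1).A = A := mul_one A
    rw [this]; rfl
  have h2 : ∑ g, (ψ g - ψ (g * gens m 2)) ^ 2 = ∑ A : SpecialLinearGroup (Fin 2) (ZMod m),
      ∑ w, (ψ ⟨w, A⟩ - ψ ⟨w + (A : Matrix (Fin 2) (Fin 2) (ZMod m)) *ᵥ Pi.single 1 1, A⟩) ^ 2 := by
    rw [sum_aff]
    apply Finset.sum_congr rfl; intro A _
    apply Finset.sum_congr rfl; intro v _
    rw [e]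
    have : A * (gens m 2).A = A := mul_one A
    rw [this]; rfl
  have h3 : ∑ g, (ψ g - ψ (g * gens m 3)) ^ 2 = ∑ A : SpecialLinearGroup (Fin 2) (ZMod m),
      ∑ w, (ψ ⟨w, A⟩ - ψ ⟨w, A * Pool.Agent.Lib.P325f1f.Fourier.E12 m⟩) ^ 2 := by
    rw [sum_aff]
    apply Finset.sum_congr rfl; intro A _
    apply Finset.sum_congr rfl; intro v _
    rw [e]
    have : v + (A : Matrix (Fin 2) (Fin 2) (ZMod m)) *ᵥ (gens m 3).v = v := by
      have : (gens m 3).v = 0 := rfl
      rw [this, Matrix.mulVec_zero, add_zero]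
    rw [this]; rfl
  have h4 : ∑ g, (ψ g - ψ (g * gens m 4)) ^ 2 = ∑ A : SpecialLinearGroup (Fin 2) (ZMod m),
      ∑ w, (ψ ⟨w, A⟩ - ψ ⟨w, A * Pool.Agent.Lib.P325f1f.Fourier.E21 m⟩) ^ 2 := by
    rw [sum_aff]
    apply Finset.sum_congr rfl; intro A _
    apply Finset.sum_congr rfl; intro v _
    rw [e]
    have : v + (A : Matrix (Fin 2) (Fin 2) (ZMod m)) *ᵥ (gens m 4).v = v := by
      have : (gens m 4).v = 0 := rfl
      rw [this, Matrix.mulVec_zero, add_zero]
    rw [this]; rfl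
  rw [h1, h2, h3, h4]
  linarith

/-- One step contracts functions with vanishing translation averages. -/
theorem contract {ψ : Aff m → ℝ} (h : ZeroAvg ψ) :
    ∑ g, (U ψ g) ^ 2 ≤ (25 * (1 - 1 / 5000)) * ∑ g, ψ g ^ 2 := by
  have hpt : ∀ a : Fin 5 → ℝ, (∑ j, a j) ^ 2 ≤ 5 * ∑ j, a j ^ 2 - ∑ j, (a 0 - a j) ^ 2 := by
    intro a
    simp only [Fin.sum_univ_five]
    nlinarith [sq_nonneg (a 1 - a 2), sq_nonneg (a 1 - a 3), sq_nonneg (a 1 - a 4),
      sq_nonneg (a 2 - a 3), sq_nonneg (a 2 - a 4), sq_nonneg (a 3 - a 4)]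
  have h1 : ∀ g, (U ψ g) ^ 2 ≤ 5 * ∑ j : Fin 5, ψ (g * gens m j) ^ 2
      - ∑ j : Fin 5, (ψ g - ψ (g * gens m j)) ^ 2 := by
    intro g
    have := hpt (fun j => ψ (g * gens m j))
    have e : g * gens m 0 = g := mul_one g
    simp only [e] at this
    exact this
  have h2 := Finset.sum_le_sum (fun g (_ : g ∈ (Finset.univ : Finset (Aff m))) => h1 g)
  rw [Finset.sum_sub_distrib, ← Finset.mul_sum, Finset.sum_comm, Finset.sum_comm (f := fun g j =>
    (ψ g - ψ (g * gens m j)) ^ 2)] at h2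
  have h3 : ∑ j : Fin 5, ∑ g, ψ (g * gens m j) ^ 2 = 5 * ∑ g, ψ g ^ 2 := by
    rw [Finset.sum_congr rfl (fun j _ => sum_mul_right (fun g => ψ g ^ 2) (gens m j))]
    simp
  rw [h3] at h2
  have h4 := gap h
  linarith

theorem contract_iter (k : ℕ) {ψ : Aff m → ℝ} (h : ZeroAvg ψ) :
    ∑ g, ((U^[k] ψ) g) ^ 2 ≤ (25 * (1 - 1 / 5000)) ^ k * ∑ g, ψ g ^ 2 := by
  induction k generalizing ψ with
  | zero => simp
  | succ k ih =>
    rw [Function.iterate_succ, Function.comp]
    refine le_trans (ih h.U) ?_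
    rw [pow_succ, mul_assoc]
    exact mul_le_mul_of_nonneg_left (contract h) (by norm_num)

/-- The number of translations. -/
theorem card_vec : (Fintype.card (Fin 2 → ZMod m) : ℝ) = (m : ℝ) ^ 2 := by
  simp [ZMod.card]

theorem card_pos' : (0 : ℝ) < (m : ℝ) ^ 2 := by
  have : 0 < m := Nat.pos_of_ne_zero (NeZero.ne m)
  positivity

/-- The average over translations. -/
noncomputable def J (ψ : Aff m → ℝ) : Aff m → ℝ :=
  fun g => ((m : ℝ) ^ 2)⁻¹ * ∑ z : Fin 2 → ZMod m, ψ (tr z * g)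

theorem J_eq (ψ : Aff m → ℝ) (v : Fin 2 → ZMod m) (A : SpecialLinearGroup (Fin 2) (ZMod m)) :
    J ψ ⟨v, A⟩ = ((m : ℝ) ^ 2)⁻¹ * ∑ z : Fin 2 → ZMod m, ψ ⟨z, A⟩ := by
  unfold J
  congr 1
  refine Fintype.sum_equiv (Equiv.addRight v) _ _ (fun z => ?_)
  congr 1
  apply ext'
  · show z + ((1 : SpecialLinearGroup (Fin 2) (ZMod m)) : Matrix (Fin 2) (Fin 2) (ZMod m)) *ᵥ v
      = z + v
    rw [coe_one_mulVec]
  · exact one_mul A

theorem zeroAvg_sub_J (ψ : Aff m → ℝ) : ZeroAvg (fun g => ψ g - J ψ g) := by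
  intro A
  simp_rw [J_eq]
  rw [Finset.sum_sub_distrib, Finset.sum_const, nsmul_eq_mul, Finset.card_univ, card_vec,
    mul_inv_cancel_left₀ (card_pos' (m := m)).ne', sub_self]

theorem norm_sub_J (ψ : Aff m → ℝ) : ∑ g, (ψ g - J ψ g) ^ 2 ≤ ∑ g, ψ g ^ 2 := by
  rw [sum_aff, sum_aff]
  apply Finset.sum_le_sum
  intro A _
  simp_rw [J_eq]
  set a := ((m : ℝ) ^ 2)⁻¹ * ∑ z : Fin 2 → ZMod m, ψ ⟨z, A⟩ with ha
  have hS : ∑ z : Fin 2 → ZMod m, ψ ⟨z, A⟩ = (m : ℝ) ^ 2 * a := by
    rw [ha, mul_inv_cancel_left₀ (card_pos' (m := m)).ne']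
  have : ∑ v : Fin 2 → ZMod m, (ψ ⟨v, A⟩ - a) ^ 2 = ∑ v : Fin 2 → ZMod m, ψ ⟨v, A⟩ ^ 2
      - (m : ℝ) ^ 2 * a ^ 2 := by
    have e : ∀ v : Fin 2 → ZMod m, (ψ ⟨v, A⟩ - a) ^ 2 = ψ ⟨v, A⟩ ^ 2 - 2 * a * ψ ⟨v, A⟩ + a ^ 2 :=
      fun v => by ring
    simp_rw [e]
    rw [Finset.sum_add_distrib, Finset.sum_sub_distrib, ← Finset.mul_sum, hS, Finset.sum_const,
      nsmul_eq_mul, Finset.card_univ, card_vec]
    ring
  rw [this]
  have : 0 ≤ (m : ℝ) ^ 2 * a ^ 2 := by positivity
  linarith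

/-- The bilinear estimate. -/
theorem bilinear (k : ℕ) (φ ψ : Aff m → ℝ) :
    ∑ g, ∑ w : Fin k → Fin 5, φ g * ψ (g * word m w) ≤
      ∑ g, ∑ w : Fin k → Fin 5, φ g * J ψ (g * word m w)
      + (5 * (1 - 1 / 10000)) ^ k * ((∑ g, φ g ^ 2 + ∑ g, ψ g ^ 2) / 2) := by
  set ψ0 : Aff m → ℝ := fun g => ψ g - J ψ g with hψ0
  have h1 : ∑ g, ∑ w : Fin k → Fin 5, φ g * ψ (g * word m w)
      - ∑ g, ∑ w : Fin k → Fin 5, φ g * J ψ (g * word m w)
      = ∑ g, φ g * (U^[k] ψ0) g := by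
    rw [← Finset.sum_sub_distrib]
    apply Finset.sum_congr rfl
    intro g _
    rw [← sum_word, Finset.mul_sum, ← Finset.sum_sub_distrib]
    apply Finset.sum_congr rfl
    intro w _
    rw [hψ0]; ring
  set q : ℝ := (5 * (1 - 1 / 10000)) ^ k with hq
  have hqpos : 0 < q := by rw [hq]; positivity
  have h2 := contract_iter k (zeroAvg_sub_J ψ)
  have h3 : (25 * (1 - 1 / 5000) : ℝ) ^ k ≤ q ^ 2 := by
    rw [hq, ← pow_mul, mul_comm k 2, pow_mul]
    exact pow_le_pow_left₀ (by norm_num) (by norm_num) k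
  have h4 : ∑ g, ((U^[k] ψ0) g) ^ 2 ≤ q ^ 2 * ∑ g, ψ g ^ 2 := by
    refine le_trans h2 ?_
    apply mul_le_mul h3 (norm_sub_J ψ) (Finset.sum_nonneg (fun _ _ => sq_nonneg _)) (sq_nonneg _)
  have h5 : ∀ g, φ g * (U^[k] ψ0) g ≤ (q * φ g ^ 2 + q⁻¹ * ((U^[k] ψ0) g) ^ 2) / 2 := by
    intro g
    have : 0 ≤ q⁻¹ * (q * φ g - (U^[k] ψ0) g) ^ 2 := by positivity
    have e : q⁻¹ * (q * φ g - (U^[k] ψ0) g) ^ 2 = q * φ g ^ 2 - 2 * (φ g * (U^[k] ψ0) g)
        + q⁻¹ * ((U^[k] ψ0) g) ^ 2 := by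
      field_simp
      ring
    linarith
  have h6 : ∑ g, φ g * (U^[k] ψ0) g ≤ q * ((∑ g, φ g ^ 2 + ∑ g, ψ g ^ 2) / 2) := by
    calc ∑ g, φ g * (U^[k] ψ0) g ≤ ∑ g, (q * φ g ^ 2 + q⁻¹ * ((U^[k] ψ0) g) ^ 2) / 2 :=
          Finset.sum_le_sum (fun g _ => h5 g)
      _ = (q * ∑ g, φ g ^ 2 + q⁻¹ * ∑ g, ((U^[k] ψ0) g) ^ 2) / 2 := by
          rw [← Finset.sum_div, Finset.sum_add_distrib, ← Finset.mul_sum, ← Finset.mul_sum]
      _ ≤ (q * ∑ g, φ g ^ 2 + q⁻¹ * (q ^ 2 * ∑ g, ψ g ^ 2)) / 2 := by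
          have := mul_le_mul_of_nonneg_left h4 (inv_nonneg.2 hqpos.le)
          linarith
      _ = q * ((∑ g, φ g ^ 2 + ∑ g, ψ g ^ 2) / 2) := by
          have : q⁻¹ * (q ^ 2 * ∑ g, ψ g ^ 2) = q * ∑ g, ψ g ^ 2 := by
            field_simp
          rw [this]; ring
  linarith

omit [NeZero m] in
theorem tr_smul (z x : Fin 2 → ZMod m) : tr z • x = z + x := by
  show ((1 : SpecialLinearGroup (Fin 2) (ZMod m)) : Matrix (Fin 2) (Fin 2) (ZMod m)) *ᵥ x + z = _
  rw [coe_one_mulVec, add_comm]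

omit [NeZero m] in
theorem tr_mul_tr (y z : Fin 2 → ZMod m) : tr y * tr z = tr (y + z) := by
  apply ext'
  · show y + ((1 : SpecialLinearGroup (Fin 2) (ZMod m)) : Matrix (Fin 2) (Fin 2) (ZMod m)) *ᵥ z
      = y + z
    rw [coe_one_mulVec]
  · exact mul_one 1

/-- The soundness estimate for one edge. -/
theorem one_edge (k : ℕ) (c : Fin 2 → ZMod m) (f h : Aff m → Fin 2 → ZMod m) :
    ∑ g, ∑ w : Fin k → Fin 5, (if h (tr c * g * word m w) = c + f g then (1 : ℝ) else 0) ≤
      ((m : ℝ) ^ 2)⁻¹ * ∑ g, ∑ w : Fin k → Fin 5, ∑ z : Fin 2 → ZMod m,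
        (if h (tr z * g * word m w) = c + f g then (1 : ℝ) else 0)
      + (5 * (1 - 1 / 10000)) ^ k * (Fintype.card (Aff m) : ℝ) := by
  classical
  let φ : (Fin 2 → ZMod m) → Aff m → ℝ := fun ω g => if f g = ω then 1 else 0
  let ψ : (Fin 2 → ZMod m) → Aff m → ℝ := fun ω g => if h (tr c * g) = c + ω then 1 else 0
  have hdecomp : ∀ (g g' : Aff m), (if h (tr c * g') = c + f g then (1 : ℝ) else 0)
      = ∑ ω, φ ω g * ψ ω g' := by
    intro g g'
    simp only [φ, ψ]
    rw [Finset.sum_eq_single (f g)]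
    · simp
    · intro ω _ hω
      rw [if_neg (Ne.symm hω), zero_mul]
    · intro hcon; exact absurd (Finset.mem_univ _) hcon
  have hJ : ∀ (g g' : Aff m), ∑ ω, φ ω g * J (ψ ω) g' = ((m : ℝ) ^ 2)⁻¹ *
      ∑ z : Fin 2 → ZMod m, (if h (tr z * g') = c + f g then (1 : ℝ) else 0) := by
    intro g g'
    rw [Finset.sum_eq_single (f g)]
    · simp only [φ, ψ, J, if_true, one_mul]
      congr 1
      refine Fintype.sum_equiv (Equiv.addLeft c) _ _ (fun z => ?_)
      have : tr c * (tr z * g') = tr (c + z) * g' := by rw [← mul_assoc, tr_mul_tr]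
      rw [this]
      rfl
    · intro ω _ hω
      simp only [φ]
      rw [if_neg (Ne.symm hω), zero_mul]
    · intro hcon; exact absurd (Finset.mem_univ _) hcon
  have hφsum : ∑ ω, ∑ g, φ ω g ^ 2 = (Fintype.card (Aff m) : ℝ) := by
    rw [Finset.sum_comm]
    have : ∀ g, ∑ ω, φ ω g ^ 2 = 1 := by
      intro g
      rw [Finset.sum_eq_single (f g)]
      · simp [φ]
      · intro ω _ hω
        simp [φ, Ne.symm hω]
      · intro hcon; exact absurd (Finset.mem_univ _) hcon
    simp_rw [this]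
    simp
  have hψsum : ∑ ω, ∑ g, ψ ω g ^ 2 = (Fintype.card (Aff m) : ℝ) := by
    rw [Finset.sum_comm]
    have : ∀ g, ∑ ω, ψ ω g ^ 2 = 1 := by
      intro g
      rw [Finset.sum_eq_single (h (tr c * g) - c)]
      · simp [ψ]
      · intro ω _ hω
        have : h (tr c * g) ≠ c + ω := by
          intro hh; apply hω; rw [hh]; simp
        simp [ψ, this]
      · intro hcon; exact absurd (Finset.mem_univ _) hcon
    simp_rw [this]
    simp
  have key := Finset.sum_le_sum (fun ω (_ : ω ∈ (Finset.univ : Finset (Fin 2 → ZMod m))) =>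
    bilinear k (φ ω) (ψ ω))
  have e1 : ∑ ω, ∑ g, ∑ w : Fin k → Fin 5, φ ω g * ψ ω (g * word m w)
      = ∑ g, ∑ w : Fin k → Fin 5, (if h (tr c * g * word m w) = c + f g then (1 : ℝ) else 0) := by
    rw [Finset.sum_comm]
    apply Finset.sum_congr rfl; intro g _
    rw [Finset.sum_comm]
    apply Finset.sum_congr rfl; intro w _
    rw [← hdecomp g (g * word m w), mul_assoc]
  have e2 : ∑ ω, ∑ g, ∑ w : Fin k → Fin 5, φ ω g * J (ψ ω) (g * word m w)
      = ((m : ℝ) ^ 2)⁻¹ * ∑ g, ∑ w : Fin k → Fin 5, ∑ z : Fin 2 → ZMod m,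
        (if h (tr z * g * word m w) = c + f g then (1 : ℝ) else 0) := by
    rw [Finset.sum_comm, Finset.mul_sum]
    apply Finset.sum_congr rfl; intro g _
    rw [Finset.sum_comm, Finset.mul_sum]
    apply Finset.sum_congr rfl; intro w _
    rw [hJ g (g * word m w)]
    simp_rw [mul_assoc]
  have e3 : ∑ ω, (5 * (1 - 1 / 10000) : ℝ) ^ k * ((∑ g, φ ω g ^ 2 + ∑ g, ψ ω g ^ 2) / 2)
      = (5 * (1 - 1 / 10000)) ^ k * (Fintype.card (Aff m) : ℝ) := by
    rw [← Finset.mul_sum, ← Finset.sum_div, Finset.sum_add_distrib, hφsum, hψsum]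
    ring
  rw [Finset.sum_add_distrib, e1, e2, e3] at key
  exact key

end Proof

open Aff Proof

theorem satFrac_eq {U W Ω ι : Type} [Fintype ι] [DecidableEq Ω] (G : Game U W Ω ι) (x : U → Ω)
    (y : W → Ω) : G.satFrac x y =
      ((Finset.univ.filter (fun e => G.perm e (x (G.src e)) = y (G.dst e))).card : ℝ) /
    (Fintype.card ι : ℝ) := by
  unfold Game.satFrac
  congr!

theorem satFrac_le_one {U W Ω ι : Type} [Fintype ι] (G : Game U W Ω ι) (x : U → Ω) (y : W → Ω) :
    G.satFrac x y ≤ 1 := by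
  classical
  unfold Game.satFrac
  apply div_le_one_of_le₀ _ (Nat.cast_nonneg _)
  exact_mod_cast Finset.card_le_univ _

theorem satFrac_le_value {U W Ω ι : Type} [Fintype ι] (G : Game U W Ω ι) (x : U → Ω)
    (y : W → Ω) : G.satFrac x y ≤ G.value := by
  unfold Game.value
  refine le_ciSup (f := fun p : (U → Ω) × (W → Ω) => G.satFrac p.1 p.2) ?_ (x, y)
  exact ⟨1, by rintro _ ⟨p, rfl⟩; exact satFrac_le_one G _ _⟩

theorem result {U W ι : Type} [Fintype ι] [Nonempty ι] {m : ℕ} [NeZero m] (k : ℕ)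
    (src : ι → U) (dst : ι → W) (c : ι → Fin 2 → ZMod m) :
    (linGame src dst c).value ≤ (frameGame k src dst c).value ∧
    (frameGame k src dst c).value ≤ (linGame src dst c).value + (1 - 1 / 10000) ^ k ∧
    (Set.range (frameGame k src dst c).perm).ncard ≤ 5 ^ k := by
  classical
  have hι : (0 : ℝ) < (Fintype.card ι : ℝ) := by exact_mod_cast Fintype.card_pos
  have hA : (0 : ℝ) < (Fintype.card (Aff m) : ℝ) := by
    exact_mod_cast Fintype.card_pos_iff.2 ⟨(1 : Aff m)⟩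
  have hcard : (Fintype.card (ι × Aff m × (Fin k → Fin 5)) : ℝ)
      = (Fintype.card ι : ℝ) * ((Fintype.card (Aff m) : ℝ) * 5 ^ k) := by
    simp [Fintype.card_prod]
  refine ⟨?_, ?_, ?_⟩
  · -- completeness
    apply ciSup_le
    rintro ⟨x, y⟩
    refine le_trans (le_of_eq ?_) (satFrac_le_value (frameGame k src dst c)
      (fun p => p.2⁻¹ • x p.1) (fun p => p.2⁻¹ • y p.1))
    show (linGame src dst c).satFrac x y = (frameGame k src dst c).satFrac
      (fun p => p.2⁻¹ • x p.1) (fun p => p.2⁻¹ • y p.1)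
    rw [satFrac_eq, satFrac_eq]
    have hset : (Finset.univ.filter (fun e : ι × Aff m × (Fin k → Fin 5) =>
        (frameGame k src dst c).perm e ((fun p : U × Aff m => p.2⁻¹ • x p.1)
          ((frameGame k src dst c).src e)) = (fun p : W × Aff m => p.2⁻¹ • y p.1)
          ((frameGame k src dst c).dst e)))
        = (Finset.univ.filter (fun e : ι => (linGame src dst c).perm e (x ((linGame src dst c).src e))
          = y ((linGame src dst c).dst e))) ×ˢ (Finset.univ : Finset (Aff m × (Fin k → Fin 5))) := by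
      ext ⟨e, g, w⟩
      simp only [Finset.mem_filter, Finset.mem_univ, true_and, Finset.mem_product, and_true]
      show (word m w)⁻¹ • (g⁻¹ • x (src e)) = (tr (c e) * g * word m w)⁻¹ • y (dst e) ↔
        c e + x (src e) = y (dst e)
      rw [_root_.mul_inv_rev, _root_.mul_inv_rev, mul_smul, mul_smul, smul_left_cancel_iff,
        smul_left_cancel_iff, eq_inv_smul_iff, tr_smul]
    rw [hset, Finset.card_product, hcard, Finset.card_univ, Fintype.card_prod]
    push_cast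
    rw [Fintype.card_fun, Fintype.card_fin, Fintype.card_fin]
    push_cast
    have h5 : (0 : ℝ) < 5 ^ k := by positivity
    field_simp
  · -- soundness
    apply ciSup_le
    rintro ⟨X, Y⟩
    show (frameGame k src dst c).satFrac X Y ≤ _
    rw [satFrac_eq]
    let f : U → Aff m → Fin 2 → ZMod m := fun u g => g • X (u, g)
    let h : W → Aff m → Fin 2 → ZMod m := fun v g => g • Y (v, g)
    have hcount : ((Finset.univ.filter (fun e : ι × Aff m × (Fin k → Fin 5) =>
        (frameGame k src dst c).perm e (X ((frameGame k src dst c).src e)) =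
          Y ((frameGame k src dst c).dst e))).card : ℝ)
        = ∑ e : ι, ∑ g : Aff m, ∑ w : Fin k → Fin 5,
          (if h (dst e) (tr (c e) * g * word m w) = c e + f (src e) g then (1 : ℝ) else 0) := by
      rw [Finset.card_filter]
      push_cast
      rw [Fintype.sum_prod_type]
      apply Finset.sum_congr rfl; intro e _
      rw [Fintype.sum_prod_type]
      apply Finset.sum_congr rfl; intro g _
      apply Finset.sum_congr rfl; intro w _
      congr 1
      apply propext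
      show (word m w)⁻¹ • X (src e, g) = Y (dst e, tr (c e) * g * word m w) ↔
        (tr (c e) * g * word m w) • Y (dst e, tr (c e) * g * word m w) = c e + g • X (src e, g)
      rw [inv_smul_eq_iff, ← tr_smul, mul_smul, mul_smul, smul_left_cancel_iff,
        smul_left_cancel_iff]
      exact eq_comm
    have hedge : ∀ e : ι, ∑ g : Aff m, ∑ w : Fin k → Fin 5,
          (if h (dst e) (tr (c e) * g * word m w) = c e + f (src e) g then (1 : ℝ) else 0)
        ≤ ((m : ℝ) ^ 2)⁻¹ * ∑ g, ∑ w : Fin k → Fin 5, ∑ z : Fin 2 → ZMod m,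
        (if h (dst e) (tr z * g * word m w) = c e + f (src e) g then (1 : ℝ) else 0)
      + (5 * (1 - 1 / 10000)) ^ k * (Fintype.card (Aff m) : ℝ) :=
      fun e => one_edge k (c e) (f (src e)) (h (dst e))
    have hlab : ∀ (g g' : Aff m), ∑ e : ι,
        (if h (dst e) g' = c e + f (src e) g then (1 : ℝ) else 0)
        ≤ (Fintype.card ι : ℝ) * (linGame src dst c).value := by
      intro g g'
      have := satFrac_le_value (linGame src dst c) (fun u => f u g) (fun v => h v g')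
      rw [satFrac_eq, div_le_iff₀ hι] at this
      rw [mul_comm]
      refine le_trans (le_of_eq ?_) this
      rw [Finset.card_filter]
      push_cast
      apply Finset.sum_congr rfl; intro e _
      congr 1
      apply propext
      show h (dst e) g' = c e + f (src e) g ↔ c e + f (src e) g = h (dst e) g'
      exact eq_comm
    have hsum : ∑ e : ι, ((m : ℝ) ^ 2)⁻¹ * ∑ g, ∑ w : Fin k → Fin 5, ∑ z : Fin 2 → ZMod m,
        (if h (dst e) (tr z * g * word m w) = c e + f (src e) g then (1 : ℝ) else 0)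
        ≤ (Fintype.card ι : ℝ) * ((Fintype.card (Aff m) : ℝ) * 5 ^ k) *
          (linGame src dst c).value := by
      rw [← Finset.mul_sum, Finset.sum_comm]
      have : ∑ g : Aff m, ∑ e : ι, ∑ w : Fin k → Fin 5, ∑ z : Fin 2 → ZMod m,
        (if h (dst e) (tr z * g * word m w) = c e + f (src e) g then (1 : ℝ) else 0)
        ≤ ∑ g : Aff m, ∑ w : Fin k → Fin 5, ∑ z : Fin 2 → ZMod m,
          (Fintype.card ι : ℝ) * (linGame src dst c).value := by
        apply Finset.sum_le_sum; intro g _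
        rw [Finset.sum_comm]
        apply Finset.sum_le_sum; intro w _
        rw [Finset.sum_comm]
        apply Finset.sum_le_sum; intro z _
        exact hlab g (tr z * g * word m w)
      refine le_trans (mul_le_mul_of_nonneg_left this (by positivity)) (le_of_eq ?_)
      simp only [Finset.sum_const, Finset.card_univ, nsmul_eq_mul, card_vec]
      rw [Fintype.card_fun, Fintype.card_fin, Fintype.card_fin]
      have hm : (m : ℝ) ≠ 0 := Nat.cast_ne_zero.2 (NeZero.ne m)
      push_cast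
      field_simp
    rw [hcount, hcard, div_le_iff₀ (by positivity)]
    have h1 := Finset.sum_le_sum (fun e (_ : e ∈ (Finset.univ : Finset ι)) => hedge e)
    rw [Finset.sum_add_distrib] at h1
    have h2 : ∑ e : ι, (5 * (1 - 1 / 10000) : ℝ) ^ k * (Fintype.card (Aff m) : ℝ)
        = (Fintype.card ι : ℝ) * ((Fintype.card (Aff m) : ℝ) * 5 ^ k) * (1 - 1 / 10000) ^ k := by
      rw [Finset.sum_const, Finset.card_univ, nsmul_eq_mul, mul_pow]
      ring
    rw [h2] at h1
    refine le_trans h1 ?_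
    have : ((linGame src dst c).value + (1 - 1 / 10000) ^ k) *
        ((Fintype.card ι : ℝ) * ((Fintype.card (Aff m) : ℝ) * 5 ^ k)) =
        (Fintype.card ι : ℝ) * ((Fintype.card (Aff m) : ℝ) * 5 ^ k) *
          (linGame src dst c).value + (Fintype.card ι : ℝ) * ((Fintype.card (Aff m) : ℝ) * 5 ^ k)
          * (1 - 1 / 10000) ^ k := by ring
    rw [this]
    linarith
  · -- number of constraint permutations
    have hsub : Set.range (frameGame k src dst c).perm ⊆
        Set.range (fun w : Fin k → Fin 5 => (MulAction.toPerm (word m w)⁻¹ :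
          Equiv.Perm (Fin 2 → ZMod m))) := by
      rintro _ ⟨e, rfl⟩
      exact ⟨e.2.2, rfl⟩
    calc (Set.range (frameGame k src dst c).perm).ncard
        ≤ (Set.range (fun w : Fin k → Fin 5 => (MulAction.toPerm (word m w)⁻¹ :
          Equiv.Perm (Fin 2 → ZMod m)))).ncard := Set.ncard_le_ncard hsub (Set.toFinite _)
      _ ≤ Nat.card (Fin k → Fin 5) := by
          rw [← Set.image_univ, ← Set.ncard_univ]
          exact Set.ncard_image_le (Set.toFinite _)
      _ = 5 ^ k := by simp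

end Pool.Agent.Lib.P325f1f.BoundedTypes
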