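import Mathlib

/-!
# Unique games whose constraint types have a Folner set

A unique game all of whose constraint permutations are given by the action of finitely many
elements `s 0, ..., s (t-1)` of a group `Γ` on a label set `Ω` of arbitrary size has near-optimal
labelings that use only a bounded number of labels, as soon as the `s i` have a Folner set `F`: the
bound depends on `t` and on the size of `F` but not on the label set.
-/

open Finset

namespace Pool.Agent.P325f1f.FolnerLabels

universe w u v

/-- The number of edges of the list `E` of `m` edges that the labeling `x` satisfies. An edge is a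
triple `(a, b, i)` of a tail `a`, a head `b` and the index `i` of its constraint permutation, the
action of the group element `s i` on the label set `Ω`; it is satisfied when `s i` maps the label of
`a` to the label of `b`. -/
noncomputable def satCount {Γ : Type w} [Group Γ] {Ω : Type u} [MulAction Γ Ω] {V : Type v}
    {t m : ℕ} (s : Fin t → Γ) (E : Fin m → V × V × Fin t) (x : V → Ω) : ℕ := by
  classical exact (Finset.univ.filter (fun k => s (E k).2.2 • x (E k).1 = x (E k).2.1)).card

/-- Region carving: a family of centers covering points, such that for every edge the number of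
centers covering both endpoints is at least `p` times the number of centers covering at least one;
then points can be assigned to centers covering them so that at least a fraction `p` of the edges
have both endpoints assigned to the same center. -/
theorem carve {α β ι : Type*} [DecidableEq α] [DecidableEq β] [DecidableEq ι] [Nonempty β]
    (cov : β → α → Prop) [∀ z x, Decidable (cov z x)] (C : Finset β) (p : ℝ)
    (a b : ι → α) (n : ℕ) :
    ∀ (X : Finset α) (E : Finset ι), X.card = n →
    (∀ e ∈ E, a e ∈ X ∧ b e ∈ X) → (∀ x ∈ X, ∃ z ∈ C, cov z x) →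
    (∀ e ∈ E, p * ((C.filter (fun z => cov z (a e) ∨ cov z (b e))).card : ℝ) ≤
      ((C.filter (fun z => cov z (a e) ∧ cov z (b e))).card : ℝ)) →
    ∃ f : α → β, (∀ x ∈ X, cov (f x) x) ∧
      p * (E.card : ℝ) ≤ ((E.filter (fun e => f (a e) = f (b e))).card : ℝ) := by
  classical
  induction n using Nat.strong_induction_on with
  | _ n ih =>
    intro X E hXn hE hcov hp
    rcases X.eq_empty_or_nonempty with hX | hX
    · subst hX
      have hE0 : E = ∅ := by
        apply Finset.eq_empty_of_forall_notMem
        intro e he
        have := (hE e he).1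
        simp at this
      subst hE0
      obtain ⟨z⟩ := (inferInstance : Nonempty β)
      exact ⟨fun _ => z, by simp, by simp⟩
    · set C' := C.filter (fun z => ∃ x ∈ X, cov z x) with hC'
      have hC'ne : C'.Nonempty := by
        obtain ⟨x, hx⟩ := hX
        obtain ⟨z, hz, hzx⟩ := hcov x hx
        exact ⟨z, by simp [hC', hz]; exact ⟨x, hx, hzx⟩⟩
      -- a good center
      have hgood : ∃ z ∈ C', p * (E.card : ℝ) ≤
          ((E.filter (fun e => cov z (a e) ∧ cov z (b e))).card : ℝ)
          + p * ((E.filter (fun e => ¬ cov z (a e) ∧ ¬ cov z (b e))).card : ℝ) := by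
        by_contra hcon
        push Not at hcon
        have hsum : ∑ z ∈ C', (((E.filter (fun e => cov z (a e) ∧ cov z (b e))).card : ℝ)
          + p * ((E.filter (fun e => ¬ cov z (a e) ∧ ¬ cov z (b e))).card : ℝ))
          < ∑ z ∈ C', p * (E.card : ℝ) := Finset.sum_lt_sum_of_nonempty hC'ne hcon
        have h1 : ∑ z ∈ C', (((E.filter (fun e => cov z (a e) ∧ cov z (b e))).card : ℝ)
          + p * ((E.filter (fun e => ¬ cov z (a e) ∧ ¬ cov z (b e))).card : ℝ))
          = ∑ e ∈ E, (((C'.filter (fun z => cov z (a e) ∧ cov z (b e))).card : ℝ)
          + p * ((C'.filter (fun z => ¬ cov z (a e) ∧ ¬ cov z (b e))).card : ℝ)) := by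
          simp only [Finset.card_filter, Nat.cast_sum, Nat.cast_ite, Nat.cast_one, Nat.cast_zero,
            Finset.sum_add_distrib, Finset.mul_sum]
          congr 1
          · rw [Finset.sum_comm]
          · rw [Finset.sum_comm]
        have h2 : ∀ e ∈ E, p * (C'.card : ℝ) ≤
          (((C'.filter (fun z => cov z (a e) ∧ cov z (b e))).card : ℝ)
          + p * ((C'.filter (fun z => ¬ cov z (a e) ∧ ¬ cov z (b e))).card : ℝ)) := by
          intro e he
          obtain ⟨hae, hbe⟩ := hE e he
          have e1 : C'.filter (fun z => cov z (a e) ∧ cov z (b e))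
              = C.filter (fun z => cov z (a e) ∧ cov z (b e)) := by
            ext z
            simp only [hC', Finset.mem_filter]
            constructor
            · rintro ⟨⟨h, _⟩, h'⟩; exact ⟨h, h'⟩
            · rintro ⟨h, h'⟩; exact ⟨⟨h, a e, hae, h'.1⟩, h'⟩
          have e2 : C'.filter (fun z => cov z (a e) ∨ cov z (b e))
              = C.filter (fun z => cov z (a e) ∨ cov z (b e)) := by
            ext z
            simp only [hC', Finset.mem_filter]
            constructor
            · rintro ⟨⟨h, _⟩, h'⟩; exact ⟨h, h'⟩
            · rintro ⟨h, h'⟩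
              rcases h' with h' | h'
              · exact ⟨⟨h, a e, hae, h'⟩, Or.inl h'⟩
              · exact ⟨⟨h, b e, hbe, h'⟩, Or.inr h'⟩
          have e3 : (C'.filter (fun z => cov z (a e) ∨ cov z (b e))).card
              + (C'.filter (fun z => ¬ cov z (a e) ∧ ¬ cov z (b e))).card = C'.card := by
            have := Finset.card_filter_add_card_filter_not (s := C')
              (fun z => cov z (a e) ∨ cov z (b e))
            simpa only [not_or] using this
          have e3' : (C'.card : ℝ) = ((C'.filter (fun z => cov z (a e) ∨ cov z (b e))).card : ℝ)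
              + ((C'.filter (fun z => ¬ cov z (a e) ∧ ¬ cov z (b e))).card : ℝ) := by
            exact_mod_cast e3.symm
          rw [e3', mul_add, e1, e2]
          have := hp e he
          linarith
        have h3 : ∑ e ∈ E, p * (C'.card : ℝ) ≤ ∑ e ∈ E,
          (((C'.filter (fun z => cov z (a e) ∧ cov z (b e))).card : ℝ)
          + p * ((C'.filter (fun z => ¬ cov z (a e) ∧ ¬ cov z (b e))).card : ℝ)) :=
          Finset.sum_le_sum h2
        rw [h1] at hsum
        simp only [Finset.sum_const, nsmul_eq_mul] at hsum h3
        nlinarith
      obtain ⟨z, hzC', hz⟩ := hgood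
      set X' := X.filter (fun x => ¬ cov z x) with hX'
      set E' := E.filter (fun e => ¬ cov z (a e) ∧ ¬ cov z (b e)) with hE'
      have hX'card : X'.card < n := by
        rw [← hXn]
        apply Finset.card_lt_card
        rw [Finset.ssubset_iff_of_subset (Finset.filter_subset _ _)]
        simp only [hC', Finset.mem_filter] at hzC'
        obtain ⟨_, x, hx, hzx⟩ := hzC'
        exact ⟨x, hx, by simp [hzx]⟩
      obtain ⟨f', hf'1, hf'2⟩ := ih X'.card hX'card X' E' rfl
        (by
          intro e he
          simp only [hE', Finset.mem_filter] at he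
          obtain ⟨he, h1, h2⟩ := he
          exact ⟨by simp [hX', h1, (hE e he).1], by simp [hX', h2, (hE e he).2]⟩)
        (by
          intro x hx
          exact hcov x (Finset.mem_of_mem_filter x hx))
        (by
          intro e he
          exact hp e (Finset.mem_of_mem_filter e he))
      refine ⟨fun x => if cov z x then z else f' x, ?_, ?_⟩
      · intro x hx
        by_cases h : cov z x
        · simp [h]
        · simp only [h, if_false]
          exact hf'1 x (by simp [hX', hx, h])
      · have hsub : (E.filter (fun e => cov z (a e) ∧ cov z (b e))) ∪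
            (E'.filter (fun e => f' (a e) = f' (b e))) ⊆
            E.filter (fun e => (if cov z (a e) then z else f' (a e))
              = (if cov z (b e) then z else f' (b e))) := by
          intro e he
          simp only [Finset.mem_union, Finset.mem_filter, hE'] at he ⊢
          rcases he with ⟨h, h1, h2⟩ | ⟨⟨h, h1, h2⟩, h3⟩
          · exact ⟨h, by simp [h1, h2]⟩
          · exact ⟨h, by simp [h1, h2, h3]⟩
        have hdisj : Disjoint (E.filter (fun e => cov z (a e) ∧ cov z (b e)))
            (E'.filter (fun e => f' (a e) = f' (b e))) := by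
          rw [Finset.disjoint_left]
          intro e he he'
          simp only [Finset.mem_filter, hE'] at he he'
          exact he'.1.2.1 he.2.1
        have hcard := Finset.card_le_card hsub
        rw [Finset.card_union_of_disjoint hdisj] at hcard
        have hcard' : ((E.filter (fun e => cov z (a e) ∧ cov z (b e))).card : ℝ)
            + ((E'.filter (fun e => f' (a e) = f' (b e))).card : ℝ) ≤
            ((E.filter (fun e => (if cov z (a e) then z else f' (a e))
              = (if cov z (b e) then z else f' (b e)))).card : ℝ) := by
          exact_mod_cast hcard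
        linarith


/-- **Main theorem.** Let `s 0, …, s (t-1)` be elements of a group `Γ`, let `0 ≤ η ≤ 1` and let `F`
be a nonempty finite subset of `Γ` such that for every `i` at least `(1 - η) |F|` elements `g` of
`F` satisfy `s i * g ∈ F`. For every action of `Γ` on a label set `Ω` there is a set `B` of at most
`|F| * 2 ^ (t |F|^2)` labels such that for every unique game over `Ω` whose constraint permutations
are among the actions of the `s i`, and every labeling `x` of it, there is a labeling `y` with all
labels in `B` that satisfies at least `(1 - η) / (1 + η)` times as many edges as `x`. -/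
theorem result {Γ : Type w} [Group Γ] {t : ℕ} (s : Fin t → Γ) (F : Finset Γ) (hF : F.Nonempty)
    (η : ℝ) (hη0 : 0 ≤ η) (hη1 : η ≤ 1)
    (hFol : ∀ i, (1 - η) * (F.card : ℝ) ≤ (({g | g ∈ F ∧ s i * g ∈ F} : Set Γ).ncard : ℝ))
    (Ω : Type u) [MulAction Γ Ω] :
    ∃ B : Finset Ω, B.card ≤ F.card * 2 ^ (t * F.card ^ 2) ∧
      ∀ (V : Type v) (m : ℕ) (E : Fin m → V × V × Fin t) (x : V → Ω),
        ∃ y : V → Ω, (∀ a, y a ∈ B) ∧
          ((1 - η) / (1 + η)) * (satCount s E x : ℝ) ≤ (satCount s E y : ℝ) := by
  classical
  have hη : (0 : ℝ) < 1 + η := by linarith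
  have hFol' : ∀ i, (1 - η) * (F.card : ℝ) ≤ ((F.filter (fun g => s i * g ∈ F)).card : ℝ) := by
    intro i
    have h := hFol i
    have e : ({g | g ∈ F ∧ s i * g ∈ F} : Set Γ) = ((F.filter (fun g => s i * g ∈ F) : Finset Γ) :
        Set Γ) := by
      ext g; simp
    rw [e, Set.ncard_coe_finset] at h
    exact h
  rcases isEmpty_or_nonempty Ω with hΩ | hΩ
  · refine ⟨∅, by simp, ?_⟩
    intro V m E x
    refine ⟨x, fun a => hΩ.elim (x a), ?_⟩
    have h1 : (0 : ℝ) ≤ (satCount s E x : ℝ) := Nat.cast_nonneg _
    have h2 : (1 - η) / (1 + η) ≤ 1 := by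
      rw [div_le_one hη]; linarith
    nlinarith
  -- multiplicities, local types
  let D : Finset Γ := (Finset.univ : Finset (Fin t)).biUnion
    (fun i => (F ×ˢ F).image (fun q => q.1⁻¹ * (s i * q.2)))
  have hDcard : D.card ≤ t * F.card ^ 2 := by
    calc D.card ≤ ∑ i : Fin t, ((F ×ˢ F).image (fun q => q.1⁻¹ * (s i * q.2))).card :=
          Finset.card_biUnion_le
      _ ≤ ∑ i : Fin t, F.card ^ 2 := by
          apply Finset.sum_le_sum
          intro i _
          calc _ ≤ (F ×ˢ F).card := Finset.card_image_le
            _ = F.card ^ 2 := by rw [Finset.card_product, sq]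
      _ = t * F.card ^ 2 := by simp
  let φ : Ω → Ω → ℕ := fun z w => (F.filter (fun n => n • z = w)).card
  let ty : Ω → Finset Γ := fun z => D.filter (fun k => k • z = z)
  let B : Finset Ω := D.powerset.biUnion
    (fun T => F.image (fun n => n • (Function.invFun ty T)))
  have hBmem : ∀ z, ∀ n ∈ F, n • (Function.invFun ty (ty z)) ∈ B := by
    intro z n hn
    refine Finset.mem_biUnion.2 ⟨ty z, ?_, Finset.mem_image.2 ⟨n, hn, rfl⟩⟩
    exact Finset.mem_powerset.2 (Finset.filter_subset _ _)
  obtain ⟨g₀, hg₀⟩ := hF
  refine ⟨B, ?_, ?_⟩
  · calc B.card ≤ ∑ T ∈ D.powerset,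
          (F.image (fun n => n • (Function.invFun ty T))).card := Finset.card_biUnion_le
      _ ≤ ∑ T ∈ D.powerset, F.card := by
          apply Finset.sum_le_sum
          intro T _
          exact Finset.card_image_le
      _ = F.card * 2 ^ D.card := by
          rw [Finset.sum_const, Finset.card_powerset, smul_eq_mul, mul_comm]
      _ ≤ F.card * 2 ^ (t * F.card ^ 2) :=
          Nat.mul_le_mul_left _ (Nat.pow_le_pow_right (by norm_num) hDcard)
  · intro V m E x
    set X : Finset Ω := Finset.univ.image (fun k => x (E k).1) ∪
      Finset.univ.image (fun k => x (E k).2.1) with hX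
    have hXa : ∀ k, x (E k).1 ∈ X := by
      intro k; simp [hX]
    have hXb : ∀ k, x (E k).2.1 ∈ X := by
      intro k; simp [hX]
    set Z : Finset Ω := X.biUnion (fun w => F.image (fun n => n⁻¹ • w)) with hZ
    have hZmem : ∀ w ∈ X, ∀ n ∈ F, n⁻¹ • w ∈ Z := by
      intro w hw n hn
      exact Finset.mem_biUnion.2 ⟨w, hw, Finset.mem_image.2 ⟨n, hn, rfl⟩⟩
    set C : Finset (Ω × ℕ) := Z ×ˢ Finset.range F.card with hC
    let cov : Ω × ℕ → Ω → Prop := fun c w => c.2 < φ c.1 w
    have hφle : ∀ z w, φ z w ≤ F.card := by
      intro z w
      exact Finset.card_filter_le _ _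
    -- total number of centers covering a point
    have htot : ∀ w, (C.filter (fun c => cov c w)).card ≤ F.card := by
      intro w
      have e1 : (C.filter (fun c => cov c w)).card
          = ∑ z ∈ Z, ((Finset.range F.card).filter (fun l => l < φ z w)).card := by
        simp only [hC, cov, Finset.card_filter, Finset.sum_product]
      have e2 : ∀ z ∈ Z, ((Finset.range F.card).filter (fun l => l < φ z w)).card ≤ φ z w := by
        intro z _
        calc ((Finset.range F.card).filter (fun l => l < φ z w)).card
            ≤ (Finset.range (φ z w)).card := by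
              apply Finset.card_le_card
              intro l hl
              simp only [Finset.mem_filter] at hl
              exact Finset.mem_range.2 hl.2
          _ = φ z w := Finset.card_range _
      have e3 : ∑ z ∈ Z, φ z w = ∑ n ∈ F, (Z.filter (fun z => n • z = w)).card := by
        simp only [φ, Finset.card_filter]
        rw [Finset.sum_comm]
      have e4 : ∀ n ∈ F, (Z.filter (fun z => n • z = w)).card ≤ 1 := by
        intro n _
        rw [Finset.card_le_one]
        intro z hz z' hz'
        simp only [Finset.mem_filter] at hz hz'
        exact (MulAction.injective n) (hz.2.trans hz'.2.symm)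
      rw [e1]
      calc _ ≤ ∑ z ∈ Z, φ z w := Finset.sum_le_sum e2
        _ = ∑ n ∈ F, (Z.filter (fun z => n • z = w)).card := e3
        _ ≤ ∑ n ∈ F, 1 := Finset.sum_le_sum e4
        _ = F.card := by simp
    -- centers covering both endpoints of a satisfied edge
    have hboth : ∀ (i : Fin t) (w : Ω), w ∈ X →
        (F.filter (fun n => s i * n ∈ F)).card ≤
        (C.filter (fun c => cov c w ∧ cov c (s i • w))).card := by
      intro i w hw
      have e1 : (C.filter (fun c => cov c w ∧ cov c (s i • w))).card
          = ∑ z ∈ Z, ((Finset.range F.card).filter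
            (fun l => l < φ z w ∧ l < φ z (s i • w))).card := by
        simp only [hC, cov, Finset.card_filter, Finset.sum_product]
      have e2 : ∀ z ∈ Z, ((F.filter (fun n => s i * n ∈ F)).filter
          (fun n => n • z = w)).card ≤ ((Finset.range F.card).filter
            (fun l => l < φ z w ∧ l < φ z (s i • w))).card := by
        intro z _
        set D' := (F.filter (fun n => s i * n ∈ F)).filter (fun n => n • z = w) with hD'
        have d1 : D'.card ≤ φ z w := by
          apply Finset.card_le_card
          intro n hn
          simp only [hD', Finset.mem_filter] at hn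
          simp only [Finset.mem_filter]
          exact ⟨hn.1.1, hn.2⟩
        have d2 : D'.card ≤ φ z (s i • w) := by
          apply Finset.card_le_card_of_injOn (fun n => s i * n)
          · intro n hn
            have hn' : n ∈ D' := hn
            simp only [hD', Finset.mem_filter] at hn'
            show s i * n ∈ (F.filter (fun n => n • z = s i • w))
            rw [Finset.mem_filter]
            refine ⟨hn'.1.2, ?_⟩
            rw [mul_smul, hn'.2]
          · intro n _ n' _ h
            exact mul_left_cancel h
        calc D'.card = (Finset.range D'.card).card := (Finset.card_range _).symm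
          _ ≤ _ := by
            apply Finset.card_le_card
            intro l hl
            rw [Finset.mem_range] at hl
            rw [Finset.mem_filter, Finset.mem_range]
            exact ⟨lt_of_lt_of_le (lt_of_lt_of_le hl d1) (hφle z w), lt_of_lt_of_le hl d1,
              lt_of_lt_of_le hl d2⟩
      have e3 : ∑ z ∈ Z, ((F.filter (fun n => s i * n ∈ F)).filter
          (fun n => n • z = w)).card = ∑ n ∈ F.filter
            (fun n => s i * n ∈ F), (Z.filter (fun z => n • z = w)).card := by
        simp only [Finset.card_filter (fun n => n • _ = w), Finset.card_filter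
          (fun z => _ • z = w)]
        rw [Finset.sum_comm]
      have e4 : ∀ n ∈ F.filter (fun n => s i * n ∈ F),
          1 ≤ (Z.filter (fun z => n • z = w)).card := by
        intro n hn
        rw [Finset.mem_filter] at hn
        rw [Nat.one_le_iff_ne_zero, Finset.card_ne_zero]
        refine ⟨n⁻¹ • w, ?_⟩
        rw [Finset.mem_filter]
        exact ⟨hZmem w hw n hn.1, smul_inv_smul n w⟩
      rw [e1]
      calc (F.filter (fun n => s i * n ∈ F)).card
          = ∑ n ∈ F.filter (fun n => s i * n ∈ F), 1 := by simp
        _ ≤ ∑ n ∈ F.filter
            (fun n => s i * n ∈ F), (Z.filter (fun z => n • z = w)).card :=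
            Finset.sum_le_sum e4
        _ = _ := e3.symm
        _ ≤ _ := Finset.sum_le_sum e2
    set S : Finset (Fin m) :=
      Finset.univ.filter (fun k => s (E k).2.2 • x (E k).1 = x (E k).2.1) with hS
    obtain ⟨f, hf1, hf2⟩ := carve (β := Ω × ℕ) cov C ((1 - η) / (1 + η))
      (fun k : Fin m => x (E k).1) (fun k => x (E k).2.1) X.card X S rfl
      (fun k _ => ⟨hXa k, hXb k⟩)
      (by
        intro w hw
        refine ⟨(g₀⁻¹ • w, 0), ?_, ?_⟩
        · rw [hC, Finset.mem_product]
          exact ⟨hZmem w hw g₀ hg₀, Finset.mem_range.2 (Finset.card_pos.2 ⟨g₀, hg₀⟩)⟩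
        · show 0 < φ (g₀⁻¹ • w) w
          apply Finset.card_pos.2
          exact ⟨g₀, by rw [Finset.mem_filter]; exact ⟨hg₀, smul_inv_smul g₀ w⟩⟩)
      (by
        intro k hk
        rw [hS, Finset.mem_filter] at hk
        have hk2 := hk.2
        have c1 := hboth (E k).2.2 (x (E k).1) (hXa k)
        rw [hk2] at c1
        have c2 := hFol' (E k).2.2
        have c3 : (C.filter (fun c => cov c (x (E k).1) ∨ cov c (x (E k).2.1))).card +
            (C.filter (fun c => cov c (x (E k).1) ∧ cov c (x (E k).2.1))).card
              ≤ 2 * F.card := by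
          have := Finset.card_union_add_card_inter (C.filter (fun c => cov c (x (E k).1)))
            (C.filter (fun c => cov c (x (E k).2.1)))
          rw [← Finset.filter_or, ← Finset.filter_and] at this
          rw [this]
          have t1 := htot (x (E k).1)
          have t2 := htot (x (E k).2.1)
          omega
        have c1' : ((F.filter (fun n => s (E k).2.2 * n ∈ F)).card : ℝ)
            ≤ ((C.filter (fun c => cov c (x (E k).1) ∧ cov c (x (E k).2.1))).card : ℝ) := by
          exact_mod_cast c1
        have c3' : ((C.filter (fun c => cov c (x (E k).1) ∨ cov c (x (E k).2.1))).card : ℝ) +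
            ((C.filter (fun c => cov c (x (E k).1) ∧ cov c (x (E k).2.1))).card : ℝ)
            ≤ 2 * (F.card : ℝ) := by
          exact_mod_cast c3
        rw [div_mul_eq_mul_div, div_le_iff₀ hη]
        set P := ((C.filter (fun c => cov c (x (E k).1) ∨ cov c (x (E k).2.1))).card : ℝ)
        set Q := ((C.filter (fun c => cov c (x (E k).1) ∧ cov c (x (E k).2.1))).card : ℝ)
        have q1 : (1 - η) * (F.card : ℝ) ≤ Q := le_trans c2 c1'
        have q2 : (1 - η) * (P + Q) ≤ (1 - η) * (2 * (F.card : ℝ)) :=
          mul_le_mul_of_nonneg_left c3' (by linarith)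
        nlinarith)
    -- the new labeling
    have hpick : ∀ w ∈ X, ∃ n ∈ F, n • (f w).1 = w := by
      intro w hw
      have h1 : (f w).2 < φ (f w).1 w := hf1 w hw
      have h2 : 0 < φ (f w).1 w := lt_of_le_of_lt (Nat.zero_le _) h1
      obtain ⟨n, hn⟩ := Finset.card_pos.1 h2
      rw [Finset.mem_filter] at hn
      exact ⟨n, hn.1, hn.2⟩
    choose! pick hpick1 hpick2 using hpick
    let newlab : Ω → Ω := fun w => if w ∈ X then
      (pick w) • (Function.invFun ty (ty (f w).1)) else
      g₀ • (Function.invFun ty (ty w))
    refine ⟨fun a => newlab (x a), ?_, ?_⟩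
    · intro a
      by_cases h : x a ∈ X
      · simp only [newlab, h, if_true]
        exact hBmem _ _ (hpick1 _ h)
      · simp only [newlab, h, if_false]
        exact hBmem _ _ hg₀
    · refine le_trans hf2 ?_
      have hsub : S.filter (fun k => f (x (E k).1) = f (x (E k).2.1)) ⊆
          Finset.univ.filter
            (fun k => s (E k).2.2 • (newlab (x (E k).1)) = newlab (x (E k).2.1)) := by
        intro k hk
        rw [Finset.mem_filter, hS, Finset.mem_filter] at hk
        obtain ⟨⟨_, hsat⟩, hfeq⟩ := hk
        rw [Finset.mem_filter]
        refine ⟨Finset.mem_univ _, ?_⟩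
        simp only [newlab, hXa k, hXb k, if_true]
        set i := (E k).2.2
        set wa := x (E k).1
        set wb := x (E k).2.1
        have ha := hpick2 wa (hXa k)
        have hb := hpick2 wb (hXb k)
        rw [← hfeq] at hb ⊢
        set z := (f wa).1
        set z' := Function.invFun ty (ty z) with hz'
        have hty : ty z' = ty z := Function.invFun_eq ⟨z, rfl⟩
        -- the difference stabilises z
        have hmem : (pick wb)⁻¹ * (s i * pick wa) ∈ ty z := by
          rw [Finset.mem_filter]
          constructor
          · refine Finset.mem_biUnion.2 ⟨i, Finset.mem_univ _, Finset.mem_image.2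
              ⟨(pick wb, pick wa), ?_, rfl⟩⟩
            exact Finset.mem_product.2 ⟨hpick1 wb (hXb k), hpick1 wa (hXa k)⟩
          · rw [mul_smul, mul_smul, ha, hsat, inv_smul_eq_iff]; exact hb.symm
        rw [← hty, Finset.mem_filter] at hmem
        have h3 := hmem.2
        calc s i • pick wa • z' = (pick wb * ((pick wb)⁻¹ * (s i * pick wa))) • z' := by
              rw [mul_inv_cancel_left, mul_smul]
          _ = pick wb • z' := by rw [mul_smul, h3]
      have := Finset.card_le_card hsub
      have h5 : ((S.filter (fun k => f (x (E k).1) = f (x (E k).2.1))).card : ℝ) ≤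
          ((Finset.univ.filter (fun k => s (E k).2.2 • (newlab (x (E k).1))
            = newlab (x (E k).2.1))).card : ℝ) := by
        exact_mod_cast this
      exact h5

end Pool.Agent.P325f1f.FolnerLabels
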