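import Mathlib

/-!
# Averages over finite types, random permutations
-/

set_option autoImplicit false

open Finset

noncomputable section

namespace Pool.Agent.Lib.P325f1f.Gadget

/-- The average of a real function over a finite type. -/
def avg {α : Type*} [Fintype α] (f : α → ℝ) : ℝ := (∑ a, f a) / Fintype.card α

section basic

variable {α β : Type*} [Fintype α] [Fintype β]

lemma avg_add (f g : α → ℝ) : avg (fun a => f a + g a) = avg f + avg g := by
  simp [avg, Finset.sum_add_distrib, add_div]

lemma avg_sub (f g : α → ℝ) : avg (fun a => f a - g a) = avg f - avg g := by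
  simp [avg, Finset.sum_sub_distrib, sub_div]

lemma avg_mul_left (c : ℝ) (f : α → ℝ) : avg (fun a => c * f a) = c * avg f := by
  simp [avg, ← Finset.mul_sum, mul_div_assoc]

lemma avg_mul_right (c : ℝ) (f : α → ℝ) : avg (fun a => f a * c) = avg f * c := by
  simp only [mul_comm _ c]; exact avg_mul_left c f

lemma avg_nonneg {f : α → ℝ} (h : ∀ a, 0 ≤ f a) : 0 ≤ avg f :=
  div_nonneg (Finset.sum_nonneg fun a _ => h a) (Nat.cast_nonneg _)

lemma avg_mono {f g : α → ℝ} (h : ∀ a, f a ≤ g a) : avg f ≤ avg g :=
  div_le_div_of_nonneg_right (Finset.sum_le_sum fun a _ => h a) (Nat.cast_nonneg _)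

lemma avg_const [Nonempty α] (c : ℝ) : avg (fun _ : α => c) = c := by
  have : (Fintype.card α : ℝ) ≠ 0 := by
    exact_mod_cast Fintype.card_ne_zero
  simp [avg, Finset.sum_const, nsmul_eq_mul, this]

lemma avg_le_of_le [Nonempty α] {f : α → ℝ} {c : ℝ} (h : ∀ a, f a ≤ c) : avg f ≤ c := by
  simpa [avg_const] using avg_mono (g := fun _ => c) h

lemma le_avg_of_le [Nonempty α] {f : α → ℝ} {c : ℝ} (h : ∀ a, c ≤ f a) : c ≤ avg f := by
  simpa [avg_const] using avg_mono (f := fun _ => c) h

lemma avg_comm (f : α → β → ℝ) : avg (fun a => avg (f a)) = avg fun b => avg fun a => f a b := by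
  simp only [avg]
  rw [← Finset.sum_div, ← Finset.sum_div, Finset.sum_comm]
  rw [div_div, div_div, mul_comm]

lemma avg_sum {ι : Type*} (s : Finset ι) (f : ι → α → ℝ) :
    avg (fun a => ∑ i ∈ s, f i a) = ∑ i ∈ s, avg (f i) := by
  simp only [avg]
  rw [← Finset.sum_div, Finset.sum_comm]

lemma avg_equiv (e : α ≃ β) (f : β → ℝ) : avg (fun a => f (e a)) = avg f := by
  simp only [avg]
  rw [Equiv.sum_comp e f, Fintype.card_congr e]

lemma avg_prod (f : α × β → ℝ) : avg f = avg fun a => avg fun b => f (a, b) := by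
  simp only [avg]
  rw [← Finset.sum_div, Fintype.sum_prod_type, Fintype.card_prod, div_div]
  push_cast
  rw [mul_comm]

lemma exists_le_avg [Nonempty α] (f : α → ℝ) : ∃ a, f a ≤ avg f := by
  by_contra h
  push Not at h
  have h1 : ∑ _a : α, avg f < ∑ a, f a :=
    Finset.sum_lt_sum_of_nonempty Finset.univ_nonempty fun a _ => h a
  have hc : (0 : ℝ) < Fintype.card α := by exact_mod_cast Fintype.card_pos
  simp only [Finset.sum_const, Finset.card_univ, nsmul_eq_mul] at h1
  have h2 : (Fintype.card α : ℝ) * avg f = ∑ a, f a := by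
    unfold avg; field_simp
  linarith

lemma exists_ge_avg [Nonempty α] (f : α → ℝ) : ∃ a, avg f ≤ f a := by
  obtain ⟨a, ha⟩ := exists_le_avg (fun a => - f a)
  refine ⟨a, ?_⟩
  have : avg (fun a => - f a) = - avg f := by
    have := avg_mul_left (-1) f
    simpa using this
  linarith

/-- Cauchy-Schwarz for averages. -/
lemma avg_sq_le [Nonempty α] (f : α → ℝ) : (avg f) ^ 2 ≤ avg fun a => f a ^ 2 := by
  have h0 : 0 ≤ avg fun a => (f a - avg f) ^ 2 := avg_nonneg fun a => sq_nonneg _
  have h1 : (avg fun a => (f a - avg f) ^ 2) = (avg fun a => f a ^ 2) - (avg f) ^ 2 := by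
    have : (fun a => (f a - avg f) ^ 2) =
        fun a => (f a ^ 2 - (2 * avg f) * f a) + avg f ^ 2 := by
      funext a; ring
    rw [this, avg_add, avg_sub, avg_mul_left, avg_const]
    ring
  linarith

end basic

section pi

variable {V α : Type*} [Fintype V] [DecidableEq V] [Fintype α]

lemma avg_pi_split (v : V) (g : α → ({w // w ≠ v} → α) → ℝ) :
    avg (fun f : V → α => g (f v) fun w => f w) = avg fun a => avg fun h => g a h := by
  have := avg_equiv (Equiv.funSplitAt v α) (fun p => g p.1 p.2)
  rw [avg_prod] at this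
  exact this

/-- A function of one coordinate. -/
lemma avg_pi_single [Nonempty α] (v : V) (g : α → ℝ) : avg (fun f : V → α => g (f v)) = avg g := by
  have := avg_pi_split v (fun a (_ : {w // w ≠ v} → α) => g a)
  rw [this]
  refine congrArg avg (funext fun a => ?_)
  exact avg_const _

/-- A function of two coordinates. -/
lemma avg_pi_pair [Nonempty α] {v v' : V} (hv : v ≠ v') (g : α → α → ℝ) :
    avg (fun f : V → α => g (f v) (f v')) = avg fun a => avg fun b => g a b := by
  have := avg_pi_split v (fun a (h : {w // w ≠ v} → α) => g a (h ⟨v', hv.symm⟩))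
  rw [this]
  refine congrArg avg (funext fun a => ?_)
  exact avg_pi_single (⟨v', hv.symm⟩ : {w // w ≠ v}) (fun b => g a b)

end pi

section perm

variable {L : Type} [Fintype L] [DecidableEq L]

lemma avg_perm_inv (f : Equiv.Perm L → ℝ) : avg (fun σ => f σ⁻¹) = avg f :=
  avg_equiv (Equiv.inv (Equiv.Perm L)) f

/-- The image of an embedded tuple under a random permutation is a random embedded tuple. -/
lemma avg_perm_embedding {k : ℕ} (a : Fin k ↪ L) (f : (Fin k ↪ L) → ℝ) :
    avg (fun σ : Equiv.Perm L => f (a.trans σ.toEmbedding)) = avg f := by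
  -- the average does not depend on `a`
  have h1 : ∀ b : Fin k ↪ L, avg (fun σ : Equiv.Perm L => f (b.trans σ.toEmbedding)) =
      avg (fun σ : Equiv.Perm L => f (a.trans σ.toEmbedding)) := by
    intro b
    obtain ⟨τ, hτ⟩ := Equiv.Perm.exists_smul_eq_embedding b a
    rw [← avg_equiv (Equiv.mulRight τ) (fun σ => f (b.trans σ.toEmbedding))]
    refine congrArg avg (funext fun σ => congrArg f ?_)
    ext i
    have := DFunLike.congr_fun hτ i
    simp only [Equiv.coe_mulRight, Function.Embedding.trans_apply, Equiv.coe_toEmbedding,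
      Equiv.Perm.mul_apply]
    rw [← this]
    rfl
  have h2 : avg (fun b : Fin k ↪ L => avg fun σ : Equiv.Perm L => f (b.trans σ.toEmbedding)) =
      avg (fun σ : Equiv.Perm L => f (a.trans σ.toEmbedding)) := by
    have : Nonempty (Fin k ↪ L) := ⟨a⟩
    simp only [h1]
    exact avg_const _
  rw [← h2, avg_comm]
  have h3 : ∀ σ : Equiv.Perm L, avg (fun b : Fin k ↪ L => f (b.trans σ.toEmbedding)) = avg f := by
    intro σ
    let e : (Fin k ↪ L) ≃ (Fin k ↪ L) :=
      { toFun := fun b => b.trans σ.toEmbedding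
        invFun := fun b => b.trans (σ⁻¹ : Equiv.Perm L).toEmbedding
        left_inv := fun b => by ext i; simp
        right_inv := fun b => by ext i; simp }
    exact avg_equiv e f
  simp only [h3]
  exact avg_const _

end perm

end Pool.Agent.Lib.P325f1f.Gadget
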