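import Mathlib

/-!
# Label cover, unique games and gadget reductions

The definitions used by the gadget barriers for the Unique Games Conjecture.
-/

set_option autoImplicit false

open scoped Classical
open Finset

noncomputable section

namespace Pool.Agent.Lib.P325f1f.Gadget

/-- Every fibre of `π : L → R` has exactly `d` elements. -/
def IsDToOne {L R : Type} (d : ℕ) (π : L → R) : Prop :=
  ∀ r : R, Nat.card {x : L // π x = r} = d

/-- A label cover (projection game) instance: a finite bipartite graph with a nonempty edge set and
a projection `proj u v : L → R` for every edge `(u, v)`. -/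
structure LabelCover (L R : Type) where
  /-- the left vertices, with label set `L` -/
  U : Type
  /-- the right vertices, with label set `R` -/
  V : Type
  /-- the edges -/
  edges : Finset (U × V)
  edges_nonempty : edges.Nonempty
  /-- the projections -/
  proj : U → V → L → R

/-- All projections on edges are `d`-to-one. -/
def LabelCover.DToOne {L R : Type} (Λ : LabelCover L R) (d : ℕ) : Prop :=
  ∀ e ∈ Λ.edges, IsDToOne d (Λ.proj e.1 e.2)

/-- The value of the label cover instance is at most `s`: no labelling satisfies more than an `s`
fraction of the edges. -/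
def LabelCover.ValueAtMost {L R : Type} (Λ : LabelCover L R) (s : ℝ) : Prop :=
  ∀ (a : Λ.U → L) (b : Λ.V → R),
    (Nat.card {e : Λ.U × Λ.V // e ∈ Λ.edges ∧ Λ.proj e.1 e.2 (a e.1) = b e.2} : ℝ) ≤
      s * Λ.edges.card

/-- A unique game with real weights: finitely many constraints `t`, each of which asks that the
permutation `perm t` of the alphabet `Q` maps the value of `left t` to the value of `right t`. -/
structure UniqueGame (X Q : Type) where
  /-- the index set of the constraints -/
  T : Type
  [fT : Fintype T]
  /-- the weights -/
  w : T → ℝ
  /-- the first variable of a constraint -/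
  left : T → X
  /-- the second variable of a constraint -/
  right : T → X
  /-- the bijection of a constraint -/
  perm : T → Equiv.Perm Q

attribute [instance] UniqueGame.fT

/-- The total weight of the constraints satisfied by the assignment `f`. -/
def UniqueGame.satisfied {X Q : Type} (G : UniqueGame X Q) (f : X → Q) : ℝ :=
  ∑ t, G.w t * (if G.perm t (f (G.left t)) = f (G.right t) then 1 else 0)

/-- The weights are nonnegative and sum to one. -/
def UniqueGame.Normalized {X Q : Type} (G : UniqueGame X Q) : Prop :=
  (∀ t, 0 ≤ G.w t) ∧ ∑ t, G.w t = 1

/-- A gadget system from label cover with label sets `L`, `R` to unique games with alphabet `Q`: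
a block of variables `I` for each left vertex, a block `J` for each right vertex, auxiliary
variables `A` for each edge, the honest encodings `F` and `H` of labels in the two kinds of
blocks, and for each projection a normalized unique game on one left block, one right block and
one set of auxiliary variables. -/
structure GadgetSystem (L R Q : Type) where
  /-- variables of the block of a left vertex -/
  I : Type
  /-- variables of the block of a right vertex -/
  J : Type
  /-- auxiliary variables of an edge -/
  A : Type
  /-- honest encoding of a left label -/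
  F : I → L → Q
  /-- honest encoding of a right label -/
  H : J → R → Q
  /-- the unique game placed on an edge with the given projection -/
  gadget : (L → R) → UniqueGame (I ⊕ (J ⊕ A)) Q
  normalized : ∀ π, (gadget π).Normalized

/-- The honest local assignment for the labels `x` and `π x`, with values `α` of the auxiliary
variables. -/
def GadgetSystem.honest {L R Q : Type} (G : GadgetSystem L R Q) (π : L → R) (x : L)
    (α : G.A → Q) : G.I ⊕ (G.J ⊕ G.A) → Q :=
  Sum.elim (fun i => G.F i x) (Sum.elim (fun j => G.H j (π x)) α)

/-- Completeness at least `c`, on average over the left label: for every `d`-to-one projection `π`,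
the honest assignments of the labels `x, π x` (with suitable values of the auxiliary variables)
satisfy on average over `x` at least a `c` fraction of the gadget of `π`. -/
def GadgetSystem.Complete {L R Q : Type} [Fintype L] (G : GadgetSystem L R Q) (d : ℕ) (c : ℝ) :
    Prop :=
  ∀ π : L → R, IsDToOne d π → ∃ α : L → G.A → Q,
    c * Fintype.card L ≤ ∑ x, (G.gadget π).satisfied (G.honest π x (α x))

/-- The variables of the composed unique game: a block `I` for each left vertex, a block `J` for
each right vertex and auxiliary variables `A` for each pair `(u, v)`. -/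
abbrev ComposedVar {L R Q : Type} (Λ : LabelCover L R) (G : GadgetSystem L R Q) : Type :=
  (Λ.U × G.I) ⊕ ((Λ.V × G.J) ⊕ ((Λ.U × Λ.V) × G.A))

/-- The variables of the gadget of the edge `(u, v)` as variables of the composed unique game. -/
def embed {L R Q : Type} (Λ : LabelCover L R) (G : GadgetSystem L R Q) (u : Λ.U) (v : Λ.V) :
    G.I ⊕ (G.J ⊕ G.A) → ComposedVar Λ G :=
  Sum.map (fun i => (u, i)) (Sum.map (fun j => (v, j)) (fun a => ((u, v), a)))

/-- The gadget of the edge `e`. -/
def edgeGadget {L R Q : Type} (Λ : LabelCover L R) (G : GadgetSystem L R Q) (e : Λ.edges) :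
    UniqueGame (G.I ⊕ (G.J ⊕ G.A)) Q :=
  G.gadget (Λ.proj e.1.1 e.1.2)

/-- The constraints of the composed unique game: an edge and a constraint of its gadget. -/
abbrev Constraint {L R Q : Type} (Λ : LabelCover L R) (G : GadgetSystem L R Q) : Type :=
  Σ e : Λ.edges, (edgeGadget Λ G e).T

/-- The weight of a constraint of the composed unique game. -/
def cWeight {L R Q : Type} (Λ : LabelCover L R) (G : GadgetSystem L R Q) (t : Constraint Λ G) :
    ℝ :=
  (edgeGadget Λ G t.1).w t.2 / Λ.edges.card

/-- The first variable of a constraint of the composed unique game. -/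
def cLeft {L R Q : Type} (Λ : LabelCover L R) (G : GadgetSystem L R Q) (t : Constraint Λ G) :
    ComposedVar Λ G :=
  embed Λ G t.1.1.1 t.1.1.2 ((edgeGadget Λ G t.1).left t.2)

/-- The second variable of a constraint of the composed unique game. -/
def cRight {L R Q : Type} (Λ : LabelCover L R) (G : GadgetSystem L R Q) (t : Constraint Λ G) :
    ComposedVar Λ G :=
  embed Λ G t.1.1.1 t.1.1.2 ((edgeGadget Λ G t.1).right t.2)

/-- The bijection of a constraint of the composed unique game. -/
def cPerm {L R Q : Type} (Λ : LabelCover L R) (G : GadgetSystem L R Q) (t : Constraint Λ G) :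
    Equiv.Perm Q :=
  (edgeGadget Λ G t.1).perm t.2

/-- The unique game obtained from the label cover instance `Λ` by the gadget system `G`: every edge
`(u, v)` is replaced by the gadget of its projection, with weight `1 / |E|`, on the block of
`u`, the block of `v` and its own auxiliary variables. -/
def compose {L R Q : Type} (Λ : LabelCover L R) (G : GadgetSystem L R Q) :
    UniqueGame (ComposedVar Λ G) Q where
  T := Constraint Λ G
  w := cWeight Λ G
  left := cLeft Λ G
  right := cRight Λ G
  perm := cPerm Λ G

lemma compose_satisfied {L R Q : Type} (Λ : LabelCover L R) (G : GadgetSystem L R Q)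
    (f : ComposedVar Λ G → Q) :
    (compose Λ G).satisfied f =
      (∑ e ∈ Λ.edges, (G.gadget (Λ.proj e.1 e.2)).satisfied (f ∘ embed Λ G e.1 e.2)) /
        Λ.edges.card := by
  have h1 : (compose Λ G).satisfied f = ∑ t : Constraint Λ G, cWeight Λ G t *
      (if cPerm Λ G t (f (cLeft Λ G t)) = f (cRight Λ G t) then 1 else 0) := rfl
  have h2 : ∀ e : Λ.edges, ∑ t : (edgeGadget Λ G e).T, cWeight Λ G ⟨e, t⟩ *
      (if cPerm Λ G ⟨e, t⟩ (f (cLeft Λ G ⟨e, t⟩)) = f (cRight Λ G ⟨e, t⟩) then 1 else 0) =
      (G.gadget (Λ.proj e.1.1 e.1.2)).satisfied (f ∘ embed Λ G e.1.1 e.1.2) / Λ.edges.card := by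
    intro e
    unfold UniqueGame.satisfied
    rw [Finset.sum_div]
    refine Finset.sum_congr rfl fun t _ => ?_
    unfold cWeight cPerm cLeft cRight
    simp only [Function.comp_apply]
    rw [div_mul_eq_mul_div]
    rfl
  rw [h1, Fintype.sum_sigma, Finset.sum_congr rfl fun e _ => h2 e, ← Finset.sum_div]
  congr 1
  exact Finset.sum_coe_sort Λ.edges
    (fun e => (G.gadget (Λ.proj e.1 e.2)).satisfied (f ∘ embed Λ G e.1 e.2))

end Pool.Agent.Lib.P325f1f.Gadget
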