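import Pool.Agent.Lib.P325f1f.GadgetPerm

/-!
# Typed and untyped variables: the level of a function with respect to a partition into blocks
-/

set_option autoImplicit false

open scoped Classical
open Finset

noncomputable section

namespace Pool.Agent.Lib.P325f1f.Gadget

variable {R d : ℕ} {Q : Type}

/-- Indicator of `F x ≠ F y`. -/
def dis (F : Fin R × Fin d → Q) (x y : Fin R × Fin d) : ℝ := if F x = F y then 0 else 1

lemma dis_nonneg (F : Fin R × Fin d → Q) (x y : Fin R × Fin d) : 0 ≤ dis F x y := by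
  unfold dis; split_ifs <;> norm_num

lemma dis_le_one (F : Fin R × Fin d → Q) (x y : Fin R × Fin d) : dis F x y ≤ 1 := by
  unfold dis; split_ifs <;> norm_num

lemma dis_self (F : Fin R × Fin d → Q) (x : Fin R × Fin d) : dis F x x = 0 := by
  simp [dis]

/-- Indicator of `f x ≠ g x`. -/
def neq (f g : Fin R × Fin d → Q) (x : Fin R × Fin d) : ℝ := if f x = g x then 0 else 1

lemma neq_nonneg (f g : Fin R × Fin d → Q) (x : Fin R × Fin d) : 0 ≤ neq f g x := by
  unfold neq; split_ifs <;> norm_num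

lemma neq_symm (f g : Fin R × Fin d → Q) : neq f g = neq g f := by
  funext x; simp [neq, eq_comm]

lemma dis_le (f g : Fin R × Fin d → Q) (x y : Fin R × Fin d) :
    dis f x y ≤ dis g x y + (neq f g x + neq f g y) := by
  unfold dis neq
  by_cases h1 : f x = g x
  · by_cases h2 : f y = g y
    · rw [h1, h2]; simp
    · rw [if_pos h1, if_neg h2]
      split_ifs <;> norm_num
  · rw [if_neg h1]
    split_ifs <;> norm_num

lemma off_sum (h : Fin d → ℝ) : ∑ p : Off d, h p.1.1 = ((d : ℝ) - 1) * ∑ z, h z := by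
  have h1 : ∑ p : Off d, h p.1.1 = ∑ p : Fin d × Fin d, if p.1 ≠ p.2 then h p.1 else 0 := by
    rw [← Finset.sum_filter]
    exact (Finset.sum_subtype (univ.filter fun p : Fin d × Fin d => p.1 ≠ p.2)
      (fun p => by simp) (fun p => h p.1)).symm
  rw [h1, Fintype.sum_prod_type, Finset.mul_sum]
  refine Finset.sum_congr rfl fun z _ => ?_
  dsimp only
  rw [← Finset.sum_filter, Finset.sum_const, nsmul_eq_mul]
  congr 1
  have : (univ.filter fun z' : Fin d => z ≠ z') = univ.erase z := by
    ext z'; simp [eq_comm]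
  rw [this, Finset.card_erase_of_mem (Finset.mem_univ _), Finset.card_univ, Fintype.card_fin]
  have : 1 ≤ d := by have := z.2; omega
  push_cast [Nat.cast_sub this]
  ring

lemma off_sum' (h : Fin d → ℝ) : ∑ p : Off d, h p.1.2 = ((d : ℝ) - 1) * ∑ z, h z := by
  rw [← off_sum h]
  let e : Off d ≃ Off d :=
    { toFun := fun p => ⟨(p.1.2, p.1.1), fun h => p.2 h.symm⟩
      invFun := fun p => ⟨(p.1.2, p.1.1), fun h => p.2 h.symm⟩
      left_inv := fun p => rfl
      right_inv := fun p => rfl }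
  exact Equiv.sum_comp e (fun p => h p.1.1)

lemma off_card : (Fintype.card (Off d) : ℝ) = ((d : ℝ) - 1) * d := by
  have := off_sum (d := d) (fun _ => 1)
  simpa using this

lemma off_avg (hd : 2 ≤ d) (h : Fin d → ℝ) : (avg fun p : Off d => h p.1.1) = avg h := by
  unfold avg
  rw [off_sum, off_card, Fintype.card_fin]
  have : (2 : ℝ) ≤ d := by exact_mod_cast hd
  have h1 : (d : ℝ) - 1 ≠ 0 := by linarith
  have h2 : (d : ℝ) ≠ 0 := by linarith
  field_simp

lemma off_avg' (hd : 2 ≤ d) (h : Fin d → ℝ) : (avg fun p : Off d => h p.1.2) = avg h := by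
  unfold avg
  rw [off_sum', off_card, Fintype.card_fin]
  have : (2 : ℝ) ≤ d := by exact_mod_cast hd
  have h1 : (d : ℝ) - 1 ≠ 0 := by linarith
  have h2 : (d : ℝ) ≠ 0 := by linarith
  field_simp

lemma blockAvg_left (hd : 2 ≤ d) (σ : Equiv.Perm (Fin R × Fin d)) (h : Fin R × Fin d → ℝ) :
    blockAvg σ (fun x _ => h x) = avg h := by
  unfold blockAvg
  have : ∀ y : Fin R, (avg fun p : Off d => h (σ (y, p.1.1))) = avg fun z => h (σ (y, z)) :=
    fun y => off_avg hd (fun z => h (σ (y, z)))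
  simp only [this]
  rw [← avg_prod (fun x : Fin R × Fin d => h (σ x))]
  exact avg_equiv σ h

lemma blockAvg_right (hd : 2 ≤ d) (σ : Equiv.Perm (Fin R × Fin d)) (h : Fin R × Fin d → ℝ) :
    blockAvg σ (fun _ x => h x) = avg h := by
  unfold blockAvg
  have : ∀ y : Fin R, (avg fun p : Off d => h (σ (y, p.1.2))) = avg fun z => h (σ (y, z)) :=
    fun y => off_avg' hd (fun z => h (σ (y, z)))
  simp only [this]
  rw [← avg_prod (fun x : Fin R × Fin d => h (σ x))]
  exact avg_equiv σ h

lemma blockAvg_add (σ : Equiv.Perm (Fin R × Fin d)) (G G' : Fin R × Fin d → Fin R × Fin d → ℝ) :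
    blockAvg σ (fun x y => G x y + G' x y) = blockAvg σ G + blockAvg σ G' := by
  unfold blockAvg
  rw [← avg_add]
  refine congrArg avg (funext fun y => ?_)
  rw [← avg_add]

lemma allAvg_add (G G' : Fin R × Fin d → Fin R × Fin d → ℝ) :
    allAvg (fun x y => G x y + G' x y) = allAvg G + allAvg G' := by
  unfold allAvg
  rw [← avg_add]
  refine congrArg avg (funext fun y => ?_)
  rw [← avg_add]

/-- `N F` is the probability that `F` differs on two random labels. -/
def N (F : Fin R × Fin d → Q) : ℝ := allAvg (dis F)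

/-- `Dis σ F` is the probability that `F` differs on two random distinct labels of a block. -/
def Dis (σ : Equiv.Perm (Fin R × Fin d)) (F : Fin R × Fin d → Q) : ℝ := blockAvg σ (dis F)

lemma N_nonneg (F : Fin R × Fin d → Q) : 0 ≤ N F := allAvg_nonneg (dis_nonneg F)

lemma Dis_nonneg (σ : Equiv.Perm (Fin R × Fin d)) (F : Fin R × Fin d → Q) : 0 ≤ Dis σ F :=
  blockAvg_nonneg σ (dis_nonneg F)

lemma N_le_one [Nonempty (Fin R × Fin d)] (F : Fin R × Fin d → Q) : N F ≤ 1 :=
  avg_le_of_le fun x => avg_le_of_le fun y => dis_le_one F x y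

lemma N_lip [Nonempty (Fin R × Fin d)] (f g : Fin R × Fin d → Q) :
    N f ≤ N g + 2 * avg (neq f g) := by
  unfold N
  have h1 : allAvg (dis f) ≤ allAvg (fun x y => dis g x y + (neq f g x + neq f g y)) :=
    avg_mono fun x => avg_mono fun y => dis_le f g x y
  have h2 : allAvg (fun x y => neq f g x + neq f g y) = 2 * avg (neq f g) := by
    rw [allAvg_add (fun x _ => neq f g x) (fun _ y => neq f g y)]
    unfold allAvg
    simp only [avg_const]
    ring
  rw [allAvg_add (dis g) (fun x y => neq f g x + neq f g y), h2] at h1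
  exact h1

lemma Dis_lip (hd : 2 ≤ d) (σ : Equiv.Perm (Fin R × Fin d)) (f g : Fin R × Fin d → Q) :
    Dis σ f ≤ Dis σ g + 2 * avg (neq f g) := by
  unfold Dis
  have h1 : blockAvg σ (dis f) ≤ blockAvg σ (fun x y => dis g x y + (neq f g x + neq f g y)) :=
    blockAvg_mono σ fun x y => dis_le f g x y
  have h2 : blockAvg σ (fun x y => neq f g x + neq f g y) = 2 * avg (neq f g) := by
    rw [blockAvg_add σ (fun x _ => neq f g x) (fun _ y => neq f g y), blockAvg_left hd,
      blockAvg_right hd]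
    ring
  rw [blockAvg_add σ (dis g) (fun x y => neq f g x + neq f g y), h2] at h1
  exact h1

/-- The probability that a random permutation gives too few differences is small on average. -/
lemma avg_deficit_le (hd : 2 ≤ d) (hR : 6 ≤ R) (F : Fin R × Fin d → Q) :
    (avg fun σ => max (N F - Dis σ F) 0) ≤ Real.sqrt (8 / R) := by
  have : Nonempty (Fin R × Fin d) := ⟨(⟨0, by omega⟩, ⟨0, by omega⟩)⟩
  have hR0 : (0 : ℝ) < R := by exact_mod_cast (by omega : 0 < R)
  have hN0 := N_nonneg F
  have hN1 := N_le_one F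
  have m1 : N F ≤ avg fun σ => Dis σ F :=
    allAvg_le_avg_blockAvg hd hR (dis_nonneg F) (dis_self F)
  have m2 : (avg fun σ => (Dis σ F) ^ 2) ≤ (1 + 6 / R) * (N F) ^ 2 + 12 / 11 * N F / R :=
    avg_blockAvg_sq_le hd hR (dis_nonneg F) (dis_le_one F)
  refine Real.le_sqrt_of_sq_le ?_
  refine (avg_sq_le _).trans ?_
  have h1 : (avg fun σ : Equiv.Perm (Fin R × Fin d) => (max (N F - Dis σ F) 0) ^ 2) ≤
      avg fun σ : Equiv.Perm (Fin R × Fin d) => (N F) ^ 2 - (2 * N F) * Dis σ F + (Dis σ F) ^ 2 := by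
    refine avg_mono fun σ => ?_
    rcases le_total (N F - Dis σ F) 0 with h | h
    · rw [max_eq_right h]
      nlinarith [sq_nonneg (N F - Dis σ F)]
    · rw [max_eq_left h]
      nlinarith
  refine h1.trans ?_
  rw [avg_add, avg_sub, avg_mul_left, avg_const]
  have h2 : N F ^ 2 - 2 * N F * (avg fun σ => Dis σ F) ≤ - N F ^ 2 := by nlinarith
  have h3 : N F ^ 2 ≤ 1 := by nlinarith
  have h4 : 6 / (R : ℝ) * N F ^ 2 ≤ 6 / R * 1 := mul_le_mul_of_nonneg_left h3 (by positivity)
  have h5 : 12 / 11 * N F / (R : ℝ) ≤ 12 / 11 / R := by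
    refine div_le_div_of_nonneg_right ?_ hR0.le
    linarith
  have h6 : 6 / (R : ℝ) * 1 + 12 / 11 / R ≤ 8 / R := by
    rw [mul_one, ← add_div]
    refine div_le_div_of_nonneg_right (by norm_num) hR0.le
  nlinarith

/-- The normalised number of differences inside the blocks, truncated at one. -/
def ratio (σ : Equiv.Perm (Fin R × Fin d)) (F : Fin R × Fin d → Q) : ℝ := min 1 (Dis σ F / N F)

/-- The level of `F`; small for functions that are nearly constant on the blocks. -/
def lev (σ : Equiv.Perm (Fin R × Fin d)) (F : Fin R × Fin d → Q) : ℝ :=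
  (4 * ratio σ F - ratio σ F ^ 2) / 3

lemma ratio_nonneg (σ : Equiv.Perm (Fin R × Fin d)) (F : Fin R × Fin d → Q) : 0 ≤ ratio σ F :=
  le_min zero_le_one (div_nonneg (Dis_nonneg σ F) (N_nonneg F))

lemma ratio_le_one (σ : Equiv.Perm (Fin R × Fin d)) (F : Fin R × Fin d → Q) : ratio σ F ≤ 1 :=
  min_le_left _ _

lemma lev_nonneg (σ : Equiv.Perm (Fin R × Fin d)) (F : Fin R × Fin d → Q) : 0 ≤ lev σ F := by
  unfold lev
  have := ratio_nonneg σ F
  have := ratio_le_one σ F
  nlinarith

lemma lev_le_one (σ : Equiv.Perm (Fin R × Fin d)) (F : Fin R × Fin d → Q) : lev σ F ≤ 1 := by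
  unfold lev
  have := ratio_nonneg σ F
  have := ratio_le_one σ F
  nlinarith

lemma Dis_eq_zero_of_N (hd : 2 ≤ d) (hR : 1 ≤ R) (σ : Equiv.Perm (Fin R × Fin d))
    {F : Fin R × Fin d → Q} (h : N F = 0) : Dis σ F = 0 := by
  have hne : Nonempty (Fin R × Fin d) := ⟨(⟨0, by omega⟩, ⟨0, by omega⟩)⟩
  -- `F` is constant
  have hc : ∀ x y, F x = F y := by
    intro x y
    by_contra hxy
    have h1 : (0 : ℝ) < ∑ x, ∑ y, dis F x y := by
      refine lt_of_lt_of_le (show (0 : ℝ) < dis F x y by simp [dis, hxy]) ?_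
      refine (Finset.single_le_sum (f := fun y => dis F x y) (fun y _ => dis_nonneg F x y)
        (Finset.mem_univ y)).trans ?_
      exact Finset.single_le_sum (f := fun x => ∑ y, dis F x y)
        (fun x _ => Finset.sum_nonneg fun y _ => dis_nonneg F x y) (Finset.mem_univ x)
    have h2 : N F = (∑ x, ∑ y, dis F x y) / ((Fintype.card (Fin R × Fin d) : ℝ) ^ 2) :=
      allAvg_eq _
    have h3 : (0 : ℝ) < (Fintype.card (Fin R × Fin d) : ℝ) := by
      exact_mod_cast Fintype.card_pos
    have h4 : 0 < N F := by rw [h2]; positivity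
    linarith
  unfold Dis blockAvg
  have : ∀ x y, dis F x y = 0 := fun x y => by simp [dis, hc x y]
  simp only [this]
  have := off_nonempty hd
  have : Nonempty (Fin R) := ⟨⟨0, hR⟩⟩
  simp [avg_const]

lemma N_mul_ratio (hd : 2 ≤ d) (hR : 1 ≤ R) (σ : Equiv.Perm (Fin R × Fin d))
    (F : Fin R × Fin d → Q) : ratio σ F * N F ≤ Dis σ F ∧
      (ratio σ F < 1 → ratio σ F * N F = Dis σ F) := by
  rcases (N_nonneg F).eq_or_lt with h | h
  · have h0 := Dis_eq_zero_of_N hd hR σ h.symm
    rw [← h, h0]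
    simp
  · constructor
    · calc ratio σ F * N F ≤ Dis σ F / N F * N F :=
            mul_le_mul_of_nonneg_right (min_le_right _ _) h.le
        _ = Dis σ F := by field_simp
    · intro h1
      have : ratio σ F = Dis σ F / N F := by
        unfold ratio at h1 ⊢
        rcases min_choice 1 (Dis σ F / N F) with h2 | h2
        · rw [h2] at h1; exact absurd h1 (lt_irrefl _)
        · exact h2
      rw [this]
      field_simp

/-- The cut inequality. -/
lemma cut_le (hd : 2 ≤ d) (hR : 1 ≤ R) (σ : Equiv.Perm (Fin R × Fin d))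
    (f g : Fin R × Fin d → Q) (h : lev σ f ≤ lev σ g) :
    (lev σ g - lev σ f) * N g ≤ 3 * avg (neq f g) := by
  have hne : Nonempty (Fin R × Fin d) := ⟨(⟨0, by omega⟩, ⟨0, by omega⟩)⟩
  set p := avg (neq f g) with hp
  have hp0 : 0 ≤ p := avg_nonneg (neq_nonneg f g)
  have a0 := ratio_nonneg σ f
  have a1 := ratio_le_one σ f
  have b0 := ratio_nonneg σ g
  have b1 := ratio_le_one σ g
  obtain ⟨f1, f2⟩ := N_mul_ratio hd hR σ f
  obtain ⟨g1, g2⟩ := N_mul_ratio hd hR σ g
  have hD := Dis_lip hd σ g f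
  have hN := N_lip f g
  rw [neq_symm g f, ← hp] at hD
  rw [← hp] at hN
  have hab : ratio σ f ≤ ratio σ g := by
    unfold lev at h
    by_contra hlt
    push Not at hlt
    nlinarith
  rcases a1.eq_or_lt with hf | hf
  · have : ratio σ g = 1 := le_antisymm b1 (by rw [← hf]; exact hab)
    unfold lev
    rw [this, hf]
    simp only [sub_self, zero_mul]
    positivity
  · have hfe := f2 hf
    -- `(r_g - r_f) N_g ≤ 2 p (1 + r_f)`
    have h1 : (ratio σ g - ratio σ f) * N g ≤ 2 * p * (1 + ratio σ f) := by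
      have : ratio σ f * N f ≤ ratio σ f * (N g + 2 * p) := mul_le_mul_of_nonneg_left hN a0
      nlinarith
    have h2 : (lev σ g - lev σ f) * N g =
        (4 - (ratio σ f + ratio σ g)) / 3 * ((ratio σ g - ratio σ f) * N g) := by
      unfold lev; ring
    rw [h2]
    have h3 : (4 - (ratio σ f + ratio σ g)) / 3 * ((ratio σ g - ratio σ f) * N g) ≤
        (4 - (ratio σ f + ratio σ g)) / 3 * (2 * p * (1 + ratio σ f)) :=
      mul_le_mul_of_nonneg_left h1 (by linarith)
    have h4 : (4 - (ratio σ f + ratio σ g)) / 3 * (2 * p * (1 + ratio σ f)) ≤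
        (4 - 2 * ratio σ f) / 3 * (2 * p * (1 + ratio σ f)) :=
      mul_le_mul_of_nonneg_right (by linarith) (by positivity)
    have h5 : (4 - 2 * ratio σ f) / 3 * (2 * p * (1 + ratio σ f)) ≤ 3 * p := by
      have : (4 - 2 * ratio σ f) * (1 + ratio σ f) ≤ 9 / 2 := by
        nlinarith [sq_nonneg (ratio σ f - 1 / 2)]
      nlinarith
    linarith

lemma lev_eq_zero_of_Dis {σ : Equiv.Perm (Fin R × Fin d)} {F : Fin R × Fin d → Q}
    (h : Dis σ F = 0) : lev σ F = 0 := by
  unfold lev ratio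
  rw [h]
  simp

lemma one_sub_lev_mul (hd : 2 ≤ d) (hR : 1 ≤ R) (σ : Equiv.Perm (Fin R × Fin d))
    (F : Fin R × Fin d → Q) : (1 - lev σ F) * N F ≤ max (N F - Dis σ F) 0 := by
  obtain ⟨f1, f2⟩ := N_mul_ratio hd hR σ F
  have a0 := ratio_nonneg σ F
  have a1 := ratio_le_one σ F
  rcases a1.eq_or_lt with hf | hf
  · have : lev σ F = 1 := by unfold lev; rw [hf]; norm_num
    rw [this]
    simp
  · have h1 := f2 hf
    refine le_trans ?_ (le_max_left _ _)
    rw [← h1]
    have h2 : 1 - lev σ F ≤ 1 - ratio σ F := by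
      unfold lev; nlinarith
    calc (1 - lev σ F) * N F ≤ (1 - ratio σ F) * N F :=
          mul_le_mul_of_nonneg_right h2 (N_nonneg F)
      _ = _ := by ring

lemma dis_comp {π : Q → Q} (hπ : Function.Injective π) (F : Fin R × Fin d → Q) :
    dis (fun x => π (F x)) = dis F := by
  funext x y
  unfold dis
  simp only [hπ.eq_iff]

lemma lev_comp {π : Q → Q} (hπ : Function.Injective π) (σ : Equiv.Perm (Fin R × Fin d))
    (F : Fin R × Fin d → Q) : lev σ (fun x => π (F x)) = lev σ F := by
  unfold lev ratio Dis N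
  rw [dis_comp hπ]

/-! ### Thresholds -/

/-- The thresholds `1/n, 2/n, ..., 1`. -/
def thr (n : ℕ) (k : Fin n) : ℝ := ((k : ℕ) + 1 : ℝ) / n

lemma thr_pos {n : ℕ} (k : Fin n) : 0 < thr n k := by
  have : 0 < n := by have := k.2; omega
  unfold thr; positivity

lemma thr_le_one {n : ℕ} (k : Fin n) : thr n k ≤ 1 := by
  have h : 0 < n := by have := k.2; omega
  unfold thr
  rw [div_le_one (by exact_mod_cast h)]
  exact_mod_cast k.2

lemma avg_thr_le {n : ℕ} (hn : 0 < n) {a b : ℝ} (ha : 0 ≤ a) (hab : a ≤ b) :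
    (avg fun k : Fin n => if a < thr n k ∧ thr n k ≤ b then (1 : ℝ) else 0) ≤ (b - a) + 1 / n := by
  have hn0 : (0 : ℝ) < n := by exact_mod_cast hn
  have h1 : (∑ k : Fin n, if a < thr n k ∧ thr n k ≤ b then (1 : ℝ) else 0) =
      ((univ.filter fun k : Fin n => a < thr n k ∧ thr n k ≤ b).card : ℝ) := by
    rw [Finset.card_filter]
    push_cast
    rfl
  have h2 : (univ.filter fun k : Fin n => a < thr n k ∧ thr n k ≤ b).card ≤
      (Finset.Ioc ⌊a * n⌋₊ ⌊b * n⌋₊).card := by
    refine Finset.card_le_card_of_injOn (fun k => (k : ℕ) + 1) ?_ ?_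
    · intro k hk
      have hk : a < thr n k ∧ thr n k ≤ b := by simpa using hk
      unfold thr at hk
      simp only [Finset.coe_Ioc, Set.mem_Ioc]
      constructor
      · rw [Nat.floor_lt (by positivity)]
        have := hk.1
        rw [lt_div_iff₀ hn0] at this
        push_cast
        exact this
      · apply Nat.le_floor
        have := hk.2
        rw [div_le_iff₀ hn0] at this
        push_cast
        exact this
    · intro k _ k' _ h
      simp only [add_left_inj] at h
      exact Fin.ext h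
  have h3 : ((Finset.Ioc ⌊a * n⌋₊ ⌊b * n⌋₊).card : ℝ) ≤ (b - a) * n + 1 := by
    rw [Nat.card_Ioc]
    have hle : ⌊a * n⌋₊ ≤ ⌊b * n⌋₊ := Nat.floor_le_floor (mul_le_mul_of_nonneg_right hab hn0.le)
    rw [Nat.cast_sub hle]
    have := Nat.floor_le (show 0 ≤ b * n by nlinarith)
    have := Nat.lt_floor_add_one (a * n)
    linarith
  unfold avg
  rw [h1, Fintype.card_fin, div_le_iff₀ hn0]
  have h4 : ((univ.filter fun k : Fin n => a < thr n k ∧ thr n k ≤ b).card : ℝ) ≤
      (Finset.Ioc ⌊a * n⌋₊ ⌊b * n⌋₊).card := by exact_mod_cast h2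
  refine h4.trans (h3.trans (le_of_eq ?_))
  field_simp

end Pool.Agent.Lib.P325f1f.Gadget
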