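import Pool.Agent.Lib.P325f1f.GadgetUniversal

/-!
# Near completeness one: the linear barrier on the universal instance
-/

set_option autoImplicit false

open scoped Classical
open Finset

noncomputable section

namespace Pool.Agent.Lib.P325f1f.Gadget

variable {R d : ℕ} {Q : Type}

section local_analysis

/-- The mixed value of a function: its value at `x` if it is typed for `σ` and at `x'` if not. -/
def mix (σ : Equiv.Perm (Fin R × Fin d)) (θ : ℝ) (φ : Fin R × Fin d → Q)
    (x x' : Fin R × Fin d) : Q := if lev σ φ < θ then φ x else φ x'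

lemma mix_comp {π : Q → Q} (hπ : Function.Injective π) (σ : Equiv.Perm (Fin R × Fin d)) (θ : ℝ)
    (φ : Fin R × Fin d → Q) (x x' : Fin R × Fin d) :
    π (mix σ θ φ x x') = mix σ θ (fun z => π (φ z)) x x' := by
  unfold mix
  rw [lev_comp hπ]
  split_ifs <;> rfl

lemma avg_const_left [Nonempty (Fin R × Fin d)] (h : Fin R × Fin d → ℝ) :
    (avg fun _ : Fin R × Fin d => avg fun x' => h x') = avg h := avg_const _

lemma ind_le (f g : Fin R × Fin d → Q) (x x' : Fin R × Fin d) :
    (if f x = g x' then (0 : ℝ) else 1) ≤ neq f g x + dis g x x' := by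
  unfold neq dis
  by_cases h1 : f x = g x
  · rw [h1]; simp
  · rw [if_neg h1]
    split_ifs <;> norm_num

lemma ind_le' (f g : Fin R × Fin d → Q) (x x' : Fin R × Fin d) :
    (if f x' = g x then (0 : ℝ) else 1) ≤ neq f g x + dis f x x' := by
  unfold neq dis
  by_cases h1 : f x = g x
  · rw [← h1]
    by_cases h2 : f x = f x'
    · simp [h2]
    · simp [h2, Ne.symm h2]
  · rw [if_neg h1]
    split_ifs <;> norm_num

/-- The cost of one constraint under the mixed assignment, for a fixed threshold. -/
lemma mix_cost [Nonempty (Fin R × Fin d)] (σ : Equiv.Perm (Fin R × Fin d)) (θ : ℝ)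
    (f g : Fin R × Fin d → Q) :
    (avg fun x => avg fun x' => if mix σ θ f x x' = mix σ θ g x x' then (0 : ℝ) else 1) ≤
      avg (neq f g) + ((if lev σ f < θ ∧ θ ≤ lev σ g then (1 : ℝ) else 0) * N g +
        (if lev σ g < θ ∧ θ ≤ lev σ f then (1 : ℝ) else 0) * N f) := by
  have hp : 0 ≤ avg (neq f g) := avg_nonneg (neq_nonneg f g)
  have hNf := N_nonneg f
  have hNg := N_nonneg g
  by_cases h1 : lev σ f < θ
  · by_cases h2 : lev σ g < θ
    · have e : ∀ x x', (if mix σ θ f x x' = mix σ θ g x x' then (0 : ℝ) else 1) = neq f g x := by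
        intro x x'; simp [mix, h1, h2, neq]
      simp only [e, avg_const]
      rw [if_neg (by rintro ⟨-, h⟩; linarith), if_neg (by rintro ⟨-, h⟩; linarith)]
      linarith
    · have e : ∀ x x', (if mix σ θ f x x' = mix σ θ g x x' then (0 : ℝ) else 1) ≤
          neq f g x + dis g x x' := by
        intro x x'
        simp only [mix, h1, h2, if_true, if_false]
        exact ind_le f g x x'
      refine (avg_mono fun x => avg_mono fun x' => e x x').trans ?_
      have e2 : (avg fun x => avg fun x' => neq f g x + dis g x x') = avg (neq f g) + N g := by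
        simp only [avg_add, avg_const]
        rfl
      rw [e2, if_pos ⟨h1, not_lt.1 h2⟩, if_neg (by rintro ⟨h, -⟩; exact h2 h)]
      linarith
  · by_cases h2 : lev σ g < θ
    · have e : ∀ x x', (if mix σ θ f x x' = mix σ θ g x x' then (0 : ℝ) else 1) ≤
          neq f g x + dis f x x' := by
        intro x x'
        simp only [mix, h1, h2, if_true, if_false]
        exact ind_le' f g x x'
      refine (avg_mono fun x => avg_mono fun x' => e x x').trans ?_
      have e2 : (avg fun x => avg fun x' => neq f g x + dis f x x') = avg (neq f g) + N f := by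
        simp only [avg_add, avg_const]
        rfl
      rw [e2, if_neg (by rintro ⟨h, -⟩; exact h1 h), if_pos ⟨h2, not_lt.1 h1⟩]
      linarith
    · have e : ∀ x x', (if mix σ θ f x x' = mix σ θ g x x' then (0 : ℝ) else 1) = neq f g x' := by
        intro x x'; simp [mix, h1, h2, neq]
      simp only [e]
      rw [if_neg (by rintro ⟨h, -⟩; exact h1 h), if_neg (by rintro ⟨h, -⟩; exact h2 h)]
      have : (avg fun _ : Fin R × Fin d => avg fun x' => neq f g x') = avg (neq f g) := avg_const _
      rw [this]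
      linarith

/-- The cost of one constraint under the mixed assignment, averaged over the thresholds. -/
lemma mix_cost_avg (hd : 2 ≤ d) (hR : 1 ≤ R) (σ : Equiv.Perm (Fin R × Fin d)) {n : ℕ}
    (hn : 0 < n) (f g : Fin R × Fin d → Q) :
    (avg fun k : Fin n => avg fun x => avg fun x' =>
      if mix σ (thr n k) f x x' = mix σ (thr n k) g x x' then (0 : ℝ) else 1) ≤
      4 * avg (neq f g) + 1 / n := by
  have : Nonempty (Fin R × Fin d) := ⟨(⟨0, by omega⟩, ⟨0, by omega⟩)⟩
  have : Nonempty (Fin n) := ⟨⟨0, hn⟩⟩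
  refine (avg_mono fun k => mix_cost σ (thr n k) f g).trans ?_
  rw [avg_add, avg_const, avg_add, avg_mul_right, avg_mul_right]
  have hNf := N_nonneg f
  have hNg := N_nonneg g
  have hNf1 := N_le_one f
  have hNg1 := N_le_one g
  have hn0 : (0 : ℝ) < n := by exact_mod_cast hn
  have h1n : 0 ≤ 1 / (n : ℝ) := by positivity
  rcases le_total (lev σ f) (lev σ g) with h | h
  · have e1 := avg_thr_le hn (lev_nonneg σ f) h
    have e2 : (avg fun k : Fin n => if lev σ g < thr n k ∧ thr n k ≤ lev σ f then (1 : ℝ) else 0)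
        = 0 := by
      have : ∀ k : Fin n, (if lev σ g < thr n k ∧ thr n k ≤ lev σ f then (1 : ℝ) else 0) = 0 := by
        intro k
        rw [if_neg]
        rintro ⟨h3, h4⟩
        linarith
      simp only [this]
      exact avg_const _
    rw [e2]
    have e3 := mul_le_mul_of_nonneg_right e1 hNg
    have e4 := cut_le hd hR σ f g h
    have e5 : 1 / (n : ℝ) * N g ≤ 1 / n := by
      calc 1 / (n : ℝ) * N g ≤ 1 / n * 1 := mul_le_mul_of_nonneg_left hNg1 h1n
        _ = 1 / n := mul_one _
    nlinarith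
  · have e1 := avg_thr_le hn (lev_nonneg σ g) h
    have e2 : (avg fun k : Fin n => if lev σ f < thr n k ∧ thr n k ≤ lev σ g then (1 : ℝ) else 0)
        = 0 := by
      have : ∀ k : Fin n, (if lev σ f < thr n k ∧ thr n k ≤ lev σ g then (1 : ℝ) else 0) = 0 := by
        intro k
        rw [if_neg]
        rintro ⟨h3, h4⟩
        linarith
      simp only [this]
      exact avg_const _
    rw [e2]
    have e3 := mul_le_mul_of_nonneg_right e1 hNf
    have e4 := cut_le hd hR σ g f h
    rw [neq_symm g f] at e4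
    have e5 : 1 / (n : ℝ) * N f ≤ 1 / n := by
      calc 1 / (n : ℝ) * N f ≤ 1 / n * 1 := mul_le_mul_of_nonneg_left hNf1 h1n
        _ = 1 / n := mul_one _
    nlinarith

end local_analysis

section global_analysis

variable (G : GadgetSystem (Fin R × Fin d) (Fin R) Q)
  (α : Equiv.Perm (Fin R × Fin d) → Fin R × Fin d → G.A → Q)

/-- The honest value of the variable `τ`, as a function of the left label. -/
def phi (σ : Equiv.Perm (Fin R × Fin d)) (τ : G.I ⊕ (G.J ⊕ G.A)) (x : Fin R × Fin d) : Q :=
  G.honest (prj σ) x (α σ x) τ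

variable {D : ℕ}

/-- The assignment of the blocks of the left vertices. -/
def actU (θ : ℝ) (ℓ : Fin D → Fin R × Fin d) (x' : Fin R × Fin d)
    (u : Fin D → Equiv.Perm (Fin R × Fin d)) (i : G.I) : Q :=
  if h : ∃ v, lev (u v) (G.F i) < θ then G.F i (u h.choose (ℓ h.choose)) else G.F i x'

/-- The assignment of the blocks of the right vertices. -/
def actV (ℓ : Fin D → Fin R × Fin d) (v : Fin D) (j : G.J) : Q := G.H j (ℓ v).1

/-- The assignment of the auxiliary variables. -/
def actA (θ : ℝ) (ℓ : Fin D → Fin R × Fin d) (x' : Fin R × Fin d)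
    (u : Fin D → Equiv.Perm (Fin R × Fin d)) (v : Fin D) (a : G.A) : Q :=
  mix (u v) θ (fun x => α (u v) x a) (u v (ℓ v)) x'

/-- The assignment seen by the gadget of the edge `(u, v)`. -/
def act (θ : ℝ) (ℓ : Fin D → Fin R × Fin d) (x' : Fin R × Fin d)
    (u : Fin D → Equiv.Perm (Fin R × Fin d)) (v : Fin D) : G.I ⊕ (G.J ⊕ G.A) → Q :=
  Sum.elim (actU G θ ℓ x' u) (Sum.elim (actV G ℓ v) (actA G α θ ℓ x' u v))

lemma lev_right (hR : 1 ≤ R) (hd : 2 ≤ d) (σ : Equiv.Perm (Fin R × Fin d)) (H : Fin R → Q) :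
    lev σ (fun x => H (prj σ x)) = 0 := by
  refine lev_eq_zero_of_Dis ?_
  unfold Dis blockAvg
  have h1 : ∀ (y : Fin R) (p : Off d), dis (fun x => H (prj σ x)) (σ (y, p.1.1)) (σ (y, p.1.2)) = 0 := by
    intro y p
    simp [dis, prj]
  simp only [h1]
  have := off_nonempty hd
  have : Nonempty (Fin R) := ⟨⟨0, hR⟩⟩
  simp only [avg_const]

/-- The possible confusion of the variable `τ` of the edge `(u, v)` caused by `v'`. -/
def conf (θ : ℝ) (φ : Fin R × Fin d → Q) (σ σ' : Equiv.Perm (Fin R × Fin d))
    (l l' x' : Fin R × Fin d) : ℝ :=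
  (if lev σ' φ < θ then (1 : ℝ) else 0) * (if φ (σ' l') = mix σ θ φ (σ l) x' then 0 else 1)

lemma conf_nonneg (θ : ℝ) (φ : Fin R × Fin d → Q) (σ σ' : Equiv.Perm (Fin R × Fin d))
    (l l' x' : Fin R × Fin d) : 0 ≤ conf θ φ σ σ' l l' x' := by
  unfold conf
  split_ifs <;> norm_num

lemma act_ne (hR : 1 ≤ R) (hd : 2 ≤ d) {θ : ℝ} (hθ : 0 < θ) (ℓ : Fin D → Fin R × Fin d)
    (x' : Fin R × Fin d) (u : Fin D → Equiv.Perm (Fin R × Fin d)) (v : Fin D)
    (τ : G.I ⊕ (G.J ⊕ G.A)) :
    (if act G α θ ℓ x' u v τ = mix (u v) θ (phi G α (u v) τ) (u v (ℓ v)) x' then (0 : ℝ) else 1) ≤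
      ∑ v' ∈ univ.erase v, conf θ (phi G α (u v) τ) (u v) (u v') (ℓ v) (ℓ v') x' := by
  have hnn : 0 ≤ ∑ v' ∈ univ.erase v, conf θ (phi G α (u v) τ) (u v) (u v') (ℓ v) (ℓ v') x' :=
    Finset.sum_nonneg fun v' _ => conf_nonneg _ _ _ _ _ _ _
  by_cases heq : act G α θ ℓ x' u v τ = mix (u v) θ (phi G α (u v) τ) (u v (ℓ v)) x'
  · rw [if_pos heq]; exact hnn
  rw [if_neg heq]
  rcases τ with i | j | a
  · have hphi : phi G α (u v) (Sum.inl i) = G.F i := by
      funext x; rfl
    rw [hphi] at heq ⊢
    have hact : act G α θ ℓ x' u v (Sum.inl i) = actU G θ ℓ x' u i := rfl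
    rw [hact] at heq
    unfold actU at heq
    by_cases h : ∃ v, lev (u v) (G.F i) < θ
    · rw [dif_pos h] at heq
      have hv : h.choose ≠ v := by
        intro hv
        apply heq
        have := h.choose_spec
        rw [hv] at this ⊢
        simp [mix, this]
      refine le_trans ?_ (Finset.single_le_sum (f := fun v' => conf θ (G.F i) (u v) (u v') (ℓ v)
        (ℓ v') x') (fun v' _ => conf_nonneg _ _ _ _ _ _ _)
        (Finset.mem_erase.2 ⟨hv, Finset.mem_univ _⟩))
      unfold conf
      rw [if_pos h.choose_spec, if_neg heq]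
      norm_num
    · rw [dif_neg h] at heq
      exfalso
      apply heq
      have : ¬ lev (u v) (G.F i) < θ := fun h' => h ⟨v, h'⟩
      simp [mix, this]
  · exfalso
    apply heq
    have hphi : phi G α (u v) (Sum.inr (Sum.inl j)) = fun x => G.H j (prj (u v) x) := by
      funext x; rfl
    rw [hphi]
    unfold mix
    rw [lev_right hR hd, if_pos hθ]
    simp [act, actV, prj]
  · exact absurd rfl heq

/-- Average of the confusion over the labels. -/
lemma avg_conf [Nonempty (Fin R × Fin d)] (θ : ℝ) (φ : Fin R × Fin d → Q)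
    (σ σ' : Equiv.Perm (Fin R × Fin d)) {v v' : Fin D} (hv : v ≠ v') :
    (avg fun ℓ : Fin D → Fin R × Fin d => avg fun x' => conf θ φ σ σ' (ℓ v) (ℓ v') x') =
      (if lev σ' φ < θ then (1 : ℝ) else 0) * N φ := by
  rw [avg_pi_pair hv (fun l l' => avg fun x' => conf θ φ σ σ' l l' x')]
  unfold conf
  simp only [avg_mul_left]
  congr 1
  have h1 : (avg fun a => avg fun b => avg fun x' =>
      if φ (σ' b) = mix σ θ φ (σ a) x' then (0 : ℝ) else 1) =
      avg fun a => avg fun b => avg fun x' =>
        if φ b = mix σ θ φ a x' then (0 : ℝ) else 1 := by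
    rw [← avg_equiv σ (fun a => avg fun b => avg fun x' =>
        if φ b = mix σ θ φ a x' then (0 : ℝ) else 1)]
    refine congrArg avg (funext fun a => ?_)
    exact avg_equiv σ' (fun b => avg fun x' => if φ b = mix σ θ φ (σ a) x' then (0 : ℝ) else 1)
  rw [h1]
  by_cases h : lev σ φ < θ
  · have e : ∀ a b x' : Fin R × Fin d, (if φ b = mix σ θ φ a x' then (0 : ℝ) else 1) =
        dis φ b a := by
      intro a b x'; simp [mix, h, dis]
    simp only [e, avg_const]
    rw [avg_comm]
    rfl
  · have e : ∀ a b x' : Fin R × Fin d, (if φ b = mix σ θ φ a x' then (0 : ℝ) else 1) =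
        dis φ b x' := by
      intro a b x'; simp [mix, h, dis]
    simp only [e]
    exact avg_const _

/-- Average of the confusion over the labels, the other permutation and the threshold. -/
lemma avg_conf_le (hd : 2 ≤ d) (hR : 6 ≤ R) {n : ℕ} (hn : 0 < n) (φ : Fin R × Fin d → Q) :
    (avg fun σ' : Equiv.Perm (Fin R × Fin d) => avg fun k : Fin n =>
      (if lev σ' φ < thr n k then (1 : ℝ) else 0) * N φ) ≤ Real.sqrt (8 / R) + 1 / n := by
  have : Nonempty (Fin R × Fin d) := ⟨(⟨0, by omega⟩, ⟨0, by omega⟩)⟩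
  refine le_trans ?_ (add_le_add (avg_deficit_le hd hR φ) le_rfl)
  have h1n : 0 ≤ 1 / (n : ℝ) := by positivity
  have h1 : ∀ σ' : Equiv.Perm (Fin R × Fin d), (avg fun k : Fin n =>
      (if lev σ' φ < thr n k then (1 : ℝ) else 0) * N φ) ≤ max (N φ - Dis σ' φ) 0 + 1 / n := by
    intro σ'
    rw [avg_mul_right]
    have e1 := avg_thr_le hn (lev_nonneg σ' φ) (lev_le_one σ' φ)
    have e2 : (avg fun k : Fin n => if lev σ' φ < thr n k then (1 : ℝ) else 0) =
        avg fun k : Fin n => if lev σ' φ < thr n k ∧ thr n k ≤ 1 then (1 : ℝ) else 0 := by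
      refine congrArg avg (funext fun k => ?_)
      simp [thr_le_one k]
    rw [← e2] at e1
    have e3 := mul_le_mul_of_nonneg_right e1 (N_nonneg φ)
    have e4 := one_sub_lev_mul hd (by omega) σ' φ
    have e5 : 1 / (n : ℝ) * N φ ≤ 1 / n := by
      calc 1 / (n : ℝ) * N φ ≤ 1 / n * 1 := mul_le_mul_of_nonneg_left (N_le_one φ) h1n
        _ = 1 / n := mul_one _
    nlinarith
  refine (avg_mono h1).trans (le_of_eq ?_)
  rw [avg_add, avg_const]

/-- The cost of the gadget of the edge `(u, v)`. -/
def cost (θ : ℝ) (ℓ : Fin D → Fin R × Fin d) (x' : Fin R × Fin d)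
    (u : Fin D → Equiv.Perm (Fin R × Fin d)) (v : Fin D) : ℝ :=
  ∑ t, (G.gadget (prj (u v))).w t *
    (if (G.gadget (prj (u v))).perm t (act G α θ ℓ x' u v ((G.gadget (prj (u v))).left t)) =
      act G α θ ℓ x' u v ((G.gadget (prj (u v))).right t) then 0 else 1)

lemma satisfied_eq (θ : ℝ) (ℓ : Fin D → Fin R × Fin d) (x' : Fin R × Fin d)
    (u : Fin D → Equiv.Perm (Fin R × Fin d)) (v : Fin D) :
    (G.gadget (prj (u v))).satisfied (act G α θ ℓ x' u v) = 1 - cost G α θ ℓ x' u v := by
  have h := (G.normalized (prj (u v))).2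
  have h2 : (G.gadget (prj (u v))).satisfied (act G α θ ℓ x' u v) + cost G α θ ℓ x' u v =
      ∑ t, (G.gadget (prj (u v))).w t := by
    unfold UniqueGame.satisfied cost
    rw [← Finset.sum_add_distrib]
    refine Finset.sum_congr rfl fun t _ => ?_
    split_ifs <;> ring
  linarith

/-- The cost of the constraint `t` for the ideal assignment. -/
def ideal (σ : Equiv.Perm (Fin R × Fin d)) (θ : ℝ) (t : (G.gadget (prj σ)).T)
    (x x' : Fin R × Fin d) : ℝ :=
  if mix σ θ (fun z => (G.gadget (prj σ)).perm t (phi G α σ ((G.gadget (prj σ)).left t) z)) x x' =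
    mix σ θ (phi G α σ ((G.gadget (prj σ)).right t)) x x' then 0 else 1

/-- The confusion term of the constraint `t`. -/
def confT (θ : ℝ) (σ σ' : Equiv.Perm (Fin R × Fin d)) (t : (G.gadget (prj σ)).T)
    (l l' x' : Fin R × Fin d) : ℝ :=
  conf θ (phi G α σ ((G.gadget (prj σ)).left t)) σ σ' l l' x' +
    conf θ (phi G α σ ((G.gadget (prj σ)).right t)) σ σ' l l' x'

lemma cost_le (hR : 1 ≤ R) (hd : 2 ≤ d) {θ : ℝ} (hθ : 0 < θ) (ℓ : Fin D → Fin R × Fin d)
    (x' : Fin R × Fin d) (u : Fin D → Equiv.Perm (Fin R × Fin d)) (v : Fin D) :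
    cost G α θ ℓ x' u v ≤ ∑ t, (G.gadget (prj (u v))).w t *
      (ideal G α (u v) θ t (u v (ℓ v)) x' +
        ∑ v' ∈ univ.erase v, confT G α θ (u v) (u v') t (ℓ v) (ℓ v') x') := by
  unfold cost
  refine Finset.sum_le_sum fun t _ => mul_le_mul_of_nonneg_left ?_
    ((G.normalized (prj (u v))).1 t)
  have hl := act_ne G α hR hd hθ ℓ x' u v ((G.gadget (prj (u v))).left t)
  have hr := act_ne G α hR hd hθ ℓ x' u v ((G.gadget (prj (u v))).right t)
  have hsum : ∑ v' ∈ univ.erase v, confT G α θ (u v) (u v') t (ℓ v) (ℓ v') x' =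
      ∑ v' ∈ univ.erase v, conf θ (phi G α (u v) ((G.gadget (prj (u v))).left t)) (u v) (u v')
        (ℓ v) (ℓ v') x' +
      ∑ v' ∈ univ.erase v, conf θ (phi G α (u v) ((G.gadget (prj (u v))).right t)) (u v) (u v')
        (ℓ v) (ℓ v') x' := by
    unfold confT
    rw [Finset.sum_add_distrib]
  rw [hsum]
  have hideal : ideal G α (u v) θ t (u v (ℓ v)) x' =
      if (G.gadget (prj (u v))).perm t (mix (u v) θ (phi G α (u v)
        ((G.gadget (prj (u v))).left t)) (u v (ℓ v)) x') =
        mix (u v) θ (phi G α (u v) ((G.gadget (prj (u v))).right t)) (u v (ℓ v)) x'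
      then 0 else 1 := by
    unfold ideal
    rw [← mix_comp ((G.gadget (prj (u v))).perm t).injective]
  rw [hideal]
  by_cases h1 : act G α θ ℓ x' u v ((G.gadget (prj (u v))).left t) =
      mix (u v) θ (phi G α (u v) ((G.gadget (prj (u v))).left t)) (u v (ℓ v)) x'
  · by_cases h2 : act G α θ ℓ x' u v ((G.gadget (prj (u v))).right t) =
        mix (u v) θ (phi G α (u v) ((G.gadget (prj (u v))).right t)) (u v (ℓ v)) x'
    · rw [if_pos h1] at hl
      rw [if_pos h2] at hr
      rw [← h1, ← h2]
      linarith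
    · rw [if_pos h1] at hl
      rw [if_neg h2] at hr
      have : (if (G.gadget (prj (u v))).perm t (act G α θ ℓ x' u v
          ((G.gadget (prj (u v))).left t)) =
          act G α θ ℓ x' u v ((G.gadget (prj (u v))).right t) then (0 : ℝ) else 1) ≤ 1 := by
        split_ifs <;> norm_num
      have h3 : (0 : ℝ) ≤ if (G.gadget (prj (u v))).perm t (mix (u v) θ (phi G α (u v)
        ((G.gadget (prj (u v))).left t)) (u v (ℓ v)) x') =
        mix (u v) θ (phi G α (u v) ((G.gadget (prj (u v))).right t)) (u v (ℓ v)) x'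
        then 0 else 1 := by
        split_ifs <;> norm_num
      linarith
  · rw [if_neg h1] at hl
    have hr0 : 0 ≤ ∑ v' ∈ univ.erase v, conf θ (phi G α (u v) ((G.gadget (prj (u v))).right t))
        (u v) (u v') (ℓ v) (ℓ v') x' := Finset.sum_nonneg fun v' _ => conf_nonneg _ _ _ _ _ _ _
    have : (if (G.gadget (prj (u v))).perm t (act G α θ ℓ x' u v
        ((G.gadget (prj (u v))).left t)) =
        act G α θ ℓ x' u v ((G.gadget (prj (u v))).right t) then (0 : ℝ) else 1) ≤ 1 := by
      split_ifs <;> norm_num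
    have h3 : (0 : ℝ) ≤ if (G.gadget (prj (u v))).perm t (mix (u v) θ (phi G α (u v)
      ((G.gadget (prj (u v))).left t)) (u v (ℓ v)) x') =
      mix (u v) θ (phi G α (u v) ((G.gadget (prj (u v))).right t)) (u v (ℓ v)) x'
      then 0 else 1 := by
      split_ifs <;> norm_num
    linarith

/-- Average cost of the honest assignments. -/
lemma honest_cost {ε : ℝ} (hR : 1 ≤ R) (hd : 2 ≤ d) (σ : Equiv.Perm (Fin R × Fin d))
    (hα : (1 - ε) * Fintype.card (Fin R × Fin d) ≤
      ∑ x, (G.gadget (prj σ)).satisfied (G.honest (prj σ) x (α σ x))) :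
    ∑ t, (G.gadget (prj σ)).w t * avg (neq (fun z => (G.gadget (prj σ)).perm t
      (phi G α σ ((G.gadget (prj σ)).left t) z)) (phi G α σ ((G.gadget (prj σ)).right t))) ≤ ε := by
  have hne : Nonempty (Fin R × Fin d) := ⟨(⟨0, by omega⟩, ⟨0, by omega⟩)⟩
  have hn : (0 : ℝ) < Fintype.card (Fin R × Fin d) := by exact_mod_cast Fintype.card_pos
  have h1 : ∀ x, (G.gadget (prj σ)).satisfied (G.honest (prj σ) x (α σ x)) =
      1 - ∑ t, (G.gadget (prj σ)).w t * neq (fun z => (G.gadget (prj σ)).perm t
      (phi G α σ ((G.gadget (prj σ)).left t) z)) (phi G α σ ((G.gadget (prj σ)).right t)) x := by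
    intro x
    have h := (G.normalized (prj σ)).2
    have h2 : (G.gadget (prj σ)).satisfied (G.honest (prj σ) x (α σ x)) +
        ∑ t, (G.gadget (prj σ)).w t * neq (fun z => (G.gadget (prj σ)).perm t
      (phi G α σ ((G.gadget (prj σ)).left t) z)) (phi G α σ ((G.gadget (prj σ)).right t)) x =
        ∑ t, (G.gadget (prj σ)).w t := by
      unfold UniqueGame.satisfied neq phi
      rw [← Finset.sum_add_distrib]
      refine Finset.sum_congr rfl fun t _ => ?_
      split_ifs <;> ring
    linarith
  simp only [h1, Finset.sum_sub_distrib, Finset.sum_const, nsmul_eq_mul, mul_one,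
    Finset.card_univ] at hα
  have h3 : ∑ t, (G.gadget (prj σ)).w t * avg (neq (fun z => (G.gadget (prj σ)).perm t
      (phi G α σ ((G.gadget (prj σ)).left t) z)) (phi G α σ ((G.gadget (prj σ)).right t))) =
      (∑ x, ∑ t, (G.gadget (prj σ)).w t * neq (fun z => (G.gadget (prj σ)).perm t
      (phi G α σ ((G.gadget (prj σ)).left t) z)) (phi G α σ ((G.gadget (prj σ)).right t)) x) /
      Fintype.card (Fin R × Fin d) := by
    rw [Finset.sum_comm, Finset.sum_div]
    refine Finset.sum_congr rfl fun t _ => ?_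
    unfold avg
    rw [← Finset.mul_sum, mul_div_assoc]
  rw [h3, div_le_iff₀ hn]
  linarith

/-- The total average cost of the edges at `v`. -/
lemma avg_cost_le {ε : ℝ} (hd : 2 ≤ d) (hR : 6 ≤ R) {n : ℕ} (hn : 0 < n)
    (hα : ∀ σ : Equiv.Perm (Fin R × Fin d), (1 - ε) * Fintype.card (Fin R × Fin d) ≤
      ∑ x, (G.gadget (prj σ)).satisfied (G.honest (prj σ) x (α σ x))) (v : Fin D) :
    (avg fun k : Fin n => avg fun u : Fin D → Equiv.Perm (Fin R × Fin d) =>
      avg fun ℓ : Fin D → Fin R × Fin d => avg fun x' => cost G α (thr n k) ℓ x' u v) ≤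
      4 * ε + 1 / n + 2 * D * (Real.sqrt (8 / R) + 1 / n) := by
  have hne : Nonempty (Fin R × Fin d) := ⟨(⟨0, by omega⟩, ⟨0, by omega⟩)⟩
  have hnn : Nonempty (Fin n) := ⟨⟨0, hn⟩⟩
  have h1n : 0 ≤ 1 / (n : ℝ) := by positivity
  have hs0 : 0 ≤ Real.sqrt (8 / R) := Real.sqrt_nonneg _
  -- pointwise bound, for fixed `k` and `u`
  have hpt : ∀ (k : Fin n) (u : Fin D → Equiv.Perm (Fin R × Fin d)),
      (avg fun ℓ : Fin D → Fin R × Fin d => avg fun x' => cost G α (thr n k) ℓ x' u v) ≤
      ∑ t, (G.gadget (prj (u v))).w t *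
        ((avg fun x => avg fun x' => ideal G α (u v) (thr n k) t x x') +
        ∑ v' ∈ univ.erase v,
          ((if lev (u v') (phi G α (u v) ((G.gadget (prj (u v))).left t)) < thr n k
              then (1 : ℝ) else 0) * N (phi G α (u v) ((G.gadget (prj (u v))).left t)) +
            (if lev (u v') (phi G α (u v) ((G.gadget (prj (u v))).right t)) < thr n k
              then (1 : ℝ) else 0) * N (phi G α (u v) ((G.gadget (prj (u v))).right t)))) := by
    intro k u
    refine (avg_mono fun ℓ => avg_mono fun x' =>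
      cost_le G α (by omega) hd (thr_pos k) ℓ x' u v).trans (le_of_eq ?_)
    simp only [avg_sum, avg_mul_left, avg_add]
    refine Finset.sum_congr rfl fun t _ => ?_
    congr 1
    congr 1
    · rw [avg_pi_single v (fun l => avg fun x' => ideal G α (u v) (thr n k) t (u v l) x')]
      exact avg_equiv (u v) (fun x => avg fun x' => ideal G α (u v) (thr n k) t x x')
    · refine Finset.sum_congr rfl fun v' hv' => ?_
      have hne' : v ≠ v' := fun h => (Finset.mem_erase.1 hv').1 h.symm
      unfold confT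
      simp only [avg_add]
      rw [avg_conf _ _ _ _ hne', avg_conf _ _ _ _ hne']
  refine (avg_mono fun k => avg_mono fun u => hpt k u).trans ?_
  -- split into the two parts
  have hsplit : ∀ (k : Fin n) (u : Fin D → Equiv.Perm (Fin R × Fin d)),
      ∑ t, (G.gadget (prj (u v))).w t *
        ((avg fun x => avg fun x' => ideal G α (u v) (thr n k) t x x') +
        ∑ v' ∈ univ.erase v,
          ((if lev (u v') (phi G α (u v) ((G.gadget (prj (u v))).left t)) < thr n k
              then (1 : ℝ) else 0) * N (phi G α (u v) ((G.gadget (prj (u v))).left t)) +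
            (if lev (u v') (phi G α (u v) ((G.gadget (prj (u v))).right t)) < thr n k
              then (1 : ℝ) else 0) * N (phi G α (u v) ((G.gadget (prj (u v))).right t)))) =
      (∑ t, (G.gadget (prj (u v))).w t *
        (avg fun x => avg fun x' => ideal G α (u v) (thr n k) t x x')) +
      ∑ v' ∈ univ.erase v, ∑ t, (G.gadget (prj (u v))).w t *
          ((if lev (u v') (phi G α (u v) ((G.gadget (prj (u v))).left t)) < thr n k
              then (1 : ℝ) else 0) * N (phi G α (u v) ((G.gadget (prj (u v))).left t)) +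
            (if lev (u v') (phi G α (u v) ((G.gadget (prj (u v))).right t)) < thr n k
              then (1 : ℝ) else 0) * N (phi G α (u v) ((G.gadget (prj (u v))).right t))) := by
    intro k u
    simp only [mul_add, Finset.sum_add_distrib, Finset.mul_sum]
    rw [Finset.sum_comm (s := univ.erase v)]
    congr 2
    rw [Finset.sum_comm (s := univ.erase v)]
  simp only [hsplit, avg_add]
  refine add_le_add ?_ ?_
  · -- the ideal part
    rw [avg_comm]
    have : ∀ u : Fin D → Equiv.Perm (Fin R × Fin d), (avg fun k : Fin n =>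
        ∑ t, (G.gadget (prj (u v))).w t *
          (avg fun x => avg fun x' => ideal G α (u v) (thr n k) t x x')) ≤ 4 * ε + 1 / n := by
      intro u
      rw [avg_sum]
      simp only [avg_mul_left]
      have h1 : ∀ t : (G.gadget (prj (u v))).T, (avg fun k : Fin n =>
          avg fun x => avg fun x' => ideal G α (u v) (thr n k) t x x') ≤
          4 * avg (neq (fun z => (G.gadget (prj (u v))).perm t
            (phi G α (u v) ((G.gadget (prj (u v))).left t) z))
            (phi G α (u v) ((G.gadget (prj (u v))).right t))) + 1 / n :=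
        fun t => mix_cost_avg hd (by omega) (u v) hn _ _
      refine (Finset.sum_le_sum fun t _ => mul_le_mul_of_nonneg_left (h1 t)
        ((G.normalized (prj (u v))).1 t)).trans ?_
      simp only [mul_add, Finset.sum_add_distrib]
      have h2 := honest_cost G α (by omega) hd (u v) (hα (u v))
      have h3 : ∑ t, (G.gadget (prj (u v))).w t * (4 * avg (neq (fun z =>
            (G.gadget (prj (u v))).perm t (phi G α (u v) ((G.gadget (prj (u v))).left t) z))
            (phi G α (u v) ((G.gadget (prj (u v))).right t)))) =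
          4 * ∑ t, (G.gadget (prj (u v))).w t * avg (neq (fun z =>
            (G.gadget (prj (u v))).perm t (phi G α (u v) ((G.gadget (prj (u v))).left t) z))
            (phi G α (u v) ((G.gadget (prj (u v))).right t))) := by
        rw [Finset.mul_sum]
        refine Finset.sum_congr rfl fun t _ => by ring
      have h4 : ∑ t, (G.gadget (prj (u v))).w t * (1 / (n : ℝ)) = 1 / n := by
        rw [← Finset.sum_mul, (G.normalized (prj (u v))).2, one_mul]
      rw [h3, h4]
      linarith
    exact avg_le_of_le this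
  · -- the confusion part
    simp only [avg_sum]
    have hterm : ∀ v' ∈ univ.erase v, (avg fun k : Fin n =>
        avg fun u : Fin D → Equiv.Perm (Fin R × Fin d) => ∑ t, (G.gadget (prj (u v))).w t *
          ((if lev (u v') (phi G α (u v) ((G.gadget (prj (u v))).left t)) < thr n k
              then (1 : ℝ) else 0) * N (phi G α (u v) ((G.gadget (prj (u v))).left t)) +
            (if lev (u v') (phi G α (u v) ((G.gadget (prj (u v))).right t)) < thr n k
              then (1 : ℝ) else 0) * N (phi G α (u v) ((G.gadget (prj (u v))).right t)))) ≤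
        2 * (Real.sqrt (8 / R) + 1 / n) := by
      intro v' hv'
      have hne' : v ≠ v' := fun h => (Finset.mem_erase.1 hv').1 h.symm
      have e1 : ∀ k : Fin n, (avg fun u : Fin D → Equiv.Perm (Fin R × Fin d) =>
          ∑ t, (G.gadget (prj (u v))).w t *
          ((if lev (u v') (phi G α (u v) ((G.gadget (prj (u v))).left t)) < thr n k
              then (1 : ℝ) else 0) * N (phi G α (u v) ((G.gadget (prj (u v))).left t)) +
            (if lev (u v') (phi G α (u v) ((G.gadget (prj (u v))).right t)) < thr n k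
              then (1 : ℝ) else 0) * N (phi G α (u v) ((G.gadget (prj (u v))).right t)))) =
          avg fun σ => avg fun σ' => ∑ t, (G.gadget (prj σ)).w t *
          ((if lev σ' (phi G α σ ((G.gadget (prj σ)).left t)) < thr n k
              then (1 : ℝ) else 0) * N (phi G α σ ((G.gadget (prj σ)).left t)) +
            (if lev σ' (phi G α σ ((G.gadget (prj σ)).right t)) < thr n k
              then (1 : ℝ) else 0) * N (phi G α σ ((G.gadget (prj σ)).right t))) :=
        fun k => avg_pi_pair hne' (fun σ σ' => ∑ t, (G.gadget (prj σ)).w t *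
          ((if lev σ' (phi G α σ ((G.gadget (prj σ)).left t)) < thr n k
              then (1 : ℝ) else 0) * N (phi G α σ ((G.gadget (prj σ)).left t)) +
            (if lev σ' (phi G α σ ((G.gadget (prj σ)).right t)) < thr n k
              then (1 : ℝ) else 0) * N (phi G α σ ((G.gadget (prj σ)).right t))))
      simp only [e1]
      rw [avg_comm]
      refine avg_le_of_le fun σ => ?_
      rw [avg_comm]
      simp only [avg_sum, avg_mul_left, avg_add]
      have e2 : ∀ t : (G.gadget (prj σ)).T,
          (avg fun σ' : Equiv.Perm (Fin R × Fin d) => avg fun k : Fin n =>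
            (if lev σ' (phi G α σ ((G.gadget (prj σ)).left t)) < thr n k
              then (1 : ℝ) else 0) * N (phi G α σ ((G.gadget (prj σ)).left t))) +
          (avg fun σ' : Equiv.Perm (Fin R × Fin d) => avg fun k : Fin n =>
            (if lev σ' (phi G α σ ((G.gadget (prj σ)).right t)) < thr n k
              then (1 : ℝ) else 0) * N (phi G α σ ((G.gadget (prj σ)).right t))) ≤
          2 * (Real.sqrt (8 / R) + 1 / n) := by
        intro t
        have := avg_conf_le hd hR hn (phi G α σ ((G.gadget (prj σ)).left t))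
        have := avg_conf_le hd hR hn (phi G α σ ((G.gadget (prj σ)).right t))
        linarith
      refine (Finset.sum_le_sum fun t _ => mul_le_mul_of_nonneg_left (e2 t)
        ((G.normalized (prj σ)).1 t)).trans (le_of_eq ?_)
      rw [← Finset.sum_mul, (G.normalized (prj σ)).2, one_mul]
    refine (Finset.sum_le_sum hterm).trans ?_
    rw [Finset.sum_const, nsmul_eq_mul]
    have h4 : ((univ.erase v).card : ℝ) ≤ D := by
      have := Finset.card_erase_le (s := (univ : Finset (Fin D))) (a := v)
      rw [Finset.card_univ, Fintype.card_fin] at this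
      exact_mod_cast this
    calc ((univ.erase v).card : ℝ) * (2 * (Real.sqrt (8 / R) + 1 / n)) ≤
        D * (2 * (Real.sqrt (8 / R) + 1 / n)) :=
          mul_le_mul_of_nonneg_right h4 (by positivity)
      _ = _ := by ring

/-- **The linear barrier on the universal instance.** -/
theorem linear_barrier {ε : ℝ} (hd : 2 ≤ d) (hR : 6 ≤ R) (hD : 0 < D) {n : ℕ} (hn : 0 < n)
    (hG : G.Complete d (1 - ε)) :
    ∃ f, 1 - (4 * ε + 1 / n + 2 * D * (Real.sqrt (8 / R) + 1 / n)) ≤
      (compose (universal D R d hD) G).satisfied f := by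
  have hne : Nonempty (Fin R × Fin d) := ⟨(⟨0, by omega⟩, ⟨0, by omega⟩)⟩
  have hnn : Nonempty (Fin n) := ⟨⟨0, hn⟩⟩
  have hDn : Nonempty (Fin D) := ⟨⟨0, hD⟩⟩
  choose α hα using fun σ : Equiv.Perm (Fin R × Fin d) => hG (prj σ) (prj_dToOne σ)
  set B := 4 * ε + 1 / n + 2 * D * (Real.sqrt (8 / R) + 1 / n) with hB
  have h1 : (avg fun v : Fin D => avg fun k : Fin n =>
      avg fun u : Fin D → Equiv.Perm (Fin R × Fin d) =>
      avg fun ℓ : Fin D → Fin R × Fin d => avg fun x' => cost G α (thr n k) ℓ x' u v) ≤ B :=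
    avg_le_of_le fun v => avg_cost_le G α hd hR hn hα v
  rw [avg_comm] at h1
  obtain ⟨k, hk⟩ := exists_le_avg (fun k : Fin n => avg fun v : Fin D =>
      avg fun u : Fin D → Equiv.Perm (Fin R × Fin d) =>
      avg fun ℓ : Fin D → Fin R × Fin d => avg fun x' => cost G α (thr n k) ℓ x' u v)
  have h2 : (avg fun v : Fin D => avg fun u : Fin D → Equiv.Perm (Fin R × Fin d) =>
      avg fun ℓ : Fin D → Fin R × Fin d => avg fun x' => cost G α (thr n k) ℓ x' u v) =
      avg fun ℓ : Fin D → Fin R × Fin d => avg fun x' => avg fun v : Fin D =>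
        avg fun u : Fin D → Equiv.Perm (Fin R × Fin d) => cost G α (thr n k) ℓ x' u v := by
    have e1 : ∀ v : Fin D, (avg fun u : Fin D → Equiv.Perm (Fin R × Fin d) =>
        avg fun ℓ : Fin D → Fin R × Fin d => avg fun x' => cost G α (thr n k) ℓ x' u v) =
        avg fun ℓ : Fin D → Fin R × Fin d => avg fun x' =>
        avg fun u : Fin D → Equiv.Perm (Fin R × Fin d) => cost G α (thr n k) ℓ x' u v := by
      intro v
      rw [avg_comm]
      refine congrArg avg (funext fun ℓ => ?_)
      rw [avg_comm]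
    simp only [e1]
    rw [avg_comm]
    refine congrArg avg (funext fun ℓ => ?_)
    rw [avg_comm]
  rw [h2] at hk
  obtain ⟨ℓ, hℓ⟩ := exists_le_avg (fun ℓ : Fin D → Fin R × Fin d => avg fun x' =>
    avg fun v : Fin D => avg fun u : Fin D → Equiv.Perm (Fin R × Fin d) =>
      cost G α (thr n k) ℓ x' u v)
  obtain ⟨x', hx'⟩ := exists_le_avg (fun x' => avg fun v : Fin D =>
    avg fun u : Fin D → Equiv.Perm (Fin R × Fin d) => cost G α (thr n k) ℓ x' u v)
  have h3 : (avg fun v : Fin D => avg fun u : Fin D → Equiv.Perm (Fin R × Fin d) =>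
      cost G α (thr n k) ℓ x' u v) ≤ B := by linarith
  refine ⟨Sum.elim (fun p => actU G (thr n k) ℓ x' p.1 p.2)
    (Sum.elim (fun p => actV G ℓ p.1 p.2)
      (fun p => actA G α (thr n k) ℓ x' p.1.1 p.1.2 p.2)), ?_⟩
  rw [compose_satisfied]
  have h4 : ∀ e : (Fin D → Equiv.Perm (Fin R × Fin d)) × Fin D,
      (G.gadget ((universal D R d hD).proj e.1 e.2)).satisfied
        ((Sum.elim (fun p => actU G (thr n k) ℓ x' p.1 p.2)
    (Sum.elim (fun p => actV G ℓ p.1 p.2)
      (fun p => actA G α (thr n k) ℓ x' p.1.1 p.1.2 p.2))) ∘ embed (universal D R d hD) G e.1 e.2) =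
      1 - cost G α (thr n k) ℓ x' e.1 e.2 := by
    intro e
    rw [← satisfied_eq]
    have : ((Sum.elim (fun p => actU G (thr n k) ℓ x' p.1 p.2)
        (Sum.elim (fun p => actV G ℓ p.1 p.2)
        (fun p => actA G α (thr n k) ℓ x' p.1.1 p.1.2 p.2))) ∘ embed (universal D R d hD) G e.1 e.2) =
        act G α (thr n k) ℓ x' e.1 e.2 := by
      funext τ
      rcases τ with i | j | a <;> rfl
    rw [this]
    rfl
  have h5 : (∑ e ∈ (universal D R d hD).edges,
      (G.gadget ((universal D R d hD).proj e.1 e.2)).satisfied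
        ((Sum.elim (fun p => actU G (thr n k) ℓ x' p.1 p.2)
    (Sum.elim (fun p => actV G ℓ p.1 p.2)
      (fun p => actA G α (thr n k) ℓ x' p.1.1 p.1.2 p.2))) ∘ embed (universal D R d hD) G e.1 e.2)) /
      (universal D R d hD).edges.card =
      avg fun e : (Fin D → Equiv.Perm (Fin R × Fin d)) × Fin D =>
        1 - cost G α (thr n k) ℓ x' e.1 e.2 := by
    unfold avg
    rw [← Finset.card_univ]
    congr 1
    exact Finset.sum_congr rfl fun e _ => h4 e
  rw [h5, avg_sub, avg_const, avg_prod]
  rw [avg_comm] at h3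
  linarith

end global_analysis

end Pool.Agent.Lib.P325f1f.Gadget
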