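import Pool.Agent.Lib.P325f1f.GadgetAvg

/-!
# Block averages under a random permutation: first and second moment
-/

set_option autoImplicit false
set_option linter.unusedSectionVars false

open Finset

noncomputable section

namespace Pool.Agent.Lib.P325f1f.Gadget

section count

variable {L : Type} [Fintype L] [DecidableEq L]

lemma sum_embedding_le {k : ℕ} {β : Type*} [Fintype β] [DecidableEq β] (φ : (Fin k ↪ L) → β)
    (hφ : Function.Injective φ) {h : β → ℝ} (h0 : ∀ b, 0 ≤ h b) :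
    ∑ e, h (φ e) ≤ ∑ b, h b := by
  rw [← Finset.sum_image (s := univ) (g := φ) (f := h) (fun x _ y _ hxy => hφ hxy)]
  exact Finset.sum_le_sum_of_subset_of_nonneg (Finset.subset_univ _) fun b _ _ => h0 b

lemma sum_embedding_eq {k : ℕ} {β : Type*} [Fintype β] [DecidableEq β] (φ : (Fin k ↪ L) → β)
    (hφ : Function.Injective φ) {h : β → ℝ} (h0 : ∀ b, b ∉ Set.range φ → h b = 0) :
    ∑ e, h (φ e) = ∑ b, h b := by
  rw [← Finset.sum_image (s := univ) (g := φ) (f := h) (fun x _ y _ hxy => hφ hxy)]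
  refine Finset.sum_subset (Finset.subset_univ _) fun b _ hb => h0 b ?_
  simpa using hb

/-- The pair of an embedding of `Fin 2`. -/
def pairMap (e : Fin 2 ↪ L) : L × L := (e 0, e 1)

lemma pairMap_injective : Function.Injective (pairMap (L := L)) := by
  intro e f h
  simp only [pairMap, Prod.mk.injEq] at h
  ext i
  fin_cases i
  · exact h.1
  · exact h.2

/-- The quadruple of an embedding of `Fin 4`. -/
def quadMap (e : Fin 4 ↪ L) : (L × L) × (L × L) := ((e 0, e 1), (e 2, e 3))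

lemma quadMap_injective : Function.Injective (quadMap (L := L)) := by
  intro e f h
  simp only [quadMap, Prod.mk.injEq] at h
  ext i
  fin_cases i
  · exact h.1.1
  · exact h.1.2
  · exact h.2.1
  · exact h.2.2

/-- The embedding of `Fin 2` with values `a`, `b`. -/
def pairEmb {a b : L} (h : a ≠ b) : Fin 2 ↪ L where
  toFun := ![a, b]
  inj' := by
    intro i j hij
    fin_cases i <;> fin_cases j <;> simp_all [eq_comm]

/-- The embedding of `Fin 4` with values `a`, `b`, `c`, `e`. -/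
def quadEmb {a b c e : L} (h1 : a ≠ b) (h2 : a ≠ c) (h3 : a ≠ e) (h4 : b ≠ c) (h5 : b ≠ e)
    (h6 : c ≠ e) : Fin 4 ↪ L where
  toFun := ![a, b, c, e]
  inj' := by
    intro i j hij
    fin_cases i <;> fin_cases j <;> simp_all [eq_comm]

lemma card_pair : (Fintype.card (Fin 2 ↪ L) : ℝ) =
    (Fintype.card L : ℝ) * ((Fintype.card L : ℝ) - 1) := by
  rw [Fintype.card_embedding_eq, Fintype.card_fin]
  rcases Nat.eq_zero_or_pos (Fintype.card L) with h | h
  · simp [h]
  · obtain ⟨m, hm⟩ : ∃ m, Fintype.card L = m + 1 := ⟨_, (Nat.succ_pred_eq_of_pos h).symm⟩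
    rw [hm]
    simp [Nat.descFactorial]
    ring

lemma card_quad (h : 4 ≤ Fintype.card L) : (Fintype.card (Fin 4 ↪ L) : ℝ) =
    (Fintype.card L : ℝ) * ((Fintype.card L : ℝ) - 1) * ((Fintype.card L : ℝ) - 2) *
      ((Fintype.card L : ℝ) - 3) := by
  rw [Fintype.card_embedding_eq, Fintype.card_fin]
  obtain ⟨m, hm⟩ : ∃ m, Fintype.card L = m + 4 := ⟨_, (Nat.sub_add_cancel h).symm⟩
  rw [hm]
  have : (m + 4).descFactorial 4 = (m + 4) * (m + 3) * (m + 2) * (m + 1) := by
    simp [Nat.descFactorial]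
    ring
  rw [this]
  push_cast
  ring

lemma avg_perm_pair_le {a b : L} (hab : a ≠ b) {f : L → L → ℝ} (h0 : ∀ x y, 0 ≤ f x y) :
    avg (fun σ : Equiv.Perm L => f (σ a) (σ b)) ≤
      (∑ x, ∑ y, f x y) / ((Fintype.card L : ℝ) * ((Fintype.card L : ℝ) - 1)) := by
  have h1 := avg_perm_embedding (pairEmb hab) (fun e => f (e 0) (e 1))
  have h2 : (fun σ : Equiv.Perm L => f (σ a) (σ b)) = fun σ : Equiv.Perm L =>
      (fun e : Fin 2 ↪ L => f (e 0) (e 1)) ((pairEmb hab).trans σ.toEmbedding) := by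
    funext σ; rfl
  rw [h2, h1, avg, card_pair]
  have hn : 0 ≤ (Fintype.card L : ℝ) * ((Fintype.card L : ℝ) - 1) := by
    rw [← card_pair]; positivity
  refine div_le_div_of_nonneg_right ?_ hn
  have := sum_embedding_le (pairMap (L := L)) pairMap_injective
    (h := fun p => f p.1 p.2) (fun p => h0 _ _)
  rw [Fintype.sum_prod_type] at this
  exact this

lemma avg_perm_pair_eq {a b : L} (hab : a ≠ b) {f : L → L → ℝ} (h0 : ∀ x, f x x = 0) :
    avg (fun σ : Equiv.Perm L => f (σ a) (σ b)) =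
      (∑ x, ∑ y, f x y) / ((Fintype.card L : ℝ) * ((Fintype.card L : ℝ) - 1)) := by
  have h1 := avg_perm_embedding (pairEmb hab) (fun e => f (e 0) (e 1))
  have h2 : (fun σ : Equiv.Perm L => f (σ a) (σ b)) = fun σ : Equiv.Perm L =>
      (fun e : Fin 2 ↪ L => f (e 0) (e 1)) ((pairEmb hab).trans σ.toEmbedding) := by
    funext σ; rfl
  rw [h2, h1, avg, card_pair]
  congr 1
  have := sum_embedding_eq (pairMap (L := L)) pairMap_injective
    (h := fun p => f p.1 p.2) (by
      rintro ⟨x, y⟩ hxy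
      by_cases h : x = y
      · subst h; exact h0 x
      · exact absurd ⟨pairEmb h, rfl⟩ hxy)
  rw [Fintype.sum_prod_type] at this
  exact this

lemma avg_perm_quad_le (hL : 4 ≤ Fintype.card L) {a b c e : L} (h1 : a ≠ b) (h2 : a ≠ c)
    (h3 : a ≠ e) (h4 : b ≠ c) (h5 : b ≠ e) (h6 : c ≠ e) {f : L → L → ℝ}
    (h0 : ∀ x y, 0 ≤ f x y) :
    avg (fun σ : Equiv.Perm L => f (σ a) (σ b) * f (σ c) (σ e)) ≤
      (∑ x, ∑ y, f x y) ^ 2 / ((Fintype.card L : ℝ) * ((Fintype.card L : ℝ) - 1) *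
        ((Fintype.card L : ℝ) - 2) * ((Fintype.card L : ℝ) - 3)) := by
  have g1 := avg_perm_embedding (quadEmb h1 h2 h3 h4 h5 h6)
    (fun e => f (e 0) (e 1) * f (e 2) (e 3))
  have g2 : (fun σ : Equiv.Perm L => f (σ a) (σ b) * f (σ c) (σ e)) = fun σ : Equiv.Perm L =>
      (fun e : Fin 4 ↪ L => f (e 0) (e 1) * f (e 2) (e 3))
        ((quadEmb h1 h2 h3 h4 h5 h6).trans σ.toEmbedding) := by
    funext σ; rfl
  rw [g2, g1, avg, card_quad hL]
  have hn : 0 ≤ (Fintype.card L : ℝ) * ((Fintype.card L : ℝ) - 1) *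
      ((Fintype.card L : ℝ) - 2) * ((Fintype.card L : ℝ) - 3) := by
    rw [← card_quad hL]; positivity
  refine div_le_div_of_nonneg_right ?_ hn
  have := sum_embedding_le (quadMap (L := L)) quadMap_injective
    (h := fun p => f p.1.1 p.1.2 * f p.2.1 p.2.2) (fun p => mul_nonneg (h0 _ _) (h0 _ _))
  refine this.trans (le_of_eq ?_)
  rw [Fintype.sum_prod_type, sq]
  have h7 : ∑ x, ∑ y, f x y = ∑ p : L × L, f p.1 p.2 := by rw [Fintype.sum_prod_type]
  rw [h7, Finset.sum_mul_sum]

end count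

section block

variable {R d : ℕ}

/-- The off-diagonal pairs of `Fin d`. -/
abbrev Off (d : ℕ) := {p : Fin d × Fin d // p.1 ≠ p.2}

lemma off_nonempty (hd : 2 ≤ d) : Nonempty (Off d) :=
  ⟨⟨(⟨0, by omega⟩, ⟨1, by omega⟩), by simp⟩⟩

/-- The average of `G` over the pairs of distinct elements in a common block of `σ`. -/
def blockAvg (σ : Equiv.Perm (Fin R × Fin d)) (G : Fin R × Fin d → Fin R × Fin d → ℝ) : ℝ :=
  avg fun y : Fin R => avg fun p : Off d => G (σ (y, p.1.1)) (σ (y, p.1.2))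

/-- The average of `G` over all pairs. -/
def allAvg (G : Fin R × Fin d → Fin R × Fin d → ℝ) : ℝ := avg fun x => avg fun y => G x y

lemma allAvg_eq (G : Fin R × Fin d → Fin R × Fin d → ℝ) :
    allAvg G = (∑ x, ∑ y, G x y) / ((Fintype.card (Fin R × Fin d) : ℝ) ^ 2) := by
  unfold allAvg avg
  rw [← Finset.sum_div, div_div, sq]

lemma blockAvg_nonneg (σ : Equiv.Perm (Fin R × Fin d)) {G : Fin R × Fin d → Fin R × Fin d → ℝ}
    (h : ∀ x y, 0 ≤ G x y) : 0 ≤ blockAvg σ G :=
  avg_nonneg fun _ => avg_nonneg fun _ => h _ _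

lemma allAvg_nonneg {G : Fin R × Fin d → Fin R × Fin d → ℝ}
    (h : ∀ x y, 0 ≤ G x y) : 0 ≤ allAvg G :=
  avg_nonneg fun _ => avg_nonneg fun _ => h _ _

lemma blockAvg_mono (σ : Equiv.Perm (Fin R × Fin d)) {G G' : Fin R × Fin d → Fin R × Fin d → ℝ}
    (h : ∀ x y, G x y ≤ G' x y) : blockAvg σ G ≤ blockAvg σ G' :=
  avg_mono fun _ => avg_mono fun _ => h _ _

variable (hd : 2 ≤ d) (hR : 6 ≤ R)

include hd hR

lemma card_ge : (12 : ℝ) ≤ Fintype.card (Fin R × Fin d) ∧
    (2 * R : ℝ) ≤ Fintype.card (Fin R × Fin d) := by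
  simp only [Fintype.card_prod, Fintype.card_fin]
  constructor
  · have : 12 ≤ R * d := by nlinarith
    exact_mod_cast this
  · have : 2 * R ≤ R * d := by nlinarith
    exact_mod_cast this

/-- First moment, lower bound, for kernels vanishing on the diagonal. -/
lemma allAvg_le_avg_blockAvg {G : Fin R × Fin d → Fin R × Fin d → ℝ} (h0 : ∀ x y, 0 ≤ G x y)
    (hG : ∀ x, G x x = 0) : allAvg G ≤ avg fun σ => blockAvg σ G := by
  have hne := off_nonempty hd
  have : Nonempty (Fin R) := ⟨⟨0, by omega⟩⟩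
  obtain ⟨hn, -⟩ := card_ge hd hR
  unfold blockAvg
  rw [avg_comm]
  refine le_avg_of_le fun y => ?_
  rw [avg_comm]
  refine le_avg_of_le fun p => ?_
  rw [avg_perm_pair_eq (fun h => p.2 (by simpa using h)) hG, allAvg_eq]
  refine div_le_div_of_nonneg_left ?_ ?_ ?_
  · exact Finset.sum_nonneg fun x _ => Finset.sum_nonneg fun y _ => h0 x y
  · nlinarith
  · nlinarith

/-- First moment, upper bound. -/
lemma avg_blockAvg_le {G : Fin R × Fin d → Fin R × Fin d → ℝ} (h0 : ∀ x y, 0 ≤ G x y) :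
    (avg fun σ => blockAvg σ G) ≤ 12 / 11 * allAvg G := by
  have hne := off_nonempty hd
  have : Nonempty (Fin R) := ⟨⟨0, by omega⟩⟩
  obtain ⟨hn, -⟩ := card_ge hd hR
  unfold blockAvg
  rw [avg_comm]
  refine avg_le_of_le fun y => ?_
  rw [avg_comm]
  refine avg_le_of_le fun p => ?_
  refine (avg_perm_pair_le (fun h => p.2 (by simpa using h)) h0).trans ?_
  rw [allAvg_eq]
  set n : ℝ := (Fintype.card (Fin R × Fin d) : ℝ)
  set S := ∑ x, ∑ y, G x y
  have hS : 0 ≤ S := Finset.sum_nonneg fun x _ => Finset.sum_nonneg fun y _ => h0 x y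
  rw [← mul_div_assoc, div_le_div_iff₀ (by nlinarith) (by positivity)]
  have : n ^ 2 ≤ 12 / 11 * (n * (n - 1)) := by nlinarith
  calc S * n ^ 2 ≤ S * (12 / 11 * (n * (n - 1))) := mul_le_mul_of_nonneg_left this hS
    _ = 12 / 11 * S * (n * (n - 1)) := by ring

/-- Second moment. -/
lemma avg_blockAvg_sq_le {G : Fin R × Fin d → Fin R × Fin d → ℝ} (h0 : ∀ x y, 0 ≤ G x y)
    (h1 : ∀ x y, G x y ≤ 1) :
    (avg fun σ => (blockAvg σ G) ^ 2) ≤
      (1 + 6 / R) * (allAvg G) ^ 2 + 12 / 11 * allAvg G / R := by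
  have hne := off_nonempty hd
  have : Nonempty (Fin R) := ⟨⟨0, by omega⟩⟩
  obtain ⟨hn, hn2⟩ := card_ge hd hR
  have hR0 : (0 : ℝ) < R := by exact_mod_cast (by omega : 0 < R)
  have hL : 4 ≤ Fintype.card (Fin R × Fin d) := by
    have : (4 : ℝ) ≤ Fintype.card (Fin R × Fin d) := by linarith
    exact_mod_cast this
  set n : ℝ := (Fintype.card (Fin R × Fin d) : ℝ) with hndef
  have hS : 0 ≤ ∑ x, ∑ y, G x y :=
    Finset.sum_nonneg fun x _ => Finset.sum_nonneg fun y _ => h0 x y
  have hA : 0 ≤ allAvg G := allAvg_nonneg h0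
  -- expand the square
  have hsq : ∀ σ : Equiv.Perm (Fin R × Fin d), (blockAvg σ G) ^ 2 =
      avg fun y : Fin R => avg fun y' : Fin R => avg fun p : Off d => avg fun p' : Off d =>
        G (σ (y, p.1.1)) (σ (y, p.1.2)) * G (σ (y', p'.1.1)) (σ (y', p'.1.2)) := by
    intro σ
    unfold blockAvg
    rw [sq, ← avg_mul_right]
    refine congrArg avg (funext fun y => ?_)
    rw [← avg_mul_left]
    refine congrArg avg (funext fun y' => ?_)
    rw [← avg_mul_right]
    refine congrArg avg (funext fun p => ?_)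
    rw [← avg_mul_left]
  simp only [hsq]
  -- pairs of blocks
  have key : ∀ y y' : Fin R, (avg fun σ : Equiv.Perm (Fin R × Fin d) =>
      avg fun p : Off d => avg fun p' : Off d =>
        G (σ (y, p.1.1)) (σ (y, p.1.2)) * G (σ (y', p'.1.1)) (σ (y', p'.1.2))) ≤
      (1 + 6 / R) * (allAvg G) ^ 2 + (if y = y' then 12 / 11 * allAvg G else 0) := by
    intro y y'
    rw [avg_comm]
    refine avg_le_of_le fun p => ?_
    rw [avg_comm]
    refine avg_le_of_le fun p' => ?_
    by_cases hy : y = y'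
    · rw [if_pos hy]
      have e1 : (avg fun σ : Equiv.Perm (Fin R × Fin d) =>
          G (σ (y, p.1.1)) (σ (y, p.1.2)) * G (σ (y', p'.1.1)) (σ (y', p'.1.2))) ≤
          avg fun σ : Equiv.Perm (Fin R × Fin d) => G (σ (y, p.1.1)) (σ (y, p.1.2)) := by
        refine avg_mono fun σ => ?_
        have := mul_le_mul_of_nonneg_left (h1 (σ (y', p'.1.1)) (σ (y', p'.1.2)))
          (h0 (σ (y, p.1.1)) (σ (y, p.1.2)))
        simpa using this
      have e2 := avg_perm_pair_le (L := Fin R × Fin d) (a := (y, p.1.1)) (b := (y, p.1.2))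
        (fun h => p.2 (by simpa using h)) h0
      have e3 : (∑ x, ∑ y, G x y) / (n * (n - 1)) ≤ 12 / 11 * allAvg G := by
        rw [allAvg_eq, ← mul_div_assoc, div_le_div_iff₀ (by nlinarith) (by positivity)]
        have : n ^ 2 ≤ 12 / 11 * (n * (n - 1)) := by nlinarith
        calc (∑ x, ∑ y, G x y) * n ^ 2 ≤ (∑ x, ∑ y, G x y) * (12 / 11 * (n * (n - 1))) :=
              mul_le_mul_of_nonneg_left this hS
          _ = 12 / 11 * (∑ x, ∑ y, G x y) * (n * (n - 1)) := by ring
      have e4 : 0 ≤ (1 + 6 / (R : ℝ)) * (allAvg G) ^ 2 := by positivity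
      linarith
    · rw [if_neg hy, add_zero]
      have e2 := avg_perm_quad_le (L := Fin R × Fin d) hL (a := (y, p.1.1)) (b := (y, p.1.2))
        (c := (y', p'.1.1)) (e := (y', p'.1.2))
        (fun h => p.2 (by simpa using h)) (by simp [hy]) (by simp [hy]) (by simp [hy])
        (by simp [hy]) (fun h => p'.2 (by simpa using h)) h0
      refine e2.trans ?_
      rw [allAvg_eq, div_pow, ← mul_div_assoc, ← hndef]
      have hpos : 0 < n * (n - 1) * (n - 2) * (n - 3) := by
        have a1 : 0 < n := by linarith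
        have a2 : 0 < n - 1 := by linarith
        have a3 : 0 < n - 2 := by linarith
        have a4 : 0 < n - 3 := by linarith
        positivity
      rw [div_le_div_iff₀ hpos (by positivity)]
      have hk : (n ^ 2) ^ 2 ≤ (1 + 6 / R) * (n * (n - 1) * (n - 2) * (n - 3)) := by
        have b1 : 12 / n ≤ 6 / (R : ℝ) := by
          rw [div_le_div_iff₀ (by linarith) hR0]
          linarith
        have b2 : (n ^ 2) ^ 2 ≤ (1 + 12 / n) * (n * (n - 1) * (n - 2) * (n - 3)) := by
          have b3 : (1 + 12 / n) * (n * (n - 1) * (n - 2) * (n - 3)) =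
              (n + 12) * ((n - 1) * (n - 2) * (n - 3)) := by
            have : n ≠ 0 := by linarith
            field_simp
          rw [b3]
          nlinarith [mul_nonneg (by linarith : (0 : ℝ) ≤ n - 12) (by linarith : (0 : ℝ) ≤ n - 12),
            mul_nonneg (mul_nonneg (by linarith : (0 : ℝ) ≤ n - 12)
              (by linarith : (0 : ℝ) ≤ n - 12)) (by linarith : (0 : ℝ) ≤ n)]
        refine b2.trans (mul_le_mul_of_nonneg_right (by linarith) hpos.le)
      calc (∑ x, ∑ y, G x y) ^ 2 * (n ^ 2) ^ 2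
          ≤ (∑ x, ∑ y, G x y) ^ 2 * ((1 + 6 / R) * (n * (n - 1) * (n - 2) * (n - 3))) :=
            mul_le_mul_of_nonneg_left hk (sq_nonneg _)
        _ = (1 + 6 / R) * (∑ x, ∑ y, G x y) ^ 2 * (n * (n - 1) * (n - 2) * (n - 3)) := by ring
  rw [avg_comm]
  have step : ∀ y : Fin R, (avg fun σ : Equiv.Perm (Fin R × Fin d) => avg fun y' : Fin R =>
      avg fun p : Off d => avg fun p' : Off d =>
        G (σ (y, p.1.1)) (σ (y, p.1.2)) * G (σ (y', p'.1.1)) (σ (y', p'.1.2))) ≤
      (1 + 6 / R) * (allAvg G) ^ 2 + 12 / 11 * allAvg G / R := by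
    intro y
    rw [avg_comm]
    refine (avg_mono fun y' => key y y').trans ?_
    rw [avg_add, avg_const]
    refine add_le_add le_rfl (le_of_eq ?_)
    simp [avg]
  exact avg_le_of_le step

end block

end Pool.Agent.Lib.P325f1f.Gadget
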