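import Pool.Agent.Lib.P325f1f.GadgetUniversal

/-!
# Above completeness `1 / d`: the threshold barrier on the universal instance
-/

set_option autoImplicit false

open scoped Classical
open Finset

noncomputable section

namespace Pool.Agent.Lib.P325f1f.Gadget.Threshold

variable {R d : ℕ} {Q : Type}

/-- Indicator of `F x = a` and `F y = a`. -/
def both (F : Fin R × Fin d → Q) (a : Q) (x y : Fin R × Fin d) : ℝ :=
  if F x = a ∧ F y = a then 1 else 0

/-- Indicator of `F x = a`. -/
def one (F : Fin R × Fin d → Q) (a : Q) (x : Fin R × Fin d) : ℝ := if F x = a then 1 else 0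

lemma one_nonneg (F : Fin R × Fin d → Q) (a : Q) (x : Fin R × Fin d) : 0 ≤ one F a x := by
  unfold one; split_ifs <;> norm_num

lemma one_le (F : Fin R × Fin d → Q) (a : Q) (x : Fin R × Fin d) : one F a x ≤ 1 := by
  unfold one; split_ifs <;> norm_num

lemma both_nonneg (F : Fin R × Fin d → Q) (a : Q) (x y : Fin R × Fin d) : 0 ≤ both F a x y := by
  unfold both; split_ifs <;> norm_num

lemma both_le (F : Fin R × Fin d → Q) (a : Q) (x y : Fin R × Fin d) : both F a x y ≤ 1 := by
  unfold both; split_ifs <;> norm_num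

lemma both_eq (F : Fin R × Fin d → Q) (a : Q) (x y : Fin R × Fin d) :
    both F a x y = one F a x * one F a y := by
  unfold both one
  by_cases h1 : F x = a <;> by_cases h2 : F y = a <;> simp [h1, h2]

/-- Density of the symbol `a`. -/
def dens (F : Fin R × Fin d → Q) (a : Q) : ℝ := avg (one F a)

lemma dens_nonneg (F : Fin R × Fin d → Q) (a : Q) : 0 ≤ dens F a := avg_nonneg (one_nonneg F a)

lemma dens_le_one [Nonempty (Fin R × Fin d)] (F : Fin R × Fin d → Q) (a : Q) : dens F a ≤ 1 :=
  avg_le_of_le (one_le F a)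

lemma allAvg_both (F : Fin R × Fin d → Q) (a : Q) : allAvg (both F a) = dens F a ^ 2 := by
  unfold allAvg
  have : ∀ x y, both F a x y = one F a x * one F a y := both_eq F a
  simp only [this, avg_mul_left, avg_mul_right]
  rw [sq]
  rfl

/-- The symbols of `F`. -/
def syms (F : Fin R × Fin d → Q) : Finset Q := univ.image F

lemma sum_dens [Nonempty (Fin R × Fin d)] (F : Fin R × Fin d → Q) :
    ∑ a ∈ syms F, dens F a = 1 := by
  unfold dens
  rw [← avg_sum]
  have : ∀ x, ∑ a ∈ syms F, one F a x = 1 := by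
    intro x
    unfold one
    rw [Finset.sum_ite_eq]
    rw [if_pos]
    exact Finset.mem_image_of_mem _ (Finset.mem_univ _)
  simp only [this]
  exact avg_const _

/-- The typedness of `F` for `σ`. -/
def typ (σ : Equiv.Perm (Fin R × Fin d)) (F : Fin R × Fin d → Q) : ℝ :=
  ∑ a ∈ syms F, max (blockAvg σ (both F a) - dens F a ^ 2) 0

lemma typ_nonneg (σ : Equiv.Perm (Fin R × Fin d)) (F : Fin R × Fin d → Q) : 0 ≤ typ σ F :=
  Finset.sum_nonneg fun _ _ => le_max_right _ _

lemma avg_perm_pair_eq' {L : Type} [Fintype L] [DecidableEq L] {a b : L} (hab : a ≠ b)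
    (f : L → L → ℝ) :
    avg (fun σ : Equiv.Perm L => f (σ a) (σ b)) =
      ((∑ x, ∑ y, f x y) - ∑ x, f x x) /
        ((Fintype.card L : ℝ) * ((Fintype.card L : ℝ) - 1)) := by
  have h1 := avg_perm_pair_eq hab (f := fun x y => if x = y then 0 else f x y) (by simp)
  have h2 : (fun σ : Equiv.Perm L => f (σ a) (σ b)) =
      fun σ : Equiv.Perm L => (if σ a = σ b then 0 else f (σ a) (σ b)) := by
    funext σ
    rw [if_neg (fun h => hab (σ.injective h))]
  rw [h2, h1]
  congr 1
  rw [eq_sub_iff_add_eq, ← Finset.sum_add_distrib]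
  refine Finset.sum_congr rfl fun x _ => ?_
  have h3 : f x x = ∑ y, if x = y then f x y else 0 := by simp
  rw [h3, ← Finset.sum_add_distrib]
  refine Finset.sum_congr rfl fun y _ => ?_
  split_ifs <;> ring

lemma avg_both_ge (hd : 2 ≤ d) (hR : 6 ≤ R) (F : Fin R × Fin d → Q) (a : Q) :
    dens F a ^ 2 - dens F a * (12 / 11 / R / 2) ≤ avg fun σ => blockAvg σ (both F a) := by
  have hne := off_nonempty hd
  have : Nonempty (Fin R) := ⟨⟨0, by omega⟩⟩
  have hL : Nonempty (Fin R × Fin d) := ⟨(⟨0, by omega⟩, ⟨0, by omega⟩)⟩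
  obtain ⟨hn, hn2⟩ := card_ge hd hR
  have hR0 : (6 : ℝ) ≤ R := by exact_mod_cast hR
  unfold blockAvg
  rw [avg_comm]
  refine le_avg_of_le fun y => ?_
  rw [avg_comm]
  refine le_avg_of_le fun p => ?_
  rw [avg_perm_pair_eq' (fun h => p.2 (by simpa using h))]
  have h1 : ∑ x, ∑ y, both F a x y = dens F a ^ 2 * (Fintype.card (Fin R × Fin d) : ℝ) ^ 2 := by
    rw [← allAvg_both, allAvg_eq]
    field_simp
  have h2 : ∑ x, both F a x x = dens F a * (Fintype.card (Fin R × Fin d) : ℝ) := by
    unfold dens avg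
    have : ∀ x, both F a x x = one F a x := by
      intro x; unfold both one; simp
    simp only [this]
    field_simp
  rw [h1, h2]
  set n : ℝ := (Fintype.card (Fin R × Fin d) : ℝ) with hndef
  have hp0 := dens_nonneg F a
  have hp1 := dens_le_one F a
  rw [le_div_iff₀ (by nlinarith)]
  have h3 : 1 ≤ (12 / 11 / (R : ℝ) / 2) * (n - 1) := by
    have h4 : 2 * (R : ℝ) - 1 ≤ n - 1 := by linarith
    have h5 : (11 / 6 : ℝ) * R ≤ n - 1 := by linarith
    have h6 : (12 / 11 / (R : ℝ) / 2) * ((11 / 6 : ℝ) * R) = 1 := by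
      field_simp
      norm_num
    calc (1 : ℝ) = (12 / 11 / (R : ℝ) / 2) * ((11 / 6 : ℝ) * R) := h6.symm
      _ ≤ (12 / 11 / (R : ℝ) / 2) * (n - 1) := mul_le_mul_of_nonneg_left h5 (by positivity)
  have hn0 : 0 ≤ n := by linarith
  have h7 : dens F a * n ≤ dens F a * n * ((12 / 11 / (R : ℝ) / 2) * (n - 1)) := by
    have := mul_le_mul_of_nonneg_left h3 (mul_nonneg hp0 hn0)
    linarith
  nlinarith [mul_nonneg (sq_nonneg (dens F a)) hn0]

lemma avg_excess_le (hd : 2 ≤ d) (hR : 6 ≤ R) (F : Fin R × Fin d → Q) (a : Q) :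
    (avg fun σ => max (blockAvg σ (both F a) - dens F a ^ 2) 0) ≤
      Real.sqrt (10 / R) * dens F a := by
  have hL : Nonempty (Fin R × Fin d) := ⟨(⟨0, by omega⟩, ⟨0, by omega⟩)⟩
  have hR0 : (0 : ℝ) < R := by exact_mod_cast (by omega : 0 < R)
  have hp0 := dens_nonneg F a
  have hp1 := dens_le_one F a
  have m1 := avg_both_ge hd hR F a
  have m2 : (avg fun σ => (blockAvg σ (both F a)) ^ 2) ≤
      (1 + 6 / R) * (dens F a ^ 2) ^ 2 + 12 / 11 * dens F a ^ 2 / R := by
    have := avg_blockAvg_sq_le hd hR (both_nonneg F a) (both_le F a)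
    rwa [allAvg_both] at this
  have h0 : (avg fun σ => max (blockAvg σ (both F a) - dens F a ^ 2) 0) ^ 2 ≤
      (10 / R) * dens F a ^ 2 := by
    refine (avg_sq_le _).trans ?_
    have h1 : (avg fun σ : Equiv.Perm (Fin R × Fin d) =>
        (max (blockAvg σ (both F a) - dens F a ^ 2) 0) ^ 2) ≤
        avg fun σ : Equiv.Perm (Fin R × Fin d) => (blockAvg σ (both F a)) ^ 2 -
          (2 * dens F a ^ 2) * blockAvg σ (both F a) + (dens F a ^ 2) ^ 2 := by
      refine avg_mono fun σ => ?_
      rcases le_total (blockAvg σ (both F a) - dens F a ^ 2) 0 with h | h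
      · rw [max_eq_right h]
        nlinarith [sq_nonneg (blockAvg σ (both F a) - dens F a ^ 2)]
      · rw [max_eq_left h]
        nlinarith
    refine h1.trans ?_
    rw [avg_add, avg_sub, avg_mul_left, avg_const]
    set p := dens F a with hp
    set m := avg fun σ : Equiv.Perm (Fin R × Fin d) => blockAvg σ (both F a) with hm
    have h2 : 2 * p ^ 2 * (p ^ 2 - p * (12 / 11 / R / 2)) ≤ 2 * p ^ 2 * m :=
      mul_le_mul_of_nonneg_left m1 (by positivity)
    have h3 : (6 / (R : ℝ)) * (p ^ 2) ^ 2 ≤ (6 / R) * p ^ 2 := by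
      refine mul_le_mul_of_nonneg_left ?_ (by positivity)
      have hp2 : p ^ 2 ≤ 1 := by nlinarith
      calc (p ^ 2) ^ 2 = p ^ 2 * p ^ 2 := by ring
        _ ≤ p ^ 2 * 1 := mul_le_mul_of_nonneg_left hp2 (sq_nonneg p)
        _ = p ^ 2 := mul_one _
    have h4 : p ^ 3 * (12 / 11 / (R : ℝ)) ≤ p ^ 2 * (12 / 11 / R) := by
      refine mul_le_mul_of_nonneg_right ?_ (by positivity)
      calc p ^ 3 = p ^ 2 * p := by ring
        _ ≤ p ^ 2 * 1 := mul_le_mul_of_nonneg_left hp1 (sq_nonneg p)
        _ = p ^ 2 := mul_one _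
    have h5 : (6 / (R : ℝ)) * p ^ 2 + 12 / 11 * p ^ 2 / R + p ^ 2 * (12 / 11 / R) ≤
        10 / R * p ^ 2 := by
      have : (6 / (R : ℝ)) * p ^ 2 + 12 / 11 * p ^ 2 / R + p ^ 2 * (12 / 11 / R) =
          (6 + 24 / 11) / R * p ^ 2 := by ring
      rw [this]
      refine mul_le_mul_of_nonneg_right ?_ (by positivity)
      exact div_le_div_of_nonneg_right (by norm_num) hR0.le
    nlinarith
  have h1 : 0 ≤ Real.sqrt (10 / R) * dens F a := mul_nonneg (Real.sqrt_nonneg _) hp0
  have h2 : (Real.sqrt (10 / R) * dens F a) ^ 2 = (10 / R) * dens F a ^ 2 := by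
    rw [mul_pow, Real.sq_sqrt (by positivity)]
  rw [← h2] at h0
  exact abs_le_of_sq_le_sq' h0 h1 |>.2

/-- The typedness of a fixed function is small on average over the permutation. -/
lemma avg_typ_le (hd : 2 ≤ d) (hR : 6 ≤ R) (F : Fin R × Fin d → Q) :
    (avg fun σ => typ σ F) ≤ Real.sqrt (10 / R) := by
  have hL : Nonempty (Fin R × Fin d) := ⟨(⟨0, by omega⟩, ⟨0, by omega⟩)⟩
  unfold typ
  rw [avg_sum]
  refine (Finset.sum_le_sum fun a _ => avg_excess_le hd hR F a).trans (le_of_eq ?_)
  rw [← Finset.mul_sum, sum_dens, mul_one]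

/-- Markov's inequality. -/
lemma avg_typed_le (hd : 2 ≤ d) (hR : 6 ≤ R) (F : Fin R × Fin d → Q) {κ : ℝ} (hκ : 0 < κ) :
    (avg fun σ : Equiv.Perm (Fin R × Fin d) => if κ < typ σ F then (1 : ℝ) else 0) ≤
      Real.sqrt (10 / R) / κ := by
  rw [le_div_iff₀ hκ]
  refine le_trans ?_ (avg_typ_le hd hR F)
  rw [← avg_mul_right]
  refine avg_mono fun σ => ?_
  split_ifs with h
  · linarith
  · simpa using typ_nonneg σ F

section collision

/-- Indicator of `F x = b y`. -/
def hit (F : Fin R × Fin d → Q) (b : Fin R → Q) (y : Fin R) (x : Fin R × Fin d) : ℝ :=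
  if F x = b y then 1 else 0

lemma hit_nonneg (F : Fin R × Fin d → Q) (b : Fin R → Q) (y : Fin R) (x : Fin R × Fin d) :
    0 ≤ hit F b y x := by
  unfold hit; split_ifs <;> norm_num

lemma hit_le (F : Fin R × Fin d → Q) (b : Fin R → Q) (y : Fin R) (x : Fin R × Fin d) :
    hit F b y x ≤ 1 := by
  unfold hit; split_ifs <;> norm_num

/-- The honest satisfaction probability of a constraint between the two sides. -/
def sat (σ : Equiv.Perm (Fin R × Fin d)) (F : Fin R × Fin d → Q) (b : Fin R → Q) : ℝ :=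
  avg fun y : Fin R => avg fun z : Fin d => hit F b y (σ (y, z))

/-- The collision probability. -/
def col (σ : Equiv.Perm (Fin R × Fin d)) (F : Fin R × Fin d → Q) (b : Fin R → Q) : ℝ :=
  avg fun y : Fin R => avg fun p : Off d => hit F b y (σ (y, p.1.1)) * hit F b y (σ (y, p.1.2))

/-- The satisfaction probability for independent labels. -/
def ind (F : Fin R × Fin d → Q) (b : Fin R → Q) : ℝ :=
  avg fun y : Fin R => avg fun x : Fin R × Fin d => hit F b y x

lemma off_prod (h : Fin d → ℝ) (hh : ∀ z, h z * h z = h z) :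
    ∑ p : Off d, h p.1.1 * h p.1.2 = (∑ z, h z) ^ 2 - ∑ z, h z := by
  have h1 : ∑ p : Off d, h p.1.1 * h p.1.2 =
      ∑ p : Fin d × Fin d, if p.1 ≠ p.2 then h p.1 * h p.2 else 0 := by
    rw [← Finset.sum_filter]
    exact (Finset.sum_subtype (univ.filter fun p : Fin d × Fin d => p.1 ≠ p.2)
      (fun p => by simp) (fun p => h p.1 * h p.2)).symm
  rw [h1, Fintype.sum_prod_type, sq, Finset.sum_mul_sum, ← Finset.sum_sub_distrib]
  refine Finset.sum_congr rfl fun z _ => ?_
  dsimp only
  rw [eq_sub_iff_add_eq]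
  have h3 : h z = ∑ z', if z = z' then h z * h z' else 0 := by simp [hh]
  rw [h3, ← Finset.sum_add_distrib]
  refine Finset.sum_congr rfl fun z' _ => ?_
  rw [← h3]
  by_cases h : z = z' <;> simp [h]

lemma col_ge (hd : 2 ≤ d) (hR : 1 ≤ R) (σ : Equiv.Perm (Fin R × Fin d)) (F : Fin R × Fin d → Q)
    (b : Fin R → Q) :
    (d * sat σ F b ^ 2 - sat σ F b) / (d - 1) ≤ col σ F b := by
  have : Nonempty (Fin R) := ⟨⟨0, hR⟩⟩
  have hd2 : (2 : ℝ) ≤ d := by exact_mod_cast hd
  have hd1 : (0 : ℝ) < (d : ℝ) - 1 := by linarith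
  have h1 : ∀ y : Fin R, (avg fun p : Off d => hit F b y (σ (y, p.1.1)) *
      hit F b y (σ (y, p.1.2))) =
      (d * (avg fun z : Fin d => hit F b y (σ (y, z))) ^ 2 -
        avg fun z : Fin d => hit F b y (σ (y, z))) / (d - 1) := by
    intro y
    have h2 := off_prod (fun z => hit F b y (σ (y, z))) (by
      intro z; unfold hit; split_ifs <;> norm_num)
    unfold avg
    rw [h2, off_card, Fintype.card_fin]
    field_simp
  unfold col
  simp only [h1]
  rw [div_le_iff₀ hd1, ← avg_mul_right]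
  have h3 : (fun y : Fin R => (d * (avg fun z : Fin d => hit F b y (σ (y, z))) ^ 2 -
        avg fun z : Fin d => hit F b y (σ (y, z))) / ((d : ℝ) - 1) * (d - 1)) =
      fun y : Fin R => d * (avg fun z : Fin d => hit F b y (σ (y, z))) ^ 2 -
        avg fun z : Fin d => hit F b y (σ (y, z)) := by
    funext y
    field_simp
  rw [h3, avg_sub, avg_mul_left]
  have h4 := avg_sq_le (fun y : Fin R => avg fun z : Fin d => hit F b y (σ (y, z)))
  have h5 : (d : ℝ) * sat σ F b ^ 2 ≤
      d * avg fun y : Fin R => (avg fun z : Fin d => hit F b y (σ (y, z))) ^ 2 :=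
    mul_le_mul_of_nonneg_left h4 (by linarith)
  unfold sat at h5 ⊢
  linarith

lemma col_le (hd : 2 ≤ d) (hR : 1 ≤ R) (σ : Equiv.Perm (Fin R × Fin d)) (F : Fin R × Fin d → Q)
    (b : Fin R → Q) : col σ F b ≤ Real.sqrt (ind F b) + typ σ F := by
  have : Nonempty (Fin R) := ⟨⟨0, hR⟩⟩
  have hne := off_nonempty hd
  have hL : Nonempty (Fin R × Fin d) := ⟨(⟨0, by omega⟩, ⟨0, by omega⟩)⟩
  -- the frequency of `a` among the values of `b`
  let om : Q → ℝ := fun a => avg fun y : Fin R => if b y = a then (1 : ℝ) else 0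
  have hom0 : ∀ a, 0 ≤ om a := fun a => avg_nonneg fun y => by split_ifs <;> norm_num
  -- splitting of the collision probability
  have hcol : col σ F b = ∑ a ∈ syms F, avg fun y : Fin R => (if b y = a then (1 : ℝ) else 0) *
      avg fun p : Off d => both F a (σ (y, p.1.1)) (σ (y, p.1.2)) := by
    unfold col
    rw [← avg_sum]
    refine congrArg avg (funext fun y => ?_)
    have h1 : ∀ a ∈ syms F, (if b y = a then (1 : ℝ) else 0) *
        (avg fun p : Off d => both F a (σ (y, p.1.1)) (σ (y, p.1.2))) =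
        if b y = a then (avg fun p : Off d => hit F b y (σ (y, p.1.1)) *
          hit F b y (σ (y, p.1.2))) else 0 := by
      intro a _
      split_ifs with h
      · rw [one_mul]
        refine congrArg avg (funext fun p => ?_)
        rw [both_eq, ← h]
        rfl
      · simp
    rw [Finset.sum_congr rfl h1, Finset.sum_ite_eq]
    by_cases hb : b y ∈ syms F
    · rw [if_pos hb]
    · rw [if_neg hb]
      have : ∀ x, hit F b y x = 0 := by
        intro x
        unfold hit
        rw [if_neg]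
        intro h
        exact hb (h ▸ Finset.mem_image_of_mem _ (Finset.mem_univ _))
      simp only [this, mul_zero]
      exact avg_const _
  have hind : ind F b = ∑ a ∈ syms F, om a * dens F a := by
    unfold ind
    have h1 : ∀ y : Fin R, (avg fun x : Fin R × Fin d => hit F b y x) =
        ∑ a ∈ syms F, (if b y = a then (1 : ℝ) else 0) * dens F a := by
      intro y
      have h2 : ∀ a ∈ syms F, (if b y = a then (1 : ℝ) else 0) * dens F a =
          if b y = a then avg (fun x : Fin R × Fin d => hit F b y x) else 0 := by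
        intro a _
        split_ifs with h
        · rw [one_mul, ← h]; rfl
        · simp
      rw [Finset.sum_congr rfl h2, Finset.sum_ite_eq]
      by_cases hb : b y ∈ syms F
      · rw [if_pos hb]
      · rw [if_neg hb]
        have : ∀ x, hit F b y x = 0 := by
          intro x
          unfold hit
          rw [if_neg]
          intro h
          exact hb (h ▸ Finset.mem_image_of_mem _ (Finset.mem_univ _))
        simp only [this]
        exact avg_const _
    simp only [h1, avg_sum, avg_mul_right]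
    rfl
  have hterm : ∀ a ∈ syms F, (avg fun y : Fin R => (if b y = a then (1 : ℝ) else 0) *
      avg fun p : Off d => both F a (σ (y, p.1.1)) (σ (y, p.1.2))) ≤
      Real.sqrt (om a * dens F a) * Real.sqrt (dens F a) +
        max (blockAvg σ (both F a) - dens F a ^ 2) 0 := by
    intro a _
    set r := avg fun y : Fin R => (if b y = a then (1 : ℝ) else 0) *
      avg fun p : Off d => both F a (σ (y, p.1.1)) (σ (y, p.1.2)) with hr
    have hp0 := dens_nonneg F a
    have r1 : r ≤ om a := by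
      refine avg_mono fun y => ?_
      have h1 : (avg fun p : Off d => both F a (σ (y, p.1.1)) (σ (y, p.1.2))) ≤ 1 :=
        avg_le_of_le fun p => both_le F a _ _
      have h0 : (0 : ℝ) ≤ if b y = a then (1 : ℝ) else 0 := by split_ifs <;> norm_num
      calc _ ≤ (if b y = a then (1 : ℝ) else 0) * 1 := mul_le_mul_of_nonneg_left h1 h0
        _ = _ := mul_one _
    have r2 : r ≤ blockAvg σ (both F a) := by
      refine avg_mono fun y => ?_
      have h1 : 0 ≤ (avg fun p : Off d => both F a (σ (y, p.1.1)) (σ (y, p.1.2))) :=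
        avg_nonneg fun p => both_nonneg F a _ _
      have h0 : (if b y = a then (1 : ℝ) else 0) ≤ 1 := by split_ifs <;> norm_num
      calc _ ≤ 1 * (avg fun p : Off d => both F a (σ (y, p.1.1)) (σ (y, p.1.2))) :=
            mul_le_mul_of_nonneg_right h0 h1
        _ = _ := one_mul _
    have hsq : Real.sqrt (om a * dens F a) * Real.sqrt (dens F a) = Real.sqrt (om a) * dens F a := by
      rw [Real.sqrt_mul (hom0 a), mul_assoc, Real.mul_self_sqrt hp0]
    rw [hsq]
    have hs0 := Real.sqrt_nonneg (om a)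
    have hss := Real.mul_self_sqrt (hom0 a)
    rcases le_total (Real.sqrt (om a)) (dens F a) with h | h
    · have h1 : om a ≤ Real.sqrt (om a) * dens F a := by
        calc om a = Real.sqrt (om a) * Real.sqrt (om a) := hss.symm
          _ ≤ Real.sqrt (om a) * dens F a := mul_le_mul_of_nonneg_left h hs0
      have := le_max_right (blockAvg σ (both F a) - dens F a ^ 2) 0
      linarith
    · have h1 : dens F a ^ 2 ≤ Real.sqrt (om a) * dens F a := by
        rw [sq]; exact mul_le_mul_of_nonneg_right h hp0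
      have := le_max_left (blockAvg σ (both F a) - dens F a ^ 2) 0
      linarith
  rw [hcol]
  refine (Finset.sum_le_sum hterm).trans ?_
  rw [Finset.sum_add_distrib]
  refine add_le_add ?_ le_rfl
  -- Cauchy-Schwarz
  have hcs := Finset.sum_mul_sq_le_sq_mul_sq (syms F) (fun a => Real.sqrt (om a * dens F a))
    (fun a => Real.sqrt (dens F a))
  have h1 : ∑ a ∈ syms F, Real.sqrt (om a * dens F a) ^ 2 = ind F b := by
    rw [hind]
    exact Finset.sum_congr rfl fun a _ => Real.sq_sqrt (mul_nonneg (hom0 a) (dens_nonneg F a))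
  have h2 : ∑ a ∈ syms F, Real.sqrt (dens F a) ^ 2 = 1 := by
    rw [← sum_dens F]
    exact Finset.sum_congr rfl fun a _ => Real.sq_sqrt (dens_nonneg F a)
  rw [h1, h2, mul_one] at hcs
  exact Real.le_sqrt_of_sq_le hcs

lemma sat_nonneg (σ : Equiv.Perm (Fin R × Fin d)) (F : Fin R × Fin d → Q) (b : Fin R → Q) :
    0 ≤ sat σ F b := avg_nonneg fun _ => avg_nonneg fun _ => hit_nonneg F b _ _

lemma ind_nonneg (F : Fin R × Fin d → Q) (b : Fin R → Q) :
    0 ≤ ind F b := avg_nonneg fun _ => avg_nonneg fun _ => hit_nonneg F b _ _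

lemma sat_le_one (hd : 2 ≤ d) (hR : 1 ≤ R) (σ : Equiv.Perm (Fin R × Fin d))
    (F : Fin R × Fin d → Q) (b : Fin R → Q) : sat σ F b ≤ 1 := by
  have : Nonempty (Fin R) := ⟨⟨0, hR⟩⟩
  have : Nonempty (Fin d) := ⟨⟨0, by omega⟩⟩
  exact avg_le_of_le fun _ => avg_le_of_le fun _ => hit_le F b _ _

/-- The convex quadratic. -/
def quad (d : ℕ) (c : ℝ) : ℝ := (d * c ^ 2 - c) / (d - 1)

lemma quad_le {d : ℕ} (hd : 2 ≤ d) {c : ℝ} (h0 : 0 ≤ c) (h1 : c ≤ 1) : quad d c ≤ c := by
  have hd2 : (2 : ℝ) ≤ d := by exact_mod_cast hd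
  unfold quad
  rw [div_le_iff₀ (by linarith)]
  nlinarith [mul_nonneg h0 (sub_nonneg.2 h1)]

/-- The success probability of a constraint between the two sides under the second strategy,
without confusion. -/
lemma success_ge (hd : 2 ≤ d) (hR : 1 ≤ R) (σ : Equiv.Perm (Fin R × Fin d))
    (F : Fin R × Fin d → Q) (b : Fin R → Q) {κ q : ℝ} (hκ : 0 < κ) (hq0 : 0 ≤ q) (hq1 : q ≤ 1) :
    2 * q * quad d (sat σ F b) - q ^ 2 - 2 * κ ≤
      if κ < typ σ F then sat σ F b else ind F b := by
  have hs0 := sat_nonneg σ F b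
  have hs1 := sat_le_one hd hR σ F b
  have hq := quad_le hd hs0 hs1
  split_ifs with h
  · -- typed
    by_cases hneg : quad d (sat σ F b) ≤ 0
    · nlinarith [sq_nonneg q, mul_nonneg hq0 (neg_nonneg.2 hneg)]
    · push Not at hneg
      nlinarith [sq_nonneg (q - quad d (sat σ F b))]
  · push Not at h
    have h1 := col_ge hd hR σ F b
    have h2 := col_le hd hR σ F b
    have h3 : quad d (sat σ F b) ≤ Real.sqrt (ind F b) + κ := by
      unfold quad; linarith
    have h4 := Real.sqrt_nonneg (ind F b)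
    have h5 := Real.mul_self_sqrt (ind_nonneg F b)
    nlinarith [sq_nonneg (q - Real.sqrt (ind F b)), mul_le_mul_of_nonneg_left h3 hq0]

end collision

end Pool.Agent.Lib.P325f1f.Gadget.Threshold
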