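import Pool.Agent.Lib.P325f1f.GadgetThreshold
import Pool.Agent.Lib.P325f1f.GadgetLinear

/-!
# The threshold barrier: global analysis
-/

set_option autoImplicit false

open scoped Classical
open Finset

noncomputable section

namespace Pool.Agent.Lib.P325f1f.Gadget.Threshold

variable {R d : ℕ} {Q : Type}
variable (G : GadgetSystem (Fin R × Fin d) (Fin R) Q)
  (α : Equiv.Perm (Fin R × Fin d) → Fin R × Fin d → G.A → Q)

variable {D : ℕ}

/-- Second strategy for the left blocks. -/
def actU2 (κ : ℝ) (ℓ : Fin D → Fin R × Fin d) (x' : Fin R × Fin d)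
    (u : Fin D → Equiv.Perm (Fin R × Fin d)) (i : G.I) : Q :=
  if h : ∃ v, κ < typ (u v) (G.F i) then G.F i (u h.choose (ℓ h.choose)) else G.F i x'

/-- The first assignment seen by the edge `(u, v)`. -/
def act1 (ℓ : Fin D → Fin R × Fin d) (x' : Fin R × Fin d)
    (u : Fin D → Equiv.Perm (Fin R × Fin d)) (v : Fin D) : G.I ⊕ (G.J ⊕ G.A) → Q :=
  Sum.elim (fun i => G.F i x') (Sum.elim (fun j => G.H j (ℓ v).1) (fun a => α (u v) x' a))

/-- The second assignment seen by the edge `(u, v)`. -/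
def act2 (κ : ℝ) (ℓ : Fin D → Fin R × Fin d) (x' : Fin R × Fin d)
    (u : Fin D → Equiv.Perm (Fin R × Fin d)) (v : Fin D) : G.I ⊕ (G.J ⊕ G.A) → Q :=
  Sum.elim (actU2 G κ ℓ x' u) (Sum.elim (fun j => G.H j (ℓ v).1)
    (fun a => α (u v) (u v (ℓ v)) a))

/-- The indicator that the constraint `t` is satisfied. -/
def ok (σ : Equiv.Perm (Fin R × Fin d)) (t : (G.gadget (prj σ)).T)
    (f : G.I ⊕ (G.J ⊕ G.A) → Q) : ℝ :=
  if (G.gadget (prj σ)).perm t (f ((G.gadget (prj σ)).left t)) = f ((G.gadget (prj σ)).right t)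
  then 1 else 0

lemma ok_nonneg (σ : Equiv.Perm (Fin R × Fin d)) (t : (G.gadget (prj σ)).T)
    (f : G.I ⊕ (G.J ⊕ G.A) → Q) : 0 ≤ ok G σ t f := by
  unfold ok; split_ifs <;> norm_num

lemma ok_le (σ : Equiv.Perm (Fin R × Fin d)) (t : (G.gadget (prj σ)).T)
    (f : G.I ⊕ (G.J ⊕ G.A) → Q) : ok G σ t f ≤ 1 := by
  unfold ok; split_ifs <;> norm_num

lemma ok_congr (σ : Equiv.Perm (Fin R × Fin d)) (t : (G.gadget (prj σ)).T)
    {f g : G.I ⊕ (G.J ⊕ G.A) → Q}
    (h1 : f ((G.gadget (prj σ)).left t) = g ((G.gadget (prj σ)).left t))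
    (h2 : f ((G.gadget (prj σ)).right t) = g ((G.gadget (prj σ)).right t)) :
    ok G σ t f = ok G σ t g := by
  unfold ok; rw [h1, h2]

/-- The honest satisfaction probability of the constraint `t`. -/
def csat (σ : Equiv.Perm (Fin R × Fin d)) (t : (G.gadget (prj σ)).T) : ℝ :=
  avg fun x => ok G σ t (fun τ => phi G α σ τ x)

lemma csat_nonneg (σ : Equiv.Perm (Fin R × Fin d)) (t : (G.gadget (prj σ)).T) :
    0 ≤ csat G α σ t := avg_nonneg fun _ => ok_nonneg G σ t _

lemma csat_le_one [Nonempty (Fin R × Fin d)] (σ : Equiv.Perm (Fin R × Fin d))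
    (t : (G.gadget (prj σ)).T) : csat G α σ t ≤ 1 := avg_le_of_le fun _ => ok_le G σ t _

/-- The left-block variable of a constraint between the two blocks. -/
def cross {I J A : Type} : I ⊕ (J ⊕ A) → I ⊕ (J ⊕ A) → Option I
  | Sum.inl i, Sum.inr (Sum.inl _) => some i
  | Sum.inr (Sum.inl _), Sum.inl i => some i
  | _, _ => none

/-- The confusion indicator. -/
def cnf (κ : ℝ) (σ' : Equiv.Perm (Fin R × Fin d)) : Option G.I → ℝ
  | some i => if κ < typ σ' (G.F i) then 1 else 0
  | none => 0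

lemma cnf_nonneg (κ : ℝ) (σ' : Equiv.Perm (Fin R × Fin d)) (o : Option G.I) :
    0 ≤ cnf G κ σ' o := by
  rcases o with _ | i
  · exact le_rfl
  · simp only [cnf]; split_ifs <;> norm_num

lemma honest_ge {c q : ℝ} (hd : 2 ≤ d) (h0 : 0 ≤ c) (h1 : c ≤ 1) (hq0 : 0 ≤ q) :
    2 * q * quad d c - q ^ 2 ≤ c := by
  have h := quad_le hd h0 h1
  by_cases hneg : quad d c ≤ 0
  · nlinarith [sq_nonneg q, mul_nonneg hq0 (neg_nonneg.2 hneg)]
  · push Not at hneg
    nlinarith [sq_nonneg (q - quad d c)]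

/-- The success of one constraint with one end in each block. -/
lemma cross_ge (hd : 2 ≤ d) (hR : 1 ≤ R) {κ q : ℝ} (hκ : 0 < κ) (hq0 : 0 ≤ q) (hq1 : q ≤ 1)
    (u : Fin D → Equiv.Perm (Fin R × Fin d)) (v : Fin D) (i : G.I) (b : Fin R → Q) :
    2 * q * quad d (sat (u v) (G.F i) b) - q ^ 2 - 2 * κ -
        ∑ v' ∈ univ.erase v, cnf G κ (u v') (some i) ≤
      avg fun ℓ : Fin D → Fin R × Fin d => avg fun x' =>
        hit (fun _ : Fin R × Fin d => actU2 G κ ℓ x' u i) b (ℓ v).1 x' := by
  have hL : Nonempty (Fin R × Fin d) := ⟨(⟨0, hR⟩, ⟨0, by omega⟩)⟩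
  have h1 := success_ge hd hR (u v) (G.F i) b hκ hq0 hq1
  refine le_trans (sub_le_sub_right h1 _) ?_
  -- the ideal success probability as an average
  have h2 : (if κ < typ (u v) (G.F i) then sat (u v) (G.F i) b else ind (G.F i) b) =
      avg fun ℓ : Fin D → Fin R × Fin d => avg fun x' =>
        (if κ < typ (u v) (G.F i) then hit (G.F i) b (ℓ v).1 (u v (ℓ v))
          else hit (G.F i) b (ℓ v).1 x') := by
    split_ifs with h
    · simp only [avg_const]
      rw [avg_pi_single v (fun l => hit (G.F i) b l.1 (u v l)), avg_prod]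
      rfl
    · rw [avg_pi_single v (fun l : Fin R × Fin d => avg fun x' => hit (G.F i) b l.1 x'), avg_prod]
      have : Nonempty (Fin d) := ⟨⟨0, by omega⟩⟩
      simp only [avg_const]
      rfl
  have h3 : (∑ v' ∈ univ.erase v, cnf G κ (u v') (some i)) =
      avg fun _ : Fin D → Fin R × Fin d => avg fun _ : Fin R × Fin d =>
        ∑ v' ∈ univ.erase v, cnf G κ (u v') (some i) := by
    simp only [avg_const]
  rw [h2, h3, ← avg_sub]
  refine avg_mono fun ℓ => ?_
  rw [← avg_sub]
  refine avg_mono fun x' => ?_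
  have hnn : 0 ≤ ∑ v' ∈ univ.erase v, cnf G κ (u v') (some i) :=
    Finset.sum_nonneg fun v' _ => cnf_nonneg G κ (u v') (some i)
  by_cases h : ∃ v, κ < typ (u v) (G.F i)
  · by_cases hv : h.choose = v
    · have hs := h.choose_spec
      rw [hv] at hs
      rw [if_pos hs]
      have : actU2 G κ ℓ x' u i = G.F i (u v (ℓ v)) := by
        unfold actU2
        rw [dif_pos h, hv]
      unfold hit
      rw [this]
      linarith
    · have h4 : (1 : ℝ) ≤ ∑ v' ∈ univ.erase v, cnf G κ (u v') (some i) := by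
        refine le_trans ?_ (Finset.single_le_sum (f := fun v' => cnf G κ (u v') (some i))
          (fun v' _ => cnf_nonneg G κ (u v') (some i))
          (Finset.mem_erase.2 ⟨hv, Finset.mem_univ _⟩))
        simp only [cnf]
        rw [if_pos h.choose_spec]
      have h5 : (if κ < typ (u v) (G.F i) then hit (G.F i) b (ℓ v).1 (u v (ℓ v))
          else hit (G.F i) b (ℓ v).1 x') ≤ 1 := by
        split_ifs
        · exact hit_le _ _ _ _
        · exact hit_le _ _ _ _
      have h6 := hit_nonneg (fun _ : Fin R × Fin d => actU2 G κ ℓ x' u i) b (ℓ v).1 x'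
      linarith
  · have hs : ¬ κ < typ (u v) (G.F i) := fun hs => h ⟨v, hs⟩
    rw [if_neg hs]
    have : actU2 G κ ℓ x' u i = G.F i x' := by
      unfold actU2
      rw [dif_neg h]
    unfold hit
    rw [this]
    linarith

/-- The key estimate for one constraint. -/
lemma constraint_ge (hd : 2 ≤ d) (hR : 1 ≤ R) {κ q : ℝ} (hκ : 0 < κ) (hq0 : 0 ≤ q) (hq1 : q ≤ 1)
    (u : Fin D → Equiv.Perm (Fin R × Fin d)) (v : Fin D) (t : (G.gadget (prj (u v))).T) :
    2 * q * quad d (csat G α (u v) t) - q ^ 2 - 2 * κ -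
        ∑ v' ∈ univ.erase v, cnf G κ (u v') (cross ((G.gadget (prj (u v))).left t)
          ((G.gadget (prj (u v))).right t)) ≤
      avg fun ℓ : Fin D → Fin R × Fin d => avg fun x' =>
        ok G (u v) t (act1 G α ℓ x' u v) + ok G (u v) t (act2 G α κ ℓ x' u v) := by
  have hL : Nonempty (Fin R × Fin d) := ⟨(⟨0, hR⟩, ⟨0, by omega⟩)⟩
  have hc0 := csat_nonneg G α (u v) t
  have hc1 := csat_le_one G α (u v) t
  have hge := honest_ge (d := d) hd hc0 hc1 hq0
  have hnn : 0 ≤ ∑ v' ∈ univ.erase v, cnf G κ (u v') (cross ((G.gadget (prj (u v))).left t)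
          ((G.gadget (prj (u v))).right t)) :=
    Finset.sum_nonneg fun v' _ => cnf_nonneg G κ (u v') _
  -- good in the first mode
  have mode1 : (∀ (ℓ : Fin D → Fin R × Fin d) (x' : Fin R × Fin d),
      ok G (u v) t (act1 G α ℓ x' u v) = ok G (u v) t (fun τ => phi G α (u v) τ x')) →
      csat G α (u v) t ≤ avg fun ℓ : Fin D → Fin R × Fin d => avg fun x' =>
        ok G (u v) t (act1 G α ℓ x' u v) + ok G (u v) t (act2 G α κ ℓ x' u v) := by
    intro h
    refine le_avg_of_le fun ℓ => ?_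
    refine avg_mono fun x' => ?_
    rw [h ℓ x']
    have := ok_nonneg G (u v) t (act2 G α κ ℓ x' u v)
    linarith
  have mode2 : (∀ (ℓ : Fin D → Fin R × Fin d) (x' : Fin R × Fin d),
      ok G (u v) t (act2 G α κ ℓ x' u v) =
        ok G (u v) t (fun τ => phi G α (u v) τ (u v (ℓ v)))) →
      csat G α (u v) t ≤ avg fun ℓ : Fin D → Fin R × Fin d => avg fun x' =>
        ok G (u v) t (act1 G α ℓ x' u v) + ok G (u v) t (act2 G α κ ℓ x' u v) := by
    intro h
    have h1 : csat G α (u v) t = avg fun ℓ : Fin D → Fin R × Fin d => avg fun _ : Fin R × Fin d =>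
        ok G (u v) t (fun τ => phi G α (u v) τ (u v (ℓ v))) := by
      simp only [avg_const]
      rw [avg_pi_single v (fun l => ok G (u v) t (fun τ => phi G α (u v) τ (u v l)))]
      exact (avg_equiv (u v) (fun x => ok G (u v) t (fun τ => phi G α (u v) τ x))).symm
    rw [h1]
    refine avg_mono fun ℓ => avg_mono fun x' => ?_
    rw [h ℓ x']
    have := ok_nonneg G (u v) t (act1 G α ℓ x' u v)
    linarith
  have final1 : csat G α (u v) t ≤ (avg fun ℓ : Fin D → Fin R × Fin d => avg fun x' =>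
        ok G (u v) t (act1 G α ℓ x' u v) + ok G (u v) t (act2 G α κ ℓ x' u v)) →
      2 * q * quad d (csat G α (u v) t) - q ^ 2 - 2 * κ -
        ∑ v' ∈ univ.erase v, cnf G κ (u v') (cross ((G.gadget (prj (u v))).left t)
          ((G.gadget (prj (u v))).right t)) ≤
      avg fun ℓ : Fin D → Fin R × Fin d => avg fun x' =>
        ok G (u v) t (act1 G α ℓ x' u v) + ok G (u v) t (act2 G α κ ℓ x' u v) := by
    intro h
    linarith
  rcases hl : (G.gadget (prj (u v))).left t with i | j | a
  · rcases hr : (G.gadget (prj (u v))).right t with i' | j' | a'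
    · rw [← hl, ← hr]
      exact final1 (mode1 fun ℓ x' => ok_congr G (u v) t (by rw [hl]; rfl) (by rw [hr]; rfl))
    · -- a constraint between the two blocks
      simp only [cross]
      have hkey := cross_ge G hd hR hκ hq0 hq1 u v i
        (fun y => ((G.gadget (prj (u v))).perm t).symm (G.H j' y))
      have hcs : csat G α (u v) t = sat (u v) (G.F i)
          (fun y => ((G.gadget (prj (u v))).perm t).symm (G.H j' y)) := by
        unfold csat sat
        rw [← avg_equiv (u v), avg_prod]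
        refine congrArg avg (funext fun y => congrArg avg (funext fun z => ?_))
        unfold ok hit
        rw [hl, hr]
        have e : phi G α (u v) (Sum.inr (Sum.inl j')) (u v (y, z)) = G.H j' y := by
          simp [phi, GadgetSystem.honest, prj]
        have e2 : phi G α (u v) (Sum.inl i) (u v (y, z)) = G.F i (u v (y, z)) := rfl
        refine if_congr ?_ rfl rfl
        dsimp only
        rw [e, e2, ← Equiv.eq_symm_apply]
      rw [hcs]
      refine hkey.trans (avg_mono fun ℓ => avg_mono fun x' => ?_)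
      have h1 := ok_nonneg G (u v) t (act1 G α ℓ x' u v)
      have h2 : hit (fun _ : Fin R × Fin d => actU2 G κ ℓ x' u i)
          (fun y => ((G.gadget (prj (u v))).perm t).symm (G.H j' y)) (ℓ v).1 x' =
          ok G (u v) t (act2 G α κ ℓ x' u v) := by
        unfold ok hit
        rw [hl, hr]
        simp only [act2, Sum.elim_inl, Sum.elim_inr, ← Equiv.eq_symm_apply]
      rw [h2]
      linarith
    · rw [← hl, ← hr]
      exact final1 (mode1 fun ℓ x' => ok_congr G (u v) t (by rw [hl]; rfl) (by rw [hr]; rfl))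
  · rcases hr : (G.gadget (prj (u v))).right t with i' | j' | a'
    · simp only [cross]
      have hkey := cross_ge G hd hR hκ hq0 hq1 u v i'
        (fun y => (G.gadget (prj (u v))).perm t (G.H j y))
      have hcs : csat G α (u v) t = sat (u v) (G.F i')
          (fun y => (G.gadget (prj (u v))).perm t (G.H j y)) := by
        unfold csat sat
        rw [← avg_equiv (u v), avg_prod]
        refine congrArg avg (funext fun y => congrArg avg (funext fun z => ?_))
        unfold ok hit
        rw [hl, hr]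
        have e : phi G α (u v) (Sum.inr (Sum.inl j)) (u v (y, z)) = G.H j y := by
          simp [phi, GadgetSystem.honest, prj]
        have e2 : phi G α (u v) (Sum.inl i') (u v (y, z)) = G.F i' (u v (y, z)) := rfl
        refine if_congr ?_ rfl rfl
        dsimp only
        rw [e, e2, eq_comm]
      rw [hcs]
      refine hkey.trans (avg_mono fun ℓ => avg_mono fun x' => ?_)
      have h1 := ok_nonneg G (u v) t (act1 G α ℓ x' u v)
      have h2 : hit (fun _ : Fin R × Fin d => actU2 G κ ℓ x' u i')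
          (fun y => (G.gadget (prj (u v))).perm t (G.H j y)) (ℓ v).1 x' =
          ok G (u v) t (act2 G α κ ℓ x' u v) := by
        unfold ok hit
        rw [hl, hr]
        simp only [act2, Sum.elim_inl, Sum.elim_inr, eq_comm]
      rw [h2]
      linarith
    · rw [← hl, ← hr]
      exact final1 (mode2 fun ℓ x' => ok_congr G (u v) t
        (by rw [hl]; simp [act2, phi, GadgetSystem.honest, prj])
        (by rw [hr]; simp [act2, phi, GadgetSystem.honest, prj]))
    · rw [← hl, ← hr]
      exact final1 (mode2 fun ℓ x' => ok_congr G (u v) t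
        (by rw [hl]; simp [act2, phi, GadgetSystem.honest, prj])
        (by rw [hr]; simp [act2, phi, GadgetSystem.honest, prj]))
  · rcases hr : (G.gadget (prj (u v))).right t with i' | j' | a'
    · rw [← hl, ← hr]
      exact final1 (mode1 fun ℓ x' => ok_congr G (u v) t (by rw [hl]; rfl) (by rw [hr]; rfl))
    · rw [← hl, ← hr]
      exact final1 (mode2 fun ℓ x' => ok_congr G (u v) t
        (by rw [hl]; simp [act2, phi, GadgetSystem.honest, prj])
        (by rw [hr]; simp [act2, phi, GadgetSystem.honest, prj]))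
    · rw [← hl, ← hr]
      exact final1 (mode1 fun ℓ x' => ok_congr G (u v) t (by rw [hl]; rfl) (by rw [hr]; rfl))

lemma jensen_quad (hd : 2 ≤ d) {T : Type} [Fintype T] (w c : T → ℝ) (hw : ∀ t, 0 ≤ w t)
    (hw1 : ∑ t, w t = 1) {c₀ : ℝ} (hc₀ : 1 / d ≤ c₀) (hc : c₀ ≤ ∑ t, w t * c t) :
    quad d c₀ ≤ ∑ t, w t * quad d (c t) := by
  have hd2 : (2 : ℝ) ≤ d := by exact_mod_cast hd
  have hd1 : (0 : ℝ) < (d : ℝ) - 1 := by linarith
  set m := ∑ t, w t * c t with hm
  have h1 : m ^ 2 ≤ ∑ t, w t * c t ^ 2 := by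
    have h0 : 0 ≤ ∑ t, w t * (c t - m) ^ 2 :=
      Finset.sum_nonneg fun t _ => mul_nonneg (hw t) (sq_nonneg _)
    have h2 : ∑ t, w t * (c t - m) ^ 2 =
        ∑ t, w t * c t ^ 2 - 2 * m * (∑ t, w t * c t) + m ^ 2 * ∑ t, w t := by
      have h3 : ∀ t, w t * (c t - m) ^ 2 = w t * c t ^ 2 - 2 * m * (w t * c t) + m ^ 2 * w t :=
        fun t => by ring
      simp only [h3, Finset.sum_add_distrib, Finset.sum_sub_distrib, ← Finset.mul_sum]
    rw [h2, hw1, ← hm] at h0
    nlinarith
  have h2 : ∑ t, w t * quad d (c t) = (d * (∑ t, w t * c t ^ 2) - m) / (d - 1) := by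
    rw [hm, Finset.mul_sum, ← Finset.sum_sub_distrib, Finset.sum_div]
    refine Finset.sum_congr rfl fun t _ => ?_
    unfold quad
    field_simp
  rw [h2]
  unfold quad
  refine div_le_div_of_nonneg_right ?_ hd1.le
  have hd0 : (0 : ℝ) < d := by linarith
  have h3 : 1 ≤ c₀ * d := by
    rw [div_le_iff₀ hd0] at hc₀; linarith
  have h4 : (d : ℝ) * c₀ ^ 2 - c₀ ≤ d * m ^ 2 - m := by
    have h6 : (d : ℝ) * c₀ ≤ d * m := mul_le_mul_of_nonneg_left hc hd0.le
    have h7 : 0 ≤ (d : ℝ) * (m + c₀) - 1 := by nlinarith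
    have := mul_nonneg (sub_nonneg.2 hc) h7
    nlinarith
  have h5 : (d : ℝ) * m ^ 2 ≤ d * ∑ t, w t * c t ^ 2 := mul_le_mul_of_nonneg_left h1 hd0.le
  linarith

lemma complete_csat {c : ℝ} (hR : 1 ≤ R) (hd : 2 ≤ d) (σ : Equiv.Perm (Fin R × Fin d))
    (hα : c * Fintype.card (Fin R × Fin d) ≤
      ∑ x, (G.gadget (prj σ)).satisfied (G.honest (prj σ) x (α σ x))) :
    c ≤ ∑ t, (G.gadget (prj σ)).w t * csat G α σ t := by
  have hne : Nonempty (Fin R × Fin d) := ⟨(⟨0, by omega⟩, ⟨0, by omega⟩)⟩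
  have hn : (0 : ℝ) < Fintype.card (Fin R × Fin d) := by exact_mod_cast Fintype.card_pos
  have h1 : ∑ t, (G.gadget (prj σ)).w t * csat G α σ t =
      (∑ x, (G.gadget (prj σ)).satisfied (G.honest (prj σ) x (α σ x))) /
        Fintype.card (Fin R × Fin d) := by
    unfold UniqueGame.satisfied csat avg
    rw [Finset.sum_comm, Finset.sum_div]
    refine Finset.sum_congr rfl fun t _ => ?_
    rw [← mul_div_assoc, Finset.mul_sum]
    congr 1
  rw [h1, le_div_iff₀ hn]
  exact hα

/-- The confusion of the edge `(u, v)` caused by `v'`. -/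
def cnfSum (κ : ℝ) (σ σ' : Equiv.Perm (Fin R × Fin d)) : ℝ :=
  ∑ t, (G.gadget (prj σ)).w t * cnf G κ σ' (cross ((G.gadget (prj σ)).left t)
    ((G.gadget (prj σ)).right t))

lemma avg_cnfSum_le (hd : 2 ≤ d) (hR : 6 ≤ R) {κ : ℝ} (hκ : 0 < κ)
    (σ : Equiv.Perm (Fin R × Fin d)) :
    (avg fun σ' => cnfSum G κ σ σ') ≤ Real.sqrt (10 / R) / κ := by
  unfold cnfSum
  rw [avg_sum]
  simp only [avg_mul_left]
  have h1 : ∀ o : Option G.I, (avg fun σ' => cnf G κ σ' o) ≤ Real.sqrt (10 / R) / κ := by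
    intro o
    rcases o with _ | i
    · simp only [cnf]
      rw [avg_const]
      positivity
    · exact avg_typed_le hd hR (G.F i) hκ
  refine (Finset.sum_le_sum fun t _ => mul_le_mul_of_nonneg_left (h1 _)
    ((G.normalized (prj σ)).1 t)).trans (le_of_eq ?_)
  rw [← Finset.sum_mul, (G.normalized (prj σ)).2, one_mul]

/-- The values of the two strategies on the edge `(u, v)`. -/
def two (κ : ℝ) (ℓ : Fin D → Fin R × Fin d) (x' : Fin R × Fin d)
    (u : Fin D → Equiv.Perm (Fin R × Fin d)) (v : Fin D) : ℝ :=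
  (G.gadget (prj (u v))).satisfied (act1 G α ℓ x' u v) +
    (G.gadget (prj (u v))).satisfied (act2 G α κ ℓ x' u v)

lemma edge_ge (hd : 2 ≤ d) (hR : 1 ≤ R) {κ c : ℝ} (hκ : 0 < κ) (hc : 1 / d ≤ c)
    (hα : ∀ σ : Equiv.Perm (Fin R × Fin d), c * Fintype.card (Fin R × Fin d) ≤
      ∑ x, (G.gadget (prj σ)).satisfied (G.honest (prj σ) x (α σ x)))
    (u : Fin D → Equiv.Perm (Fin R × Fin d)) (v : Fin D) :
    quad d c ^ 2 - 2 * κ - ∑ v' ∈ univ.erase v, cnfSum G κ (u v) (u v') ≤
      avg fun ℓ : Fin D → Fin R × Fin d => avg fun x' => two G α κ ℓ x' u v := by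
  have hL : Nonempty (Fin R × Fin d) := ⟨(⟨0, hR⟩, ⟨0, by omega⟩)⟩
  have hd2 : (2 : ℝ) ≤ d := by exact_mod_cast hd
  have hd0 : (0 : ℝ) < d := by linarith
  have hcs := complete_csat G α hR hd (u v) (hα (u v))
  have hw := (G.normalized (prj (u v))).1
  have hw1 := (G.normalized (prj (u v))).2
  have hc1 : c ≤ 1 := by
    refine hcs.trans ?_
    rw [← hw1]
    refine Finset.sum_le_sum fun t _ => ?_
    have := mul_le_mul_of_nonneg_left (csat_le_one G α (u v) t) (hw t)
    linarith
  have hc0 : 0 ≤ c := le_trans (by positivity) hc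
  have hq0 : 0 ≤ quad d c := by
    unfold quad
    refine div_nonneg ?_ (by linarith)
    rw [div_le_iff₀ hd0] at hc
    nlinarith
  have hq1 : quad d c ≤ 1 := (quad_le hd hc0 hc1).trans hc1
  have hj := jensen_quad hd (fun t => (G.gadget (prj (u v))).w t) (fun t => csat G α (u v) t)
    hw hw1 hc hcs
  have htwo : (avg fun ℓ : Fin D → Fin R × Fin d => avg fun x' => two G α κ ℓ x' u v) =
      ∑ t, (G.gadget (prj (u v))).w t * (avg fun ℓ : Fin D → Fin R × Fin d => avg fun x' =>
        ok G (u v) t (act1 G α ℓ x' u v) + ok G (u v) t (act2 G α κ ℓ x' u v)) := by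
    have h1 : ∀ (ℓ : Fin D → Fin R × Fin d) (x' : Fin R × Fin d), two G α κ ℓ x' u v =
        ∑ t, (G.gadget (prj (u v))).w t *
          (ok G (u v) t (act1 G α ℓ x' u v) + ok G (u v) t (act2 G α κ ℓ x' u v)) := by
      intro ℓ x'
      unfold two UniqueGame.satisfied ok
      rw [← Finset.sum_add_distrib]
      exact Finset.sum_congr rfl fun t _ => by ring
    simp only [h1, avg_sum, avg_mul_left]
  rw [htwo]
  have h2 := Finset.sum_le_sum (s := univ) fun t _ => mul_le_mul_of_nonneg_left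
    (constraint_ge G α hd hR hκ hq0 hq1 u v t) (hw t)
  refine le_trans (le_trans (b := 2 * quad d c *
      (∑ t, (G.gadget (prj (u v))).w t * quad d (csat G α (u v) t)) -
      quad d c ^ 2 - 2 * κ - ∑ v' ∈ univ.erase v, cnfSum G κ (u v) (u v')) ?_ (le_of_eq ?_)) h2
  · have := mul_le_mul_of_nonneg_left hj (mul_nonneg zero_le_two hq0)
    nlinarith
  · unfold cnfSum
    rw [Finset.sum_comm (s := univ.erase v)]
    simp only [mul_sub, Finset.sum_sub_distrib, ← Finset.sum_mul, hw1, one_mul, Finset.mul_sum]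
    congr 1
    congr 1
    congr 1
    exact Finset.sum_congr rfl fun t _ => by ring

/-- **The threshold barrier on the universal instance.** -/
theorem threshold_barrier (hd : 2 ≤ d) (hR : 6 ≤ R) (hD : 0 < D) {κ c : ℝ} (hκ : 0 < κ)
    (hc : 1 / d ≤ c) (hG : G.Complete d c) :
    ∃ f, 1 / 2 * (quad d c ^ 2 - 2 * κ - D * (Real.sqrt (10 / R) / κ)) ≤
      (compose (universal D R d hD) G).satisfied f := by
  have hne : Nonempty (Fin R × Fin d) := ⟨(⟨0, by omega⟩, ⟨0, by omega⟩)⟩
  have hDn : Nonempty (Fin D) := ⟨⟨0, hD⟩⟩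
  choose α hα using fun σ : Equiv.Perm (Fin R × Fin d) => hG (prj σ) (prj_dToOne σ)
  set B := quad d c ^ 2 - 2 * κ - D * (Real.sqrt (10 / R) / κ) with hB
  have hv : ∀ v : Fin D, B ≤ avg fun u : Fin D → Equiv.Perm (Fin R × Fin d) =>
      avg fun ℓ : Fin D → Fin R × Fin d => avg fun x' => two G α κ ℓ x' u v := by
    intro v
    refine le_trans ?_ (avg_mono fun u => edge_ge G α hd (by omega) hκ hc hα u v)
    rw [avg_sub, avg_const, avg_sum]
    have h1 : ∀ v' ∈ univ.erase v, (avg fun u : Fin D → Equiv.Perm (Fin R × Fin d) =>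
        cnfSum G κ (u v) (u v')) ≤ Real.sqrt (10 / R) / κ := by
      intro v' hv'
      have hne' : v ≠ v' := fun h => (Finset.mem_erase.1 hv').1 h.symm
      rw [avg_pi_pair hne' (fun σ σ' => cnfSum G κ σ σ')]
      exact avg_le_of_le fun σ => avg_cnfSum_le G hd hR hκ σ
    have h2 := Finset.sum_le_sum h1
    rw [Finset.sum_const, nsmul_eq_mul] at h2
    have h4 : ((univ.erase v).card : ℝ) ≤ D := by
      have := Finset.card_erase_le (s := (univ : Finset (Fin D))) (a := v)
      rw [Finset.card_univ, Fintype.card_fin] at this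
      exact_mod_cast this
    have h5 : ((univ.erase v).card : ℝ) * (Real.sqrt (10 / R) / κ) ≤
        D * (Real.sqrt (10 / R) / κ) := mul_le_mul_of_nonneg_right h4 (by positivity)
    linarith
  have hall : B ≤ avg fun ℓ : Fin D → Fin R × Fin d => avg fun x' =>
      avg fun u : Fin D → Equiv.Perm (Fin R × Fin d) => avg fun v : Fin D =>
        two G α κ ℓ x' u v := by
    have h1 : B ≤ avg fun v : Fin D => avg fun u : Fin D → Equiv.Perm (Fin R × Fin d) =>
        avg fun ℓ : Fin D → Fin R × Fin d => avg fun x' => two G α κ ℓ x' u v :=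
      le_avg_of_le hv
    rw [avg_comm] at h1
    have e1 : ∀ u : Fin D → Equiv.Perm (Fin R × Fin d), (avg fun v : Fin D =>
        avg fun ℓ : Fin D → Fin R × Fin d => avg fun x' => two G α κ ℓ x' u v) =
        avg fun ℓ : Fin D → Fin R × Fin d => avg fun x' => avg fun v : Fin D =>
          two G α κ ℓ x' u v := by
      intro u
      rw [avg_comm]
      refine congrArg avg (funext fun ℓ => ?_)
      rw [avg_comm]
    simp only [e1] at h1
    rw [avg_comm] at h1
    refine h1.trans (le_of_eq ?_)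
    refine congrArg avg (funext fun ℓ => ?_)
    rw [avg_comm]
  obtain ⟨ℓ, hℓ⟩ := exists_ge_avg (fun ℓ : Fin D → Fin R × Fin d => avg fun x' =>
      avg fun u : Fin D → Equiv.Perm (Fin R × Fin d) => avg fun v : Fin D =>
        two G α κ ℓ x' u v)
  obtain ⟨x', hx'⟩ := exists_ge_avg (fun x' =>
      avg fun u : Fin D → Equiv.Perm (Fin R × Fin d) => avg fun v : Fin D =>
        two G α κ ℓ x' u v)
  have hfin : B ≤ (avg fun u : Fin D → Equiv.Perm (Fin R × Fin d) => avg fun v : Fin D =>
        two G α κ ℓ x' u v) := by linarith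
  unfold two at hfin
  simp only [avg_add] at hfin
  -- the composed value of a strategy
  have hval : ∀ (f : ((universal D R d hD).U × G.I) ⊕ (((universal D R d hD).V × G.J) ⊕
      (((universal D R d hD).U × (universal D R d hD).V) × G.A)) → Q)
      (g : (Fin D → Equiv.Perm (Fin R × Fin d)) → Fin D → G.I ⊕ (G.J ⊕ G.A) → Q),
      (∀ u v, f ∘ embed (universal D R d hD) G u v = g u v) →
      (compose (universal D R d hD) G).satisfied f =
        avg fun u : Fin D → Equiv.Perm (Fin R × Fin d) => avg fun v : Fin D =>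
          (G.gadget (prj (u v))).satisfied (g u v) := by
    intro f g hfg
    rw [compose_satisfied, ← avg_prod (fun e : (Fin D → Equiv.Perm (Fin R × Fin d)) × Fin D =>
      (G.gadget (prj (e.1 e.2))).satisfied (g e.1 e.2))]
    unfold avg
    rw [← Finset.card_univ]
    congr 1
    refine Finset.sum_congr rfl fun e _ => ?_
    rw [hfg]
    rfl
  rcases le_total (avg fun u : Fin D → Equiv.Perm (Fin R × Fin d) => avg fun v : Fin D =>
      (G.gadget (prj (u v))).satisfied (act1 G α ℓ x' u v))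
    (avg fun u : Fin D → Equiv.Perm (Fin R × Fin d) => avg fun v : Fin D =>
      (G.gadget (prj (u v))).satisfied (act2 G α κ ℓ x' u v)) with h | h
  · refine ⟨Sum.elim (fun p => actU2 G κ ℓ x' p.1 p.2)
      (Sum.elim (fun p => G.H p.2 (ℓ p.1).1)
      (fun p => α (p.1.1 p.1.2) (p.1.1 p.1.2 (ℓ p.1.2)) p.2)), ?_⟩
    rw [hval _ (fun u v => act2 G α κ ℓ x' u v) (by
      intro u v; funext τ; rcases τ with i | j | a <;> rfl)]
    linarith
  · refine ⟨Sum.elim (fun p => G.F p.2 x')
      (Sum.elim (fun p => G.H p.2 (ℓ p.1).1)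
      (fun p => α (p.1.1 p.1.2) x' p.2)), ?_⟩
    rw [hval _ (fun u v => act1 G α ℓ x' u v) (by
      intro u v; funext τ; rcases τ with i | j | a <;> rfl)]
    linarith

end Pool.Agent.Lib.P325f1f.Gadget.Threshold
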