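import Pool.Agent.Lib.P325f1f.GadgetDefs
import Pool.Agent.Lib.P325f1f.GadgetLev

/-!
# The universal label cover instance
-/

set_option autoImplicit false

open scoped Classical
open Finset

noncomputable section

namespace Pool.Agent.Lib.P325f1f.Gadget

lemma avg_perm_single {L : Type} [Fintype L] [DecidableEq L] (x : L) (h : L → ℝ) :
    avg (fun σ : Equiv.Perm L => h (σ x)) = avg h := by
  have : Nonempty L := ⟨x⟩
  have h1 : ∀ y : L, avg (fun σ : Equiv.Perm L => h (σ y)) =
      avg (fun σ : Equiv.Perm L => h (σ x)) := by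
    intro y
    rw [← avg_equiv (Equiv.mulRight (Equiv.swap x y)) (fun σ : Equiv.Perm L => h (σ y))]
    refine congrArg avg (funext fun σ => ?_)
    simp [Equiv.Perm.mul_apply]
  have h2 : avg (fun y => avg (fun σ : Equiv.Perm L => h (σ y))) =
      avg (fun σ : Equiv.Perm L => h (σ x)) := by
    simp only [h1]; exact avg_const _
  rw [← h2, avg_comm]
  have h3 : ∀ σ : Equiv.Perm L, avg (fun y => h (σ y)) = avg h := fun σ => avg_equiv σ h
  simp only [h3]
  exact avg_const _

lemma avg_perm_inv_single {L : Type} [Fintype L] [DecidableEq L] (x : L) (h : L → ℝ) :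
    avg (fun σ : Equiv.Perm L => h (σ⁻¹ x)) = avg h := by
  rw [avg_perm_inv (fun σ : Equiv.Perm L => h (σ x))]
  exact avg_perm_single x h

/-- The projection given by a permutation. -/
def prj {R d : ℕ} (σ : Equiv.Perm (Fin R × Fin d)) (x : Fin R × Fin d) : Fin R := (σ⁻¹ x).1

lemma prj_dToOne {R d : ℕ} (σ : Equiv.Perm (Fin R × Fin d)) : IsDToOne d (prj σ) := by
  intro r
  let e : {x : Fin R × Fin d // prj σ x = r} ≃ Fin d :=
    { toFun := fun x => (σ⁻¹ x.1).2
      invFun := fun z => ⟨σ (r, z), by simp [prj]⟩
      left_inv := by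
        rintro ⟨x, hx⟩
        have : (r, (σ⁻¹ x).2) = σ⁻¹ x := by
          rw [← hx]; rfl
        refine Subtype.ext ?_
        change σ (r, (σ⁻¹ x).2) = x
        rw [this]
        simp
      right_inv := fun z => by simp }
  rw [Nat.card_congr e, Nat.card_eq_fintype_card, Fintype.card_fin]

/-- The universal instance: the left vertices are all `D`-tuples of permutations, the right
vertices are the `D` coordinates, and every pair is an edge. -/
def universal (D R d : ℕ) (hD : 0 < D) : LabelCover (Fin R × Fin d) (Fin R) where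
  U := Fin D → Equiv.Perm (Fin R × Fin d)
  V := Fin D
  edges := Finset.univ
  edges_nonempty := by
    have : Nonempty (Fin D) := ⟨⟨0, hD⟩⟩
    exact Finset.univ_nonempty
  proj u v := prj (u v)

lemma universal_dToOne (D R d : ℕ) (hD : 0 < D) : (universal D R d hD).DToOne d := by
  rintro ⟨u, v⟩ -
  exact prj_dToOne (u v)

lemma universal_value (D R d : ℕ) (hD : 0 < D) (hR : 0 < R) (hd : 0 < d) :
    (universal D R d hD).ValueAtMost (1 / D + d * D / R) := by
  intro a b
  have hDne : Nonempty (Fin D) := ⟨⟨0, hD⟩⟩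
  have hRne : Nonempty (Fin R) := ⟨⟨0, hR⟩⟩
  have hLne : Nonempty (Fin R × Fin d) := ⟨(⟨0, hR⟩, ⟨0, hd⟩)⟩
  have hD0 : (0 : ℝ) < D := by exact_mod_cast hD
  have hR0 : (0 : ℝ) < R := by exact_mod_cast hR
  change (Fin D → Equiv.Perm (Fin R × Fin d)) → Fin R × Fin d at a
  change Fin D → Fin R at b
  -- the indicator
  let ind : (Fin D → Equiv.Perm (Fin R × Fin d)) → Fin D → ℝ :=
    fun u v => if prj (u v) (a u) = b v then 1 else 0
  let ind' : (Fin R × Fin d) → Equiv.Perm (Fin R × Fin d) → Fin D → ℝ :=
    fun x σ v => if prj σ x = b v then 1 else 0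
  have hcard : (Nat.card {e : (Fin D → Equiv.Perm (Fin R × Fin d)) × Fin D //
      e ∈ (univ : Finset ((Fin D → Equiv.Perm (Fin R × Fin d)) × Fin D)) ∧
        prj (e.1 e.2) (a e.1) = b e.2} : ℝ) = ∑ u, ∑ v, ind u v := by
    rw [Nat.card_eq_fintype_card, Fintype.card_subtype, Finset.card_filter,
      Fintype.sum_prod_type]
    simp [ind]
  -- average of the indicator of one coordinate
  have hone : ∀ (x : Fin R × Fin d) (v : Fin D), (avg fun σ => ind' x σ v) = 1 / R := by
    intro x v
    have h1 := avg_perm_inv_single x (fun y : Fin R × Fin d => if y.1 = b v then (1 : ℝ) else 0)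
    have h2 : (avg fun y : Fin R × Fin d => if y.1 = b v then (1 : ℝ) else 0) = 1 / R := by
      rw [avg_prod]
      have : Nonempty (Fin d) := ⟨⟨0, hd⟩⟩
      have h3 : (fun a : Fin R => avg fun _ : Fin d => if a = b v then (1 : ℝ) else 0) =
          fun a : Fin R => if a = b v then (1 : ℝ) else 0 := by
        funext a; exact avg_const _
      change (avg fun a : Fin R => avg fun _ : Fin d => if a = b v then (1 : ℝ) else 0) = _
      rw [h3]
      simp [avg]
    rw [← h2, ← h1]
    rfl
  -- the pointwise inequality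
  have hpt : ∀ u, ∑ v, ind u v ≤ 1 + ∑ x, ∑ v, ∑ v' ∈ univ.erase v, ind' x (u v) v *
      ind' x (u v') v' := by
    intro u
    have h1 : ∑ v, ∑ v' ∈ univ.erase v, ind u v * ind u v' ≤
        ∑ x, ∑ v, ∑ v' ∈ univ.erase v, ind' x (u v) v * ind' x (u v') v' := by
      refine Finset.single_le_sum (f := fun x => ∑ v, ∑ v' ∈ univ.erase v, ind' x (u v) v *
        ind' x (u v') v') (fun x _ => Finset.sum_nonneg fun v _ => Finset.sum_nonneg
        fun v' _ => mul_nonneg ?_ ?_) (Finset.mem_univ (a u))
      · simp only [ind']; split_ifs <;> norm_num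
      · simp only [ind']; split_ifs <;> norm_num
    have h2 : ∑ v, ∑ v' ∈ univ.erase v, ind u v * ind u v' =
        (∑ v, ind u v) ^ 2 - ∑ v, ind u v := by
      have : ∀ v, ∑ v' ∈ univ.erase v, ind u v * ind u v' =
          ind u v * (∑ v', ind u v') - ind u v := by
        intro v
        rw [← Finset.mul_sum, ← Finset.add_sum_erase univ (fun v' => ind u v')
          (Finset.mem_univ v)]
        have : ind u v * ind u v = ind u v := by
          simp only [ind]; split_ifs <;> norm_num
        linear_combination -this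
      simp only [this, Finset.sum_sub_distrib, ← Finset.sum_mul]
      ring
    nlinarith [sq_nonneg (∑ v, ind u v - 1)]
  -- average over `u`
  have havg : (avg fun u => ∑ v, ind u v) ≤ 1 + D * (d * D / R) := by
    refine (avg_mono hpt).trans ?_
    rw [avg_add, avg_const]
    refine add_le_add le_rfl ?_
    rw [avg_sum]
    have h1 : ∀ x : Fin R × Fin d, (avg fun u : Fin D → Equiv.Perm (Fin R × Fin d) =>
        ∑ v, ∑ v' ∈ univ.erase v, ind' x (u v) v * ind' x (u v') v') ≤ D * D / R ^ 2 := by
      intro x
      rw [avg_sum]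
      have h2 : ∀ v : Fin D, (avg fun u : Fin D → Equiv.Perm (Fin R × Fin d) =>
          ∑ v' ∈ univ.erase v, ind' x (u v) v * ind' x (u v') v') ≤ D / R ^ 2 := by
        intro v
        rw [avg_sum]
        have h3 : ∀ v' ∈ univ.erase v, (avg fun u : Fin D → Equiv.Perm (Fin R × Fin d) =>
            ind' x (u v) v * ind' x (u v') v') = 1 / R ^ 2 := by
          intro v' hv'
          have hne : v ≠ v' := fun h => (Finset.mem_erase.1 hv').1 h.symm
          rw [avg_pi_pair hne (fun σ σ' => ind' x σ v * ind' x σ' v')]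
          simp only [avg_mul_left, avg_mul_right, hone]
          field_simp
        rw [Finset.sum_congr rfl h3, Finset.sum_const, nsmul_eq_mul]
        have h4 : ((univ.erase v).card : ℝ) ≤ D := by
          have := Finset.card_erase_le (s := (univ : Finset (Fin D))) (a := v)
          rw [Finset.card_univ, Fintype.card_fin] at this
          exact_mod_cast this
        rw [mul_one_div]
        exact div_le_div_of_nonneg_right h4 (by positivity)
      refine (Finset.sum_le_sum fun v _ => h2 v).trans (le_of_eq ?_)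
      rw [Finset.sum_const, nsmul_eq_mul, Finset.card_univ, Fintype.card_fin]
      ring
    refine (Finset.sum_le_sum fun x _ => h1 x).trans (le_of_eq ?_)
    rw [Finset.sum_const, nsmul_eq_mul, Finset.card_univ, Fintype.card_prod, Fintype.card_fin,
      Fintype.card_fin]
    push_cast
    field_simp
  have hc : ((universal D R d hD).edges.card : ℝ) =
      Fintype.card (Fin D → Equiv.Perm (Fin R × Fin d)) * D := by
    change ((univ : Finset ((Fin D → Equiv.Perm (Fin R × Fin d)) × Fin D)).card : ℝ) = _
    rw [Finset.card_univ, Fintype.card_prod, Fintype.card_fin]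
    push_cast
    rfl
  have hU0 : (0 : ℝ) < Fintype.card (Fin D → Equiv.Perm (Fin R × Fin d)) := by
    exact_mod_cast Fintype.card_pos
  have hfin : ∑ u, ∑ v, ind u v ≤ (1 / D + d * D / R) *
      (Fintype.card (Fin D → Equiv.Perm (Fin R × Fin d)) * D) := by
    have h5 : ∑ u, ∑ v, ind u v = Fintype.card (Fin D → Equiv.Perm (Fin R × Fin d)) *
        (avg fun u => ∑ v, ind u v) := by
      unfold avg; field_simp
    rw [h5]
    calc _ ≤ (Fintype.card (Fin D → Equiv.Perm (Fin R × Fin d)) : ℝ) *
          (1 + D * (d * D / R)) := mul_le_mul_of_nonneg_left havg hU0.le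
      _ = _ := by field_simp
  rw [hc]
  refine le_trans (le_of_eq ?_) hfin
  rw [← hcard]
  rfl

end Pool.Agent.Lib.P325f1f.Gadget
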